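import Mathlib

set_option autoImplicit false
open PowerSeries

namespace Pool.Agent.H509R3.Yao

variable {E : Type*} [Field E] [Finite E] (p k : ℕ) [Fact p.Prime] [CharP E p]

/-- inverse of the `p ^ k` power map -/
noncomputable def rt : E ≃+* E := (iterateFrobeniusEquiv E p k).symm

lemma rt_pow (x : E) : rt p k (x ^ (p ^ k)) = x := by
  unfold rt
  rw [← iterateFrobeniusEquiv_def]
  exact RingEquiv.symm_apply_apply _ _

lemma pow_rt (x : E) : (rt p k x) ^ (p ^ k) = x := by
  unfold rt
  rw [← iterateFrobeniusEquiv_def]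
  exact RingEquiv.apply_symm_apply _ _

omit [Finite E] in
lemma coeff_pow_q (x : E⟦X⟧) (n : ℕ) :
    coeff n (x ^ (p ^ k)) = if p ^ k ∣ n then (coeff (n / p ^ k) x) ^ (p ^ k) else 0 := by
  have hp : (p ^ k) ≠ 0 := pow_ne_zero _ (Fact.out : p.Prime).ne_zero
  have h := MvPowerSeries.map_iterateFrobenius_expand (σ := Unit) (R := E) p (Fact.out : p.Prime).ne_zero x k
  have h2 : (PowerSeries.expand (p ^ k) hp x).map (iterateFrobenius E p k) = x ^ (p ^ k) := h
  rw [← h2, PowerSeries.coeff_map, PowerSeries.coeff_expand]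
  split_ifs with hd
  · rfl
  · simp

/-- Cartier operator -/
noncomputable def cart (i : ℕ) (x : E⟦X⟧) : E⟦X⟧ :=
  PowerSeries.mk fun n => rt p k (coeff (p ^ k * n + i) x)

lemma coeff_cart (i n : ℕ) (x : E⟦X⟧) : coeff n (cart p k i x) = rt p k (coeff (p ^ k * n + i) x) := by
  simp [cart]

lemma cart_add (i : ℕ) (x y : E⟦X⟧) : cart p k i (x + y) = cart p k i x + cart p k i y := by
  ext n; simp [coeff_cart]

lemma cart_sub (i : ℕ) (x y : E⟦X⟧) : cart p k i (x - y) = cart p k i x - cart p k i y := by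
  ext n; simp [coeff_cart]

lemma cart_zero (i : ℕ) : cart p k i (0 : E⟦X⟧) = 0 := by
  ext n; simp [coeff_cart]

lemma cart_sum {ι : Type*} (i : ℕ) (s : Finset ι) (f : ι → E⟦X⟧) :
    cart p k i (∑ j ∈ s, f j) = ∑ j ∈ s, cart p k i (f j) := by
  classical
  induction s using Finset.induction_on with
  | empty => simp [cart_zero]
  | insert a s ha ih => rw [Finset.sum_insert ha, Finset.sum_insert ha, cart_add, ih]

lemma cart_pow_mul (i : ℕ) (hi : i < p ^ k) (x y : E⟦X⟧) :
    cart p k i (x ^ (p ^ k) * y) = x * cart p k i y := by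
  have hq : 0 < p ^ k := pow_pos (Fact.out : p.Prime).pos _
  ext n
  rw [coeff_cart, PowerSeries.coeff_mul, PowerSeries.coeff_mul, map_sum]
  symm
  apply Finset.sum_of_injOn (fun ab : ℕ × ℕ => (p ^ k * ab.1, p ^ k * ab.2 + i))
  · intro a _ b _ hab
    simp only [Prod.mk.injEq] at hab
    have h1 := Nat.eq_of_mul_eq_mul_left hq hab.1
    have h2 := Nat.eq_of_mul_eq_mul_left hq (Nat.add_right_cancel hab.2)
    exact Prod.ext h1 h2
  · intro ab hab
    simp only [Finset.mem_coe, Finset.HasAntidiagonal.mem_antidiagonal] at hab ⊢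
    rw [← hab]; ring
  · intro ab hab hnot
    rw [Finset.HasAntidiagonal.mem_antidiagonal] at hab
    rw [coeff_pow_q]
    split_ifs with hd
    · exfalso
      apply hnot
      obtain ⟨a', ha'⟩ := hd
      have hle : a' ≤ n := by
        by_contra hcon
        push Not at hcon
        have : p ^ k * (n + 1) ≤ p ^ k * a' := Nat.mul_le_mul_left _ hcon
        rw [mul_add, mul_one] at this
        omega
      refine ⟨(a', n - a'), ?_, ?_⟩
      · simp only [Finset.mem_coe, Finset.HasAntidiagonal.mem_antidiagonal]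
        omega
      · ext
        · exact ha'.symm
        · simp only
          have h3 : p ^ k * (n - a') = p ^ k * n - p ^ k * a' := Nat.mul_sub _ _ _
          have h4 : p ^ k * a' ≤ p ^ k * n := Nat.mul_le_mul_left _ hle
          omega
    · simp
  · intro ab _
    rw [coeff_cart, coeff_pow_q, if_pos (Dvd.intro _ rfl), Nat.mul_div_cancel_left _ hq, map_mul, rt_pow]

/-- degree at most `n` -/
def de (n : ℕ) (x : E⟦X⟧) : Prop := ∀ m, n < m → coeff m x = 0

omit [Finite E] in
lemma de_mono {a b : ℕ} (hab : a ≤ b) {x : E⟦X⟧} (h : de a x) : de b x := fun m hm => h m (by omega)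

omit [Finite E] in
lemma de_add {a : ℕ} {x y : E⟦X⟧} (hx : de a x) (hy : de a y) : de a (x + y) := by
  intro m hm; rw [map_add, hx m hm, hy m hm, add_zero]

omit [Finite E] in
lemma de_sub {a : ℕ} {x y : E⟦X⟧} (hx : de a x) (hy : de a y) : de a (x - y) := by
  intro m hm; rw [map_sub, hx m hm, hy m hm, sub_zero]

omit [Finite E] in
lemma de_neg {a : ℕ} {x : E⟦X⟧} (hx : de a x) : de a (-x) := by
  intro m hm; rw [map_neg, hx m hm, neg_zero]

omit [Finite E] in
lemma de_zero (a : ℕ) : de a (0 : E⟦X⟧) := by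
  intro m hm; simp

omit [Finite E] in
lemma de_C (a : ℕ) (c : E) : de a (PowerSeries.C c) := by
  intro m hm; rw [PowerSeries.coeff_C, if_neg (by omega)]

omit [Finite E] in
lemma de_one (a : ℕ) : de a (1 : E⟦X⟧) := by
  intro m hm; rw [PowerSeries.coeff_one, if_neg (by omega)]

omit [Finite E] in
lemma de_X_pow (a : ℕ) : de a (PowerSeries.X ^ a : E⟦X⟧) := by
  intro m hm; rw [PowerSeries.coeff_X_pow, if_neg (by omega)]

omit [Finite E] in
lemma de_mul {a b : ℕ} {x y : E⟦X⟧} (hx : de a x) (hy : de b y) : de (a + b) (x * y) := by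
  intro m hm
  rw [PowerSeries.coeff_mul]
  apply Finset.sum_eq_zero
  intro ij hij
  rw [Finset.HasAntidiagonal.mem_antidiagonal] at hij
  by_cases h : a < ij.1
  · rw [hx _ h, zero_mul]
  · rw [hy _ (by omega), mul_zero]

omit [Finite E] in
lemma de_pow {a : ℕ} {x : E⟦X⟧} (hx : de a x) (n : ℕ) : de (a * n) (x ^ n) := by
  induction n with
  | zero => rw [pow_zero]; exact de_one _
  | succ n ih => rw [pow_succ, mul_add, mul_one]; exact de_mul ih hx

omit [Finite E] in
lemma de_sum {ι : Type*} {a : ℕ} (s : Finset ι) (f : ι → E⟦X⟧) (h : ∀ i ∈ s, de a (f i)) :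
    de a (∑ i ∈ s, f i) := by
  intro m hm
  rw [map_sum]
  exact Finset.sum_eq_zero (fun i hi => h i hi m hm)

omit [Finite E] in
lemma de_prod {ι : Type*} (s : Finset ι) (a : ι → ℕ) (f : ι → E⟦X⟧) (h : ∀ i ∈ s, de (a i) (f i)) :
    de (∑ i ∈ s, a i) (∏ i ∈ s, f i) := by
  classical
  induction s using Finset.induction_on with
  | empty => simpa using de_one 0
  | insert i s hi ih =>
    rw [Finset.sum_insert hi, Finset.prod_insert hi]
    exact de_mul (h i (Finset.mem_insert_self _ _)) (ih (fun j hj => h j (Finset.mem_insert_of_mem hj)))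

lemma de_cart {a b i : ℕ} (hab : a < p ^ k * (b + 1) + i) {x : E⟦X⟧} (h : de a x) : de b (cart p k i x) := by
  intro m hm
  rw [coeff_cart, h _ ?_, map_zero]
  have : p ^ k * (b + 1) ≤ p ^ k * m := Nat.mul_le_mul_left _ hm
  omega

lemma finite_de (n : ℕ) : {x : E⟦X⟧ | de n x}.Finite := by
  apply Set.Finite.of_finite_image (f := fun x : E⟦X⟧ => fun i : Fin (n + 1) => coeff (i : ℕ) x)
  · exact Set.toFinite _
  · intro x hx y hy hxy
    ext m
    by_cases hm : n < m
    · rw [hx m hm, hy m hm]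
    · exact congrFun hxy ⟨m, by omega⟩

end Pool.Agent.H509R3.Yao
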