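import Mathlib
import Pool.Agent.H509R3.Yao.Cart

set_option autoImplicit false
open PowerSeries

namespace Pool.Agent.H509R3.Yao

variable {E : Type*} [Field E] [Finite E] (p k : ℕ) [Fact p.Prime] [CharP E p]

/-- linear relation among `q`-power iterates -/
def Rel (h : E⟦X⟧) (s n : ℕ) (A : ℕ → E⟦X⟧) : Prop :=
  ∑ i ∈ Finset.range (n + 1), A i * h ^ ((p ^ k) ^ (i + s)) = 0

lemma exists_cart_ne_zero (x : E⟦X⟧) (hx : x ≠ 0) : ∃ c < p ^ k, cart p k c x ≠ 0 := by
  have hq : 0 < p ^ k := pow_pos (Fact.out : p.Prime).pos _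
  obtain ⟨m, hm⟩ : ∃ m, coeff m x ≠ 0 := by
    by_contra hcon
    push Not at hcon
    exact hx (PowerSeries.ext (fun n => by rw [hcon n]; simp))
  refine ⟨m % p ^ k, Nat.mod_lt _ hq, ?_⟩
  intro h0
  have h1 : coeff (m / p ^ k) (cart p k (m % p ^ k) x) = 0 := by rw [h0]; simp
  rw [coeff_cart, Nat.div_add_mod] at h1
  exact hm ((map_eq_zero_iff _ (rt p k).injective).mp h1)

lemma rel_reduce (hk : 0 < k) (h : E⟦X⟧) (s : ℕ) : ∀ (n b : ℕ) (A : ℕ → E⟦X⟧), A 0 ≠ 0 → (∀ i, de b (A i)) →
    Rel p k h s n A → ∃ (n' b' : ℕ) (A' : ℕ → E⟦X⟧), A' 0 ≠ 0 ∧ (∀ i, de b' (A' i)) ∧ Rel p k h 0 n' A' := by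
  induction s with
  | zero => intro n b A h0 hb hr; exact ⟨n, b, A, h0, hb, hr⟩
  | succ s ih =>
    intro n b A h0 hb hr
    obtain ⟨c, hc, hne⟩ := exists_cart_ne_zero p k (A 0) h0
    have hq : 2 ≤ p ^ k := by
      calc 2 ≤ p := (Fact.out : p.Prime).two_le
        _ = p ^ 1 := (pow_one p).symm
        _ ≤ p ^ k := Nat.pow_le_pow_right (Fact.out : p.Prime).pos hk
    refine ih n b (fun i => cart p k c (A i)) hne (fun i => de_cart p k (a := b) (b := b) (i := c) ?_ (hb i)) ?_
    · nlinarith
    · unfold Rel at hr ⊢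
      have h1 : cart p k c (∑ i ∈ Finset.range (n + 1), A i * h ^ ((p ^ k) ^ (i + (s + 1)))) = 0 := by
        rw [hr, cart_zero]
      rw [cart_sum] at h1
      rw [← h1]
      apply Finset.sum_congr rfl
      intro i _
      have : A i * h ^ ((p ^ k) ^ (i + (s + 1))) = (h ^ ((p ^ k) ^ (i + s))) ^ (p ^ k) * A i := by
        rw [← pow_mul h, ← pow_succ (p ^ k), mul_comm]
        rfl
      rw [this, cart_pow_mul p k c hc, mul_comm]

/-- finiteness of the kernel from a linear relation -/
lemma kernel_finite_of_rel (hk : 0 < k) (h : E⟦X⟧) (n b : ℕ) (A : ℕ → E⟦X⟧) (h0 : A 0 ≠ 0)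
    (hb : ∀ i, de b (A i)) (hr : Rel p k h 0 n A) :
    ∃ S : Set (E⟦X⟧), S.Finite ∧ h ∈ S ∧ ∀ x ∈ S, ∀ c < p ^ k, cart p k c x ∈ S := by
  set q := p ^ k with hqdef
  have hq : 2 ≤ q := by
    calc 2 ≤ p := (Fact.out : p.Prime).two_le
      _ = p ^ 1 := (pow_one p).symm
      _ ≤ p ^ k := Nat.pow_le_pow_right (Fact.out : p.Prime).pos hk
  rcases Nat.eq_zero_or_pos n with hn | hn
  · subst hn
    have : h = 0 := by
      unfold Rel at hr
      simp at hr
      exact hr.resolve_left h0
    refine ⟨{0}, Set.finite_singleton _, by simp [this], ?_⟩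
    intro x hx c _
    rw [Set.mem_singleton_iff] at hx ⊢
    rw [hx, cart_zero]
  · set e : ℕ → E⟦X⟧ := fun i => A 0 ^ (q ^ n - q ^ i) * h ^ (q ^ i) with he
    set B : ℕ → E⟦X⟧ := fun i => - (A i * A 0 ^ (q ^ i - 2)) with hB
    have hqi : ∀ i, 1 ≤ i → 2 ≤ q ^ i := by
      intro i hi
      calc 2 ≤ q := hq
        _ = q ^ 1 := (pow_one q).symm
        _ ≤ q ^ i := Nat.pow_le_pow_right (by omega) hi
    have hmono : ∀ i ≤ n, q ^ i ≤ q ^ n := fun i hi => Nat.pow_le_pow_right (by omega) hi
    have hrel : A 0 * h + ∑ i ∈ Finset.range n, A (i + 1) * h ^ (q ^ (i + 1)) = 0 := by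
      unfold Rel at hr
      rw [Finset.sum_range_succ'] at hr
      simp only [add_zero, pow_zero, pow_one] at hr
      rw [add_comm]
      exact hr
    have fact1 : e 0 = ∑ i ∈ Finset.range n, B (i + 1) * e (i + 1) := by
      have h1 : ∀ i ∈ Finset.range n, B (i + 1) * e (i + 1) =
          - (A 0 ^ (q ^ n - 2) * (A (i + 1) * h ^ (q ^ (i + 1)))) := by
        intro i hi
        rw [Finset.mem_range] at hi
        simp only [hB, he]
        have h2 := hqi (i + 1) (by omega)
        have h3 := hmono (i + 1) (by omega)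
        have : A 0 ^ (q ^ n - 2) = A 0 ^ (q ^ (i + 1) - 2) * A 0 ^ (q ^ n - q ^ (i + 1)) := by
          rw [← pow_add]; congr 1; omega
        rw [this]; ring
      rw [Finset.sum_congr rfl h1, Finset.sum_neg_distrib, ← Finset.mul_sum]
      have h2 := hqi n hn
      have h4 : ∑ i ∈ Finset.range n, A (i + 1) * h ^ (q ^ (i + 1)) = - (A 0 * h) := by
        linear_combination hrel
      rw [h4]
      simp only [he, pow_zero, pow_one]
      have : A 0 ^ (q ^ n - 1) = A 0 ^ (q ^ n - 2) * A 0 := by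
        rw [← pow_succ]; congr 1; omega
      rw [this]; ring
    have hbB : ∀ i, i ≤ n → de (b + b * q ^ n) (B i) := by
      intro i hi
      simp only [hB]
      apply de_neg
      apply de_mul (hb i)
      apply de_mono _ (de_pow (hb 0) _)
      apply Nat.mul_le_mul_left
      have := hmono i hi
      omega
    set N := b + b * q ^ n with hN
    set T : Set (Fin (n + 1) → E⟦X⟧) := {C | ∀ i, de N (C i)} with hT
    have hTfin : T.Finite := by
      have : T = Set.pi Set.univ (fun _ => {x : E⟦X⟧ | de N x}) := by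
        ext C; simp [hT, Set.mem_pi]
      rw [this]
      exact Set.Finite.pi (fun _ => finite_de N)
    have hA : A 0 ^ (q ^ n) ≠ 0 := pow_ne_zero _ h0
    refine ⟨⋃ C ∈ T, {x | A 0 ^ (q ^ n) * x = ∑ i : Fin (n + 1), C i * e i}, ?_, ?_, ?_⟩
    · apply Set.Finite.biUnion hTfin
      intro C _
      apply Set.Subsingleton.finite
      intro x hx y hy
      have h1 : A 0 ^ (q ^ n) * x = A 0 ^ (q ^ n) * y := by
        have hx' : A 0 ^ (q ^ n) * x = ∑ i : Fin (n + 1), C i * e i := hx
        have hy' : A 0 ^ (q ^ n) * y = ∑ i : Fin (n + 1), C i * e i := hy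
        rw [hx', hy']
      exact mul_left_cancel₀ hA h1
    · rw [Set.mem_iUnion₂]
      refine ⟨fun i => if i = 0 then A 0 else 0, ?_, ?_⟩
      · intro i
        by_cases hi : i = 0
        · simp only [hi, if_true]; exact de_mono (by omega) (hb 0)
        · simp only [hi, if_false]; exact de_zero _
      · change A 0 ^ (q ^ n) * h = ∑ i : Fin (n + 1), (if i = 0 then A 0 else 0) * e i
        rw [Fin.sum_univ_succ]
        simp only [if_true, Fin.succ_ne_zero, if_false, zero_mul, Finset.sum_const_zero, add_zero]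
        simp only [he, Fin.val_zero, pow_zero, pow_one]
        have h2 := hqi n hn
        rw [← mul_assoc, ← pow_succ']
        congr 2; omega
    · intro x hx c hc
      rw [Set.mem_iUnion₂] at hx ⊢
      obtain ⟨C, hC, hx⟩ := hx
      have hx' : A 0 ^ (q ^ n) * x = ∑ i : Fin (n + 1), C i * e i := hx
      have hC' : ∀ i, de N (C i) := hC
      -- rewrite
      have h1 : A 0 ^ (q ^ n) * x = ∑ i : Fin n, (C 0 * B (i + 1) + C i.succ) * e (i + 1) := by
        rw [hx', Fin.sum_univ_succ]
        simp only [Fin.val_zero, Fin.val_succ]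
        rw [fact1, Finset.mul_sum, Finset.sum_range, ← Finset.sum_add_distrib]
        apply Finset.sum_congr rfl
        intro i _
        ring
      refine ⟨fun i => if hi : (i : ℕ) < n then cart p k c (C 0 * B (i + 1) + C (⟨i, hi⟩ : Fin n).succ) else 0, ?_, ?_⟩
      · intro i
        by_cases hi : (i : ℕ) < n
        · simp only [hi, dif_pos]
          apply de_cart p k (a := N + N) (b := N) _ _
          · rw [← hqdef]; nlinarith
          · apply de_add (de_mul (hC' 0) (hbB _ (by omega))) (de_mono (by omega) (hC' _))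
        · simp only [hi, dif_neg, not_false_eq_true]; exact de_zero _
      · change A 0 ^ (q ^ n) * cart p k c x = ∑ i : Fin (n + 1), (if hi : (i : ℕ) < n then cart p k c (C 0 * B (i + 1) + C (⟨i, hi⟩ : Fin n).succ) else 0) * e i
        rw [← cart_pow_mul p k c hc, ← hqdef]
        have h2 : (A 0 ^ q ^ n) ^ q * x = A 0 ^ (q ^ (n + 1) - q ^ n) * (A 0 ^ (q ^ n) * x) := by
          rw [← mul_assoc, ← pow_add, ← pow_mul]
          congr 2
          have : q ^ n ≤ q ^ (n + 1) := Nat.pow_le_pow_right (by omega) (by omega)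
          rw [pow_succ] at *
          omega
        rw [h2, h1, Finset.mul_sum, cart_sum]
        rw [Fin.sum_univ_castSucc]
        simp only [Fin.val_castSucc, Fin.is_lt, dif_pos, Fin.val_last, lt_irrefl, dif_neg, not_false_eq_true, zero_mul, add_zero]
        apply Finset.sum_congr rfl
        intro i _
        have h3 : A 0 ^ (q ^ (n + 1) - q ^ n) * ((C 0 * B (i + 1) + C i.succ) * e (i + 1)) =
            (e i) ^ (p ^ k) * (C 0 * B (i + 1) + C i.succ) := by
          simp only [he]
          rw [← hqdef, mul_pow, ← pow_mul (A 0), ← pow_mul h]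
          have e1 : q ^ (i : ℕ) * q = q ^ ((i : ℕ) + 1) := (pow_succ _ _).symm
          rw [e1]
          have e2 : (q ^ n - q ^ (i : ℕ)) * q = (q ^ (n + 1) - q ^ n) + (q ^ n - q ^ ((i : ℕ) + 1)) := by
            rw [Nat.sub_mul, ← pow_succ, ← pow_succ]
            have := hmono (i + 1) (by omega)
            have : q ^ n ≤ q ^ (n + 1) := Nat.pow_le_pow_right (by omega) (by omega)
            omega
          rw [e2, pow_add]
          ring
        rw [h3, cart_pow_mul p k c hc]
        ring

end Pool.Agent.H509R3.Yao
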