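import Mathlib
import Pool.Agent.H509R3.Yao.Christol

set_option autoImplicit false
open PowerSeries

namespace Pool.Agent.H509R3.Yao

variable {E : Type*} [Field E]

lemma de_coe (P : Polynomial E) : de P.natDegree (P : E⟦X⟧) := by
  intro m hm
  rw [Polynomial.coeff_coe]
  exact Polynomial.coeff_eq_zero_of_natDegree_lt hm

/-- a family of powers of an algebraic element satisfies a polynomial linear relation -/
lemma exists_rel (h : E⟦X⟧) (halg : IsAlgebraic (Polynomial E) h) (u : ℕ → ℕ) :
    ∃ n : ℕ, ∃ A : ℕ → Polynomial E, (∃ i ≤ n, A i ≠ 0) ∧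
      ∑ i ∈ Finset.range (n + 1), (A i : E⟦X⟧) * h ^ (u i) = 0 := by
  classical
  let R := Polynomial E
  let S := E⟦X⟧
  let K := FractionRing R
  let L := FractionRing S
  have hinj : Function.Injective (algebraMap R S) := Polynomial.coe_injective E
  have hinjL : Function.Injective (algebraMap S L) := IsFractionRing.injective S L
  have : FaithfulSMul R L := by
    rw [faithfulSMul_iff_algebraMap_injective, IsScalarTower.algebraMap_eq R S L]
    exact hinjL.comp hinj
  let _ : Algebra K L := FractionRing.liftAlgebra R L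
  have : IsScalarTower R K L := FractionRing.isScalarTower_liftAlgebra R L
  set h' : L := algebraMap S L h with hh'
  have h1 : IsAlgebraic R h' := halg.algebraMap
  have h2 : IsAlgebraic K h' := (IsFractionRing.isAlgebraic_iff R K L).mp h1
  have h3 : IsIntegral K h' := h2.isIntegral
  have hfin : Module.Finite K (Algebra.adjoin K {h'}) := Module.Finite.iff_fg.mpr h3.fg_adjoin_singleton
  set n := Module.finrank K (Algebra.adjoin K {h'}) with hn
  let w : Fin (n + 1) → Algebra.adjoin K {h'} := fun i => ⟨h', Algebra.self_mem_adjoin_singleton K h'⟩ ^ (u i)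
  have hdep : ¬ LinearIndependent K w := by
    intro hli
    have := hli.fintype_card_le_finrank
    rw [Fintype.card_fin, ← hn] at this
    omega
  rw [Fintype.not_linearIndependent_iff] at hdep
  obtain ⟨g, hg, i0, hi0⟩ := hdep
  obtain ⟨b, hb⟩ := IsLocalization.exist_integer_multiples_of_finite (nonZeroDivisors R) g
  choose A0 hA0 using hb
  refine ⟨n, fun i => if hi : i < n + 1 then A0 ⟨i, hi⟩ else 0, ⟨i0, by omega, ?_⟩, ?_⟩
  · simp only [i0.2, dif_pos]
    intro hz
    have h4 := hA0 i0
    simp only [Fin.eta] at hz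
    rw [hz, map_zero] at h4
    have hb0 : algebraMap R K (b : R) ≠ 0 := by
      intro h5
      exact nonZeroDivisors.coe_ne_zero b ((IsFractionRing.injective R K) (by rw [h5, map_zero]))
    have h6 : algebraMap R K (b : R) * g i0 = 0 := by
      rw [← Algebra.smul_def]; exact h4.symm
    exact hi0 ((mul_eq_zero.mp h6).resolve_left hb0)
  · apply hinjL
    rw [map_sum, map_zero, Finset.sum_range]
    have h5 : ∑ i : Fin (n + 1), g i • (h' ^ (u i)) = 0 := by
      have := congrArg (Subtype.val) hg
      simpa [w] using this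
    have h6 : ∀ i : Fin (n + 1), algebraMap S L (((if hi : (i : ℕ) < n + 1 then A0 ⟨i, hi⟩ else 0 : R) : S) * h ^ (u i)) =
        (algebraMap R L (b : R)) * (g i • (h' ^ (u i))) := by
      intro i
      simp only [i.2, dif_pos, Fin.eta]
      rw [map_mul, map_pow, ← hh']
      have h7 : algebraMap S L ((A0 i : R) : S) = algebraMap R L (A0 i) := by
        rw [IsScalarTower.algebraMap_apply R S L]; rfl
      rw [h7, IsScalarTower.algebraMap_apply R K L (A0 i), hA0 i, Algebra.smul_def, map_mul,
        ← IsScalarTower.algebraMap_apply R K L, Algebra.smul_def]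
      ring
    rw [Finset.sum_congr rfl (fun i _ => h6 i), ← Finset.mul_sum, h5, mul_zero]

variable [Finite E] (p k : ℕ) [Fact p.Prime] [CharP E p]

/-- Christol's theorem (easy half): an algebraic power series over a finite field has a finite Cartier kernel -/
theorem kernel_finite (hk : 0 < k) (h : E⟦X⟧) (halg : IsAlgebraic (Polynomial E) h) :
    ∃ S : Set (E⟦X⟧), S.Finite ∧ h ∈ S ∧ ∀ x ∈ S, ∀ c < p ^ k, cart p k c x ∈ S := by
  classical
  obtain ⟨n, A, hne, hrel⟩ := exists_rel h halg (fun i => (p ^ k) ^ i)
  -- least index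
  have hex : ∃ i, i ≤ n ∧ A i ≠ 0 := by obtain ⟨i, hi, hA⟩ := hne; exact ⟨i, hi, hA⟩
  set s := Nat.find hex with hs
  obtain ⟨hsn, hAs⟩ := Nat.find_spec hex
  have hlt : ∀ i < s, A i = 0 := by
    intro i hi
    have := Nat.find_min hex hi
    push Not at this
    exact this (by omega)
  obtain ⟨b, hb⟩ : ∃ b, ∀ i ≤ n, (A i).natDegree ≤ b :=
    ⟨∑ i ∈ Finset.range (n + 1), (A i).natDegree, fun i hi =>
      Finset.single_le_sum (f := fun i => (A i).natDegree) (fun _ _ => Nat.zero_le _) (Finset.mem_range.mpr (by omega))⟩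
  have hrel2 : Rel p k h s (n - s) (fun i => if i + s ≤ n then (A (i + s) : E⟦X⟧) else 0) := by
    unfold Rel
    have e1 : n + 1 = s + (n - s + 1) := by omega
    rw [e1, Finset.sum_range_add] at hrel
    have e2 : ∑ i ∈ Finset.range s, (A i : E⟦X⟧) * h ^ ((p ^ k) ^ i) = 0 := by
      apply Finset.sum_eq_zero
      intro i hi
      rw [hlt i (Finset.mem_range.mp hi)]
      simp
    rw [e2, zero_add] at hrel
    refine Eq.trans ?_ hrel
    apply Finset.sum_congr rfl
    intro i hi
    rw [Finset.mem_range] at hi
    have hi' : i + s ≤ n := by omega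
    simp only [hi', if_true]
    rw [add_comm i s]
  obtain ⟨n', b', A', h1, h2, h3⟩ := rel_reduce p k hk h s (n - s) b _ (by
    simp only [zero_add]
    rw [if_pos hsn]
    intro hz
    exact hAs (Polynomial.coe_injective E (by rw [hz]; simp))) (by
    intro i
    split_ifs with hi
    · exact de_mono (hb _ hi) (de_coe _)
    · exact de_zero _) hrel2
  exact kernel_finite_of_rel p k hk h n' b' A' h1 h2 h3

end Pool.Agent.H509R3.Yao
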