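import Mathlib

set_option autoImplicit false
open Polynomial

namespace Pool.Agent.H509R3.Yao

variable {F : Type*} [Field F] [Fintype F]

/-- the polynomial with coefficient vector `a` -/
noncomputable def vecPoly (j : ℕ) (a : Fin j → F) : F[X] := ∑ i : Fin j, C (a i) * X ^ (i : ℕ)

/-- the Carlitz linear polynomial -/
noncomputable def ee (j : ℕ) (y : F[X]) : F[X] := ∏ a : Fin j → F, (y + vecPoly j a)

noncomputable def DD (j : ℕ) : F[X] := ee (F := F) j (X ^ j)

lemma ee_zero (y : F[X]) : ee 0 y = y := by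
  simp [ee, vecPoly]

lemma ee_succ_prod (j : ℕ) (y : F[X]) : ee (j + 1) y = ∏ c : F, ee j (y + C c * X ^ j) := by
  classical
  unfold ee
  rw [← Fintype.prod_prod_type']
  apply Fintype.prod_equiv (Fin.snocEquiv (fun _ : Fin (j + 1) => F)).symm
  intro a
  have : vecPoly (j + 1) a = C (a (Fin.last j)) * X ^ j + vecPoly j (fun i => a i.castSucc) := by
    unfold vecPoly
    rw [Fin.sum_univ_castSucc]
    simp only [Fin.val_castSucc, Fin.val_last]
    ring
  rw [this]
  simp only [Fin.snocEquiv, Equiv.coe_fn_symm_mk]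
  rw [add_assoc]
  rfl

lemma X_pow_sub_X_eq : (X ^ (Fintype.card F) - X : F[X]) = ∏ c : F, (X - C c) := by
  classical
  have hq2 : 1 < Fintype.card F := Fintype.one_lt_card
  have hmonic : (X ^ (Fintype.card F) - X : F[X]).Monic := by
    apply monic_X_pow_sub
    rw [degree_X]
    exact_mod_cast hq2
  have h := prod_multiset_X_sub_C_of_monic_of_roots_card_eq hmonic (by
    rw [FiniteField.roots_X_pow_card_sub_X, FiniteField.X_pow_card_sub_X_natDegree_eq F hq2]
    rfl)
  rw [FiniteField.roots_X_pow_card_sub_X] at h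
  rw [← h]
  rfl

/-- homogeneous form of `X ^ q - X = ∏ (X - c)` -/
lemma prod_lin (Y D : F[X]) : ∏ c : F, (Y + C c * D) = Y ^ (Fintype.card F) - D ^ (Fintype.card F - 1) * Y := by
  classical
  set q := Fintype.card F with hq
  have hq2 : 2 ≤ q := Fintype.one_lt_card
  by_cases hD : D = 0
  · subst hD
    rw [zero_pow (by omega)]
    simp [hq]
  · -- pass to the fraction field
    have hinj : Function.Injective (algebraMap F[X] (RatFunc F)) := IsFractionRing.injective _ _
    apply hinj
    set φ := algebraMap F[X] (RatFunc F)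
    have hD' : φ D ≠ 0 := by
      intro h; exact hD (hinj (by rw [h, map_zero]))
    have h1 : (X ^ q - X : (RatFunc F)[X]) = ∏ c : F, (X - C (φ (C c))) := by
      have h3 : (X ^ q - X : F[X]) = ∏ c : F, (X - C c) := X_pow_sub_X_eq
      have h4 := congrArg (Polynomial.map (φ.comp C)) h3
      rw [Polynomial.map_sub, Polynomial.map_pow, Polynomial.map_X, Polynomial.map_prod] at h4
      rw [h4]
      apply Finset.prod_congr rfl
      intro c _
      simp
    have h5 := congrArg (Polynomial.eval (-(φ Y) / (φ D))) h1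
    rw [Polynomial.eval_prod] at h5
    simp only [eval_sub, eval_pow, eval_X, eval_C] at h5
    have h6 : ∀ c : F, -(φ Y) / (φ D) - φ (C c) = -(φ (Y + C c * D)) / φ D := by
      intro c
      rw [map_add, map_mul]; field_simp; ring
    rw [Finset.prod_congr rfl (fun c _ => h6 c), Finset.prod_div_distrib, Finset.prod_neg, Finset.prod_const, Finset.card_univ, ← hq] at h5
    rw [map_prod, map_sub, map_pow, map_mul, map_pow]
    have hsign : ((-1 : RatFunc F)) ^ q = -1 := by
      have h7 : (-1 : F) ^ q = -1 := FiniteField.pow_card _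
      have := congrArg (fun x => φ (C x)) h7
      simpa using this
    have h8 : (-(φ Y) / φ D) ^ q = -((φ Y) ^ q / (φ D) ^ q) := by
      rw [div_pow, neg_pow, hsign]; ring
    rw [h8, hsign] at h5
    have h9 : (φ D) ^ q = (φ D) ^ (q - 1) * φ D := by rw [← pow_succ]; congr 1; omega
    have hDq : (φ D) ^ (q - 1) ≠ 0 := pow_ne_zero _ hD'
    rw [h9] at h5
    field_simp at h5
    linear_combination h5

variable (p : ℕ) [Fact p.Prime] [CharP F p]

lemma card_eq_pow : ∃ k : ℕ, 0 < k ∧ Fintype.card F = p ^ k := by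
  obtain ⟨n, _, hn⟩ := FiniteField.card F p
  exact ⟨n, n.pos, hn⟩

include p in
lemma poly_frob (x y : F[X]) (j : ℕ) : (x + y) ^ (Fintype.card F ^ j) = x ^ (Fintype.card F ^ j) + y ^ (Fintype.card F ^ j) := by
  obtain ⟨k, _, hk⟩ := card_eq_pow (F := F) p
  rw [hk, ← pow_mul]
  exact add_pow_char_pow x y p (k * j)

include p in
lemma poly_frob1 (x y : F[X]) : (x + y) ^ (Fintype.card F) = x ^ (Fintype.card F) + y ^ (Fintype.card F) := by
  have := poly_frob p x y 1
  simpa using this

include p in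
lemma poly_frob_sub (x y : F[X]) (j : ℕ) : (x - y) ^ (Fintype.card F ^ j) = x ^ (Fintype.card F ^ j) - y ^ (Fintype.card F ^ j) := by
  obtain ⟨k, _, hk⟩ := card_eq_pow (F := F) p
  rw [hk, ← pow_mul]
  exact sub_pow_char_pow x y (k * j)

include p in
lemma ee_lin (j : ℕ) : (∀ y z : F[X], ee j (y + z) = ee j y + ee j z) ∧ (∀ (c : F) (y : F[X]), ee j (C c * y) = C c * ee j y) ∧
    (∀ y : F[X], ee (j + 1) y = (ee j y) ^ (Fintype.card F) - (DD j) ^ (Fintype.card F - 1) * ee j y) := by
  induction j with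
  | zero =>
    refine ⟨fun y z => by simp [ee_zero], fun c y => by simp [ee_zero], fun y => ?_⟩
    rw [ee_succ_prod]
    simp only [ee_zero, pow_zero, mul_one]
    have := prod_lin y (1 : F[X])
    simp only [mul_one, one_pow, one_mul] at this
    rw [this]
    simp [DD, ee_zero]
  | succ j ih =>
    obtain ⟨h1, h2, h3⟩ := ih
    have hA : ∀ y z : F[X], ee (j + 1) (y + z) = ee (j + 1) y + ee (j + 1) z := by
      intro y z
      rw [h3, h3 y, h3 z, h1, poly_frob1 p]
      ring
    have hB : ∀ (c : F) (y : F[X]), ee (j + 1) (C c * y) = C c * ee (j + 1) y := by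
      intro c y
      rw [h3, h3 y, h2, mul_pow, ← C_pow, FiniteField.pow_card]
      ring
    refine ⟨hA, hB, fun y => ?_⟩
    rw [ee_succ_prod]
    have : ∀ c : F, ee (j + 1) (y + C c * X ^ (j + 1)) = ee (j + 1) y + C c * DD (j + 1) := by
      intro c; rw [hA, hB]; rfl
    rw [Finset.prod_congr rfl (fun c _ => this c), prod_lin]

/-- `[j] = X ^ (q ^ j) - X` -/
noncomputable def br (j : ℕ) : F[X] := X ^ (Fintype.card F ^ j) - X

lemma ee_vanish (j i : ℕ) (hij : i < j) : ee (F := F) j (X ^ i) = 0 := by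
  classical
  unfold ee
  apply Finset.prod_eq_zero (i := fun i' : Fin j => if (i' : ℕ) = i then (-1 : F) else 0) (Finset.mem_univ _)
  unfold vecPoly
  rw [Finset.sum_eq_single ⟨i, hij⟩]
  · simp
  · intro b _ hb
    have : (b : ℕ) ≠ i := fun h => hb (Fin.ext h)
    simp [this]
  · intro h; exact absurd (Finset.mem_univ _) h

include p in
lemma carlitz (j : ℕ) : (∀ y : F[X], ee (j + 1) (X * y) = X * ee (j + 1) y + br (j + 1) * (ee j y) ^ (Fintype.card F)) ∧
    DD (F := F) (j + 1) = br (j + 1) * (DD j) ^ (Fintype.card F) := by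
  have hq2 : 2 ≤ Fintype.card F := Fintype.one_lt_card
  have second : ∀ j : ℕ, (∀ y : F[X], ee (j + 1) (X * y) = X * ee (j + 1) y + br (j + 1) * (ee j y) ^ (Fintype.card F)) →
      DD (F := F) (j + 1) = br (j + 1) * (DD j) ^ (Fintype.card F) := by
    intro j h
    have := h (X ^ j)
    rw [ee_vanish (j + 1) j (by omega), mul_zero, zero_add] at this
    unfold DD
    rw [pow_succ', this]
  induction j with
  | zero =>
    have h : ∀ y : F[X], ee (0 + 1) (X * y) = X * ee (0 + 1) y + br (0 + 1) * (ee 0 y) ^ (Fintype.card F) := by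
      intro y
      rw [(ee_lin p 0).2.2, (ee_lin p 0).2.2]
      simp only [ee_zero, DD, pow_zero, one_pow, one_mul, br, zero_add, pow_one]
      ring
    exact ⟨h, second 0 h⟩
  | succ j ih =>
    obtain ⟨h1, h2⟩ := ih
    have h : ∀ y : F[X], ee (j + 1 + 1) (X * y) = X * ee (j + 1 + 1) y + br (j + 1 + 1) * (ee (j + 1) y) ^ (Fintype.card F) := by
      intro y
      rw [(ee_lin p (j + 1)).2.2, (ee_lin p (j + 1)).2.2 y, h1, h2]
      set q := Fintype.card F with hq
      set Y := ee j y with hY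
      have h3 : ee (j + 1) y = Y ^ q - (DD j) ^ (q - 1) * Y := (ee_lin p j).2.2 y
      rw [poly_frob1 p]
      have h4 : (br (j + 1) : F[X]) ^ q = X ^ (q ^ (j + 2)) - X ^ q := by
        unfold br
        have := poly_frob_sub p (X ^ (q ^ (j + 1)) : F[X]) X 1
        rw [pow_one] at this
        rw [this, ← pow_mul, ← pow_succ]
      have h5 : (ee (j + 1) y) ^ q = (Y ^ q) ^ q - (DD j) ^ (q * (q - 1)) * Y ^ q := by
        rw [h3]
        have := poly_frob_sub p (Y ^ q) ((DD j) ^ (q - 1) * Y) 1
        rw [pow_one] at this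
        rw [this, mul_pow, ← pow_mul (DD j), mul_comm (q - 1) q]
      have h6 : (br (j + 1 + 1) : F[X]) = X ^ (q ^ (j + 2)) - X := rfl
      have h7 : (br (j + 1) * (DD j) ^ q : F[X]) ^ (q - 1) * (br (j + 1) * Y ^ q) =
          (br (j + 1)) ^ q * (DD j) ^ (q * (q - 1)) * Y ^ q := by
        have e1 : (br (j + 1) : F[X]) ^ q = (br (j + 1)) ^ (q - 1) * br (j + 1) := by
          rw [← pow_succ]; congr 1; omega
        rw [e1, mul_pow, ← pow_mul]
        ring
      have h8 : (X * ee (j + 1) y) ^ q = X ^ q * (ee (j + 1) y) ^ q := mul_pow _ _ _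
      have h9 : (br (j + 1) * Y ^ q : F[X]) ^ q = (br (j + 1)) ^ q * (Y ^ q) ^ q := mul_pow _ _ _
      rw [h8, h9, h6]
      rw [mul_add, h7, h4]
      rw [h5]
      ring
    exact ⟨h, second (j + 1) h⟩

/-! ### monic polynomials -/

/-- the set of monic polynomials of degree `j` -/
noncomputable def Mon (j : ℕ) : Finset F[X] := by
  classical
  exact (Finset.univ : Finset (Fin j → F)).image (fun a => X ^ j + vecPoly j a)

lemma vecPoly_coeff (j : ℕ) (a : Fin j → F) (i : ℕ) : (vecPoly j a).coeff i = if h : i < j then a ⟨i, h⟩ else 0 := by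
  unfold vecPoly
  rw [finsetSum_coeff]
  split_ifs with h
  · rw [Finset.sum_eq_single ⟨i, h⟩]
    · simp
    · intro b _ hb
      rw [coeff_C_mul, coeff_X_pow, if_neg (fun h2 => hb (Fin.ext h2.symm)), mul_zero]
    · intro h2; exact absurd (Finset.mem_univ _) h2
  · apply Finset.sum_eq_zero
    intro b _
    rw [coeff_C_mul, coeff_X_pow, if_neg (by have := b.2; omega), mul_zero]

lemma vecPoly_degree (j : ℕ) (a : Fin j → F) : (vecPoly j a).degree < j := by
  rw [degree_lt_iff_coeff_zero]
  intro m hm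
  rw [vecPoly_coeff, dif_neg (by omega)]

lemma vecPoly_inj (j : ℕ) : Function.Injective (fun a : Fin j → F => X ^ j + vecPoly j a) := by
  intro a b hab
  have h : vecPoly j a = vecPoly j b := add_left_cancel hab
  ext i
  have h1 := congrArg (fun P => P.coeff (i : ℕ)) h
  simp only [vecPoly_coeff, i.2, dif_pos, Fin.eta] at h1
  exact h1

lemma mem_Mon (j : ℕ) (P : F[X]) : P ∈ Mon j ↔ P.Monic ∧ P.natDegree = j := by
  classical
  unfold Mon
  rw [Finset.mem_image]
  constructor
  · rintro ⟨a, _, rfl⟩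
    have h1 := vecPoly_degree j a
    refine ⟨monic_X_pow_add h1, ?_⟩
    apply natDegree_eq_of_degree_eq_some
    rw [degree_add_eq_left_of_degree_lt (by rw [degree_X_pow]; exact h1), degree_X_pow]
  · rintro ⟨h1, h2⟩
    refine ⟨fun i => P.coeff i, Finset.mem_univ _, ?_⟩
    ext i
    rw [coeff_add, coeff_X_pow, vecPoly_coeff]
    rcases lt_trichotomy i j with h | h | h
    · rw [if_neg (by omega), dif_pos h, zero_add]
    · rw [if_pos h, dif_neg (by omega), add_zero, h, ← h2]; exact h1.coeff_natDegree.symm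
    · rw [if_neg (by omega), dif_neg (by omega), add_zero, coeff_eq_zero_of_natDegree_lt (by omega)]

lemma card_Mon (j : ℕ) : (Mon j : Finset F[X]).card = Fintype.card F ^ j := by
  classical
  unfold Mon
  rw [Finset.card_image_of_injective _ (vecPoly_inj j)]
  simp

lemma prod_Mon (j : ℕ) : ∏ P ∈ (Mon j : Finset F[X]), P = DD j := by
  classical
  unfold Mon DD ee
  rw [Finset.prod_image (fun a _ b _ h => vecPoly_inj j h)]

open Classical in
/-- product of all monic polynomials of degree `j` not divisible by `v` -/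
noncomputable def Dv (v : F[X]) (j : ℕ) : F[X] := ∏ P ∈ (Mon j).filter (fun P => ¬ v ∣ P), P

lemma Dv_lt (v : F[X]) (j : ℕ) (hj : j < v.natDegree) : Dv v j = DD j := by
  classical
  unfold Dv
  rw [← prod_Mon, Finset.filter_true_of_mem]
  intro P hP hd
  rw [mem_Mon] at hP
  have := natDegree_le_of_dvd hd hP.1.ne_zero
  omega

lemma Dv_mul (v : F[X]) (hv : v.Monic) (j : ℕ) :
    Dv v (j + v.natDegree) * v ^ (Fintype.card F ^ j) * DD j = DD (j + v.natDegree) := by
  classical
  rw [← prod_Mon (j + v.natDegree), ← Finset.prod_filter_mul_prod_filter_not (Mon (j + v.natDegree)) (fun P => v ∣ P)]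
  have h1 : (Mon (j + v.natDegree)).filter (fun P => v ∣ P) = (Mon j).image (fun P => v * P) := by
    ext P
    rw [Finset.mem_filter, Finset.mem_image, mem_Mon]
    constructor
    · rintro ⟨⟨h1, h2⟩, Q, rfl⟩
      have hQ : Q.Monic := hv.of_mul_monic_left h1
      refine ⟨Q, ?_, rfl⟩
      rw [mem_Mon]
      refine ⟨hQ, ?_⟩
      rw [hv.natDegree_mul hQ] at h2
      omega
    · rintro ⟨Q, hQ, rfl⟩
      rw [mem_Mon] at hQ
      refine ⟨⟨hv.mul hQ.1, ?_⟩, dvd_mul_right _ _⟩
      rw [hv.natDegree_mul hQ.1, hQ.2]; ring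
  rw [h1, Finset.prod_image (fun a _ b _ h => mul_left_cancel₀ hv.ne_zero h), Finset.prod_mul_distrib, Finset.prod_const,
    card_Mon, prod_Mon]
  unfold Dv
  ring

end Pool.Agent.H509R3.Yao
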