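import Mathlib
import Pool.Agent.H509R3.Yao.Cart

set_option autoImplicit false
open PowerSeries

namespace Pool.Agent.H509R3.Yao

variable {E : Type*} [Field E]

/-- top coefficient of a product -/
lemma coeff_mul_top {a b : ℕ} {x y : E⟦X⟧} (hx : de a x) (hy : de b y) :
    coeff (a + b) (x * y) = coeff a x * coeff b y := by
  rw [PowerSeries.coeff_mul]
  rw [Finset.sum_eq_single (a, b)]
  · intro ij hij hne
    rw [Finset.HasAntidiagonal.mem_antidiagonal] at hij
    by_cases h : a < ij.1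
    · rw [hx _ h, zero_mul]
    · have : ij.1 ≠ a := by
        intro h1
        apply hne
        ext
        · exact h1
        · simp only; omega
      rw [hy _ (by omega), mul_zero]
  · intro h
    exfalso; apply h
    rw [Finset.HasAntidiagonal.mem_antidiagonal]

lemma coeff_prod_top {ι : Type*} (s : Finset ι) (a : ι → ℕ) (f : ι → E⟦X⟧) (h : ∀ i ∈ s, de (a i) (f i)) :
    coeff (∑ i ∈ s, a i) (∏ i ∈ s, f i) = ∏ i ∈ s, coeff (a i) (f i) := by
  classical
  induction s using Finset.induction_on with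
  | empty => simp
  | insert i s hi ih =>
    rw [Finset.sum_insert hi, Finset.prod_insert hi, Finset.prod_insert hi,
      coeff_mul_top (h i (Finset.mem_insert_self _ _)) (de_prod s a f (fun j hj => h j (Finset.mem_insert_of_mem hj))),
      ih (fun j hj => h j (Finset.mem_insert_of_mem hj))]

variable (q : ℕ) (ω : E)

def aa (j : ℕ) : E := ω ^ (q ^ j) - ω
noncomputable def uu (j : ℕ) : E⟦X⟧ := PowerSeries.C (aa q ω j) - PowerSeries.X
noncomputable def ww (j : ℕ) : E⟦X⟧ := uu q ω j + PowerSeries.X ^ (q ^ j)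

lemma aa_add (d : ℕ) (hω : ω ^ (q ^ d) = ω) (j : ℕ) : aa q ω (j + d) = aa q ω j := by
  unfold aa
  rw [pow_add, mul_comm, pow_mul, hω]

lemma aa_mod (d : ℕ) (hω : ω ^ (q ^ d) = ω) (j : ℕ) : aa q ω j = aa q ω (j % d) := by
  have h : ∀ n r, aa q ω (r + n * d) = aa q ω r := by
    intro n
    induction n with
    | zero => intro r; simp
    | succ n ih =>
      intro r
      have : r + (n + 1) * d = (r + n * d) + d := by ring
      rw [this, aa_add q ω d hω, ih]
  conv_lhs => rw [← Nat.mod_add_div j d, mul_comm]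
  exact h _ _

lemma de_uu (j : ℕ) : de 1 (uu q ω j) := by
  unfold uu
  exact de_sub (de_C _ _) (by simpa using de_X_pow (E := E) 1)

lemma coeff_uu (j : ℕ) : coeff 1 (uu q ω j) = -1 := by
  unfold uu
  rw [map_sub, PowerSeries.coeff_C, PowerSeries.coeff_X]
  simp

lemma uu_ne (j : ℕ) : uu q ω j ≠ 0 := by
  intro h
  have := coeff_uu q ω j
  rw [h] at this
  simp at this

lemma de_ww (hq : 2 ≤ q) (j : ℕ) : de (q ^ j) (ww q ω j) := by
  unfold ww
  exact de_add (de_mono (Nat.one_le_pow _ _ (by omega)) (de_uu q ω j)) (de_X_pow _)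

lemma coeff_ww (hq : 2 ≤ q) (j : ℕ) (hj : 1 ≤ j) : coeff (q ^ j) (ww q ω j) = 1 := by
  unfold ww
  have h2 : 2 ≤ q ^ j := by
    calc 2 ≤ q := hq
      _ = q ^ 1 := (pow_one q).symm
      _ ≤ q ^ j := Nat.pow_le_pow_right (by omega) hj
  rw [map_add, de_uu q ω j _ (by omega), PowerSeries.coeff_X_pow, if_pos rfl, zero_add]

/-- the cofactor of `uu j` in the product over all residues -/
noncomputable def Uc (d j : ℕ) : E⟦X⟧ := ∏ r ∈ (Finset.range d).erase (j % d), uu q ω r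
noncomputable def UU (d : ℕ) : E⟦X⟧ := ∏ r ∈ Finset.range d, uu q ω r

lemma UU_eq (d : ℕ) (hd : 0 < d) (hω : ω ^ (q ^ d) = ω) (j : ℕ) : UU q ω d = uu q ω j * Uc q ω d j := by
  unfold UU Uc
  rw [← Finset.mul_prod_erase (Finset.range d) (uu q ω) (Finset.mem_range.mpr (Nat.mod_lt j hd))]
  congr 1
  unfold uu
  rw [← aa_mod q ω d hω j]

lemma de_Uc (d : ℕ) (hd : 0 < d) (j : ℕ) : de (d - 1) (Uc q ω d j) := by
  have h := de_prod ((Finset.range d).erase (j % d)) (fun _ => 1) (uu q ω) (fun i _ => de_uu q ω i)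
  simp only [Finset.sum_const, smul_eq_mul, mul_one] at h
  rw [Finset.card_erase_of_mem (Finset.mem_range.mpr (Nat.mod_lt j hd)), Finset.card_range] at h
  exact h

lemma coeff_Uc (d : ℕ) (hd : 0 < d) (j : ℕ) : coeff (d - 1) (Uc q ω d j) = (-1) ^ (d - 1) := by
  have h := coeff_prod_top ((Finset.range d).erase (j % d)) (fun _ => 1) (uu q ω) (fun i _ => de_uu q ω i)
  simp only [Finset.sum_const, smul_eq_mul, mul_one] at h
  rw [Finset.card_erase_of_mem (Finset.mem_range.mpr (Nat.mod_lt j hd)), Finset.card_range] at h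
  unfold Uc
  rw [h]
  simp only [coeff_uu, Finset.prod_const]
  rw [Finset.card_erase_of_mem (Finset.mem_range.mpr (Nat.mod_lt j hd)), Finset.card_range]

/-- `VV j = UU ^ 2 / uu j` -/
noncomputable def VV (d j : ℕ) : E⟦X⟧ := uu q ω j * (Uc q ω d j) ^ 2

lemma de_VV (d : ℕ) (hd : 0 < d) (j : ℕ) : de (2 * d - 1) (VV q ω d j) := by
  unfold VV
  have := de_mul (de_uu q ω j) (de_pow (de_Uc q ω d hd j) 2)
  exact de_mono (by omega) this

lemma coeff_VV (d : ℕ) (hd : 0 < d) (j : ℕ) : coeff (2 * d - 1) (VV q ω d j) = -1 := by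
  have h1 : 2 * d - 1 = 1 + ((d - 1) + (d - 1)) := by omega
  unfold VV
  rw [h1, coeff_mul_top (de_uu q ω j) (by
    have := de_pow (de_Uc q ω d hd j) 2
    exact de_mono (by omega) this), sq, coeff_mul_top (de_Uc q ω d hd j) (de_Uc q ω d hd j), coeff_uu, coeff_Uc q ω d hd]
  rw [← pow_add]
  have : (-1 : E) ^ (d - 1 + (d - 1)) = 1 := by
    rw [← two_mul, pow_mul]; simp
  rw [this, mul_one]

lemma coeff_X_pow_dvd {n m : ℕ} (hnm : m < n) {x : E⟦X⟧} (h : (PowerSeries.X : E⟦X⟧) ^ n ∣ x) : coeff m x = 0 :=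
  (PowerSeries.X_pow_dvd_iff.mp h) m hnm

lemma eq_zero_of_de_dvd {n m : ℕ} (hnm : m < n) {x : E⟦X⟧} (h : (PowerSeries.X : E⟦X⟧) ^ n ∣ x) (hx : de m x) : x = 0 := by
  ext i
  by_cases hi : i < n
  · rw [coeff_X_pow_dvd hi h]; simp
  · rw [hx i (by omega)]; simp

/-- decomposition of the high terms -/
lemma high (hq : 2 ≤ q) (d : ℕ) (hd : 0 < d) (hω : ω ^ (q ^ d) = ω) (M D i0 : ℕ) (hi1 : 1 ≤ i0) (hiD : i0 < D)
    (hi2 : 2 * d ≤ q ^ i0) (hDM : D ≤ M) (i : ℕ) (y : E⟦X⟧)
    (hy : ww q ω (M + 1 + i) * y = PowerSeries.X ^ (q ^ (i + D)) - PowerSeries.X ^ (q ^ i)) :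
    ∃ α β : E⟦X⟧, (UU q ω d) ^ 2 * y = α + β ∧ de (q ^ (M + 1) + q ^ D + 2 * d) α ∧
      (PowerSeries.X : E⟦X⟧) ^ (2 * q ^ (M + 1)) ∣ β ∧
      coeff (q ^ i0 + (2 * d - 1)) α = if i = i0 then 1 else 0 := by
  set j := M + 1 + i with hj
  set Q : E⟦X⟧ := PowerSeries.X ^ (q ^ (i + D)) - PowerSeries.X ^ (q ^ i) with hQ
  set Z : E⟦X⟧ := PowerSeries.X ^ (q ^ j) with hZ
  set V' : E⟦X⟧ := (Uc q ω d j) ^ 2 with hV'
  have hV'de : de (2 * d - 2) V' := de_mono (by omega) (de_pow (de_Uc q ω d hd j) 2)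
  have hB1 : 1 ≤ q ^ (M + 1) := Nat.one_le_pow _ _ (by omega)
  have key : (UU q ω d) ^ 2 * y = VV q ω d j * Q - V' * Z * Q + V' * Z ^ 2 * y := by
    rw [UU_eq q ω d hd hω j, VV, ← hV']
    have h1 : uu q ω j * y = Q - Z * y := by
      have : ww q ω j * y = uu q ω j * y + Z * y := by unfold ww; rw [add_mul]
      rw [this] at hy
      linear_combination hy
    have h2 : (uu q ω j * Uc q ω d j) ^ 2 * y = uu q ω j * V' * (uu q ω j * y) := by rw [hV']; ring
    rw [h2, h1]
    have h3 : uu q ω j * V' * (Q - Z * y) = uu q ω j * V' * Q - V' * Z * (uu q ω j * y) := by ring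
    rw [h3, h1]
    ring
  have hmul : ∀ a b : ℕ, a < b → 2 * q ^ a ≤ q ^ b := by
    intro a b hab
    calc 2 * q ^ a ≤ q * q ^ a := Nat.mul_le_mul_right _ hq
      _ = q ^ (a + 1) := (pow_succ' q a).symm
      _ ≤ q ^ b := Nat.pow_le_pow_right (by omega) hab
  have hlow : ∀ a b : ℕ, a ≤ b → q ^ a ≤ q ^ b := fun a b hab => Nat.pow_le_pow_right (by omega) hab
  have hx0 : q ^ i0 + (2 * d - 1) < q ^ (M + 1) := by
    have h1 := hmul i0 (M + 1) (by omega)
    omega
  -- coefficients of the main term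
  have hcV : ∀ a : ℕ, coeff (q ^ i0 + (2 * d - 1)) (VV q ω d j * PowerSeries.X ^ (q ^ a)) = if a = i0 then -1 else 0 := by
    intro a
    rw [PowerSeries.coeff_mul_X_pow']
    split_ifs with h1 h2 h2
    · subst h2
      rw [show q ^ a + (2 * d - 1) - q ^ a = 2 * d - 1 by omega, coeff_VV q ω d hd]
    · -- a ≠ i0
      rcases lt_or_gt_of_ne h2 with h3 | h3
      · have := hmul a i0 h3
        apply de_VV q ω d hd
        omega
      · have := hmul i0 a h3
        omega
    · subst h2; omega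
    · rfl
  have hcmain : coeff (q ^ i0 + (2 * d - 1)) (VV q ω d j * Q) = if i = i0 then 1 else 0 := by
    rw [hQ, mul_sub, map_sub, hcV, hcV, if_neg (by omega), zero_sub]
    split_ifs <;> simp
  by_cases hi0 : i = 0
  · -- i = 0
    subst hi0
    refine ⟨VV q ω d j * Q - V' * Z * Q, V' * Z ^ 2 * y, key, ?_, ?_, ?_⟩
    · have hQde : de (q ^ D) Q := by
        rw [hQ]
        apply de_sub
        · simpa using de_X_pow (E := E) (q ^ (0 + D))
        · apply de_mono _ (de_X_pow _)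
          exact hlow _ _ (by omega)
      have hjM : j = M + 1 := by omega
      apply de_sub
      · apply de_mono _ (de_mul (de_VV q ω d hd j) hQde)
        omega
      · apply de_mono _ (de_mul (de_mul hV'de (de_X_pow (q ^ j))) hQde)
        rw [hjM]; omega
    · have : V' * Z ^ 2 * y = (PowerSeries.X : E⟦X⟧) ^ (2 * q ^ (M + 1)) * (V' * y) := by
        rw [hZ, ← pow_mul, show j = M + 1 by omega, mul_comm (q ^ (M + 1)) 2]; ring
      rw [this]; exact dvd_mul_right _ _
    · rw [map_sub, hcmain]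
      have : coeff (q ^ i0 + (2 * d - 1)) (V' * Z * Q) = 0 := by
        apply coeff_X_pow_dvd (n := q ^ j)
        · rw [show j = M + 1 by omega]; exact hx0
        · rw [hZ]; exact ⟨V' * Q, by ring⟩
      rw [this, sub_zero]
  · -- i ≥ 1
    have hj2 : M + 2 ≤ j := by omega
    have hβ : (PowerSeries.X : E⟦X⟧) ^ (2 * q ^ (M + 1)) ∣ - (V' * Z * Q) + V' * Z ^ 2 * y := by
      have h1 : (PowerSeries.X : E⟦X⟧) ^ (2 * q ^ (M + 1)) ∣ Z := by
        rw [hZ]; exact pow_dvd_pow _ (hmul _ _ (by omega))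
      have : - (V' * Z * Q) + V' * Z ^ 2 * y = Z * (-(V' * Q) + V' * Z * y) := by ring
      rw [this]; exact dvd_mul_of_dvd_left h1 _
    by_cases hiM : i ≤ M + 1
    · by_cases hiDM : i + D ≤ M + 1
      · refine ⟨VV q ω d j * Q, - (V' * Z * Q) + V' * Z ^ 2 * y, by rw [key]; ring, ?_, hβ, hcmain⟩
        rw [hQ, mul_sub]
        have hh1 := hlow (i + D) (M + 1) hiDM
        have hh2 := hlow i (M + 1) hiM
        apply de_sub
        · exact de_mono (by omega) (de_mul (de_VV q ω d hd j) (de_X_pow _))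
        · exact de_mono (by omega) (de_mul (de_VV q ω d hd j) (de_X_pow _))
      · refine ⟨- (VV q ω d j * PowerSeries.X ^ (q ^ i)),
          VV q ω d j * PowerSeries.X ^ (q ^ (i + D)) + (- (V' * Z * Q) + V' * Z ^ 2 * y), ?_, ?_, ?_, ?_⟩
        · rw [key, hQ]; ring
        · have hh2 := hlow i (M + 1) hiM
          apply de_neg
          exact de_mono (by omega) (de_mul (de_VV q ω d hd j) (de_X_pow _))
        · apply dvd_add _ hβ
          apply dvd_mul_of_dvd_right
          exact pow_dvd_pow _ (hmul _ _ (by omega))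
        · rw [map_neg, hcV]; split_ifs <;> simp
    · refine ⟨0, VV q ω d j * Q + (- (V' * Z * Q) + V' * Z ^ 2 * y), by rw [key]; ring, de_zero _, ?_, ?_⟩
      · apply dvd_add _ hβ
        apply dvd_mul_of_dvd_right
        rw [hQ]
        apply dvd_sub
        · exact pow_dvd_pow _ (hmul _ _ (by omega))
        · exact pow_dvd_pow _ (hmul _ _ (by omega))
      · rw [if_neg (by omega)]; simp

lemma geom_bound (hq : 2 ≤ q) (M : ℕ) : ∑ e ∈ Finset.Icc 1 M, q ^ e + q ≤ q ^ (M + 1) := by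
  induction M with
  | zero => simp
  | succ M ih =>
    rw [Finset.sum_Icc_succ_top (by omega)]
    have : 2 * q ^ (M + 1) ≤ q ^ (M + 1 + 1) := by
      calc 2 * q ^ (M + 1) ≤ q * q ^ (M + 1) := Nat.mul_le_mul_right _ hq
        _ = q ^ (M + 1 + 1) := (pow_succ' q _).symm
    omega

/-- factorization of `ww (2 j)` (needs Frobenius additivity, given as hypothesis) -/
lemma ww_two (hq : 2 ≤ q) (hfrob : ∀ (n : ℕ) (x y : E⟦X⟧), (x + y) ^ (q ^ n) = x ^ (q ^ n) + y ^ (q ^ n)) (j : ℕ) :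
    ww q ω (2 * j) = ww q ω j * ((ww q ω j) ^ (q ^ j - 1) + 1) := by
  have hpos : 0 < q ^ j := Nat.pow_pos (by omega)
  have h1 : ww q ω j * ((ww q ω j) ^ (q ^ j - 1) + 1) = (ww q ω j) ^ (q ^ j) + ww q ω j := by
    rw [mul_add, mul_one, ← pow_succ']
    congr 2; omega
  rw [h1]
  have hneg : (-PowerSeries.X : E⟦X⟧) ^ (q ^ j) = - (PowerSeries.X) ^ (q ^ j) := by
    have h2 := hfrob j (PowerSeries.X : E⟦X⟧) (-PowerSeries.X)
    rw [add_neg_cancel, zero_pow hpos.ne'] at h2
    linear_combination -h2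
  have hnegC : (-PowerSeries.C ω : E⟦X⟧) ^ (q ^ j) = - (PowerSeries.C ω) ^ (q ^ j) := by
    have h2 := hfrob j (PowerSeries.C ω : E⟦X⟧) (-PowerSeries.C ω)
    rw [add_neg_cancel, zero_pow hpos.ne'] at h2
    linear_combination -h2
  have h3 : (ww q ω j) ^ (q ^ j) = PowerSeries.C (ω ^ (q ^ (2 * j)) - ω ^ (q ^ j)) - PowerSeries.X ^ (q ^ j) + PowerSeries.X ^ (q ^ (2 * j)) := by
    unfold ww uu
    rw [hfrob, sub_eq_add_neg, hfrob, hneg]
    unfold aa
    rw [map_sub, sub_eq_add_neg (PowerSeries.C (ω ^ q ^ j)) (PowerSeries.C ω), hfrob, hnegC, ← map_pow, ← pow_mul, ← pow_add, ← pow_mul,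
      ← pow_add, ← two_mul, ← map_pow, map_sub]
    ring
  rw [h3]
  unfold ww uu aa
  simp only [map_sub]
  ring

/-- the main gap argument -/
theorem gap (hq : 2 ≤ q) (hfrob : ∀ (n : ℕ) (x y : E⟦X⟧), (x + y) ^ (q ^ n) = x ^ (q ^ n) + y ^ (q ^ n))
    (d : ℕ) (hd : 0 < d) (hω : ω ^ (q ^ d) = ω) (M D i0 : ℕ) (hi1 : 1 ≤ i0) (hiD : i0 < D)
    (hi2 : 2 * d ≤ q ^ i0) (hM : D + 2 * d ≤ M / 2) (c : ℕ → E) (y : ℕ → E⟦X⟧)
    (hY1 : ∀ j, 1 ≤ j → j ≤ M → ∃ P, de (q ^ j - 1) P ∧ ww q ω j * y j = P)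
    (hY2 : ∀ i, ww q ω (M + 1 + i) * y (M + 1 + i) = PowerSeries.X ^ (q ^ (i + D)) - PowerSeries.X ^ (q ^ i))
    (hconv : ∀ e : ℕ, ∃ N0 : ℕ, ∀ N ≥ N0, (PowerSeries.X : E⟦X⟧) ^ e ∣
      ∑ j ∈ Finset.range N, PowerSeries.C (c (j + 1)) * y (j + 1)) :
    c (M + 1 + i0) = 0 := by
  classical
  set B := q ^ (M + 1) with hB
  have hmul : ∀ a b : ℕ, a < b → 2 * q ^ a ≤ q ^ b := by
    intro a b hab
    calc 2 * q ^ a ≤ q * q ^ a := Nat.mul_le_mul_right _ hq
      _ = q ^ (a + 1) := (pow_succ' q a).symm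
      _ ≤ q ^ b := Nat.pow_le_pow_right (by omega) hab
  -- common denominator
  set h0 := M / 2 with hh0
  have hh1 : 1 ≤ h0 := by omega
  have hh2 : 2 * h0 ≤ M := by omega
  set S := (Finset.Icc 1 M).erase h0 with hS
  set L := ∏ e ∈ S, ww q ω e with hL
  set dL := ∑ e ∈ S, q ^ e with hdL
  have hdL1 : dL + q ^ h0 + q ≤ B := by
    have h1 := geom_bound q hq M
    have h2 : q ^ h0 + dL = ∑ e ∈ Finset.Icc 1 M, q ^ e :=
      Finset.add_sum_erase (Finset.Icc 1 M) (fun e => q ^ e) (Finset.mem_Icc.mpr ⟨hh1, by omega⟩)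
    omega
  have hsize : q ^ D + 2 * d ≤ q ^ h0 := by
    have h1 : q ^ (D + 2 * d) ≤ q ^ h0 := Nat.pow_le_pow_right (by omega) hM
    have h2 : 2 * d + 1 ≤ q ^ (2 * d) := by
      have : 2 * d < 2 ^ (2 * d) := Nat.lt_two_pow_self
      have h3 : 2 ^ (2 * d) ≤ q ^ (2 * d) := Nat.pow_le_pow_left hq _
      omega
    have h3 : q ^ (D + 2 * d) = q ^ D * q ^ (2 * d) := pow_add _ _ _
    have h4 : 1 ≤ q ^ D := Nat.one_le_pow _ _ (by omega)
    have h5 : q ^ D * (2 * d + 1) ≤ q ^ D * q ^ (2 * d) := Nat.mul_le_mul_left _ h2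
    nlinarith
  have hLde : de dL L := de_prod S (fun e => q ^ e) (fun e => ww q ω e) (fun e _ => de_ww q ω hq e)
  have hLtop : coeff dL L = 1 := by
    have h1 := coeff_prod_top S (fun e => q ^ e) (fun e => ww q ω e) (fun e _ => de_ww q ω hq e)
    rw [hL, hdL, h1]
    apply Finset.prod_eq_one
    intro e he
    exact coeff_ww q ω hq e (Finset.mem_Icc.mp (Finset.mem_of_mem_erase he)).1
  -- low part
  have hsplit : ∀ e ∈ S, L = ww q ω e * ∏ e' ∈ S.erase e, ww q ω e' := fun e he =>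
    (Finset.mul_prod_erase S (fun e => ww q ω e) he).symm
  have hdesplit : ∀ e ∈ S, de (dL - q ^ e) (∏ e' ∈ S.erase e, ww q ω e') := by
    intro e he
    have h1 := de_prod (S.erase e) (fun e => q ^ e) (fun e => ww q ω e) (fun e _ => de_ww q ω hq e)
    have h2 : q ^ e + ∑ e' ∈ S.erase e, q ^ e' = dL := Finset.add_sum_erase S (fun e => q ^ e) he
    exact de_mono (by omega) h1
  have hdL0 : ∀ e ∈ S, q ^ e ≤ dL := fun e he => Finset.single_le_sum (f := fun e => q ^ e) (fun _ _ => Nat.zero_le _) he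
  have hlowterm : ∀ j, 1 ≤ j → j ≤ M → de (dL - 1) (L * y j) := by
    intro j hj1 hjM
    obtain ⟨P, hP, hPy⟩ := hY1 j hj1 hjM
    have hqj : 1 ≤ q ^ j := Nat.one_le_pow _ _ (by omega)
    by_cases hjh : j = h0
    · -- j = h0, use ww (2 j)
      rw [hjh] at hPy hP hqj ⊢
      have h2S : 2 * h0 ∈ S := Finset.mem_erase.mpr ⟨by omega, Finset.mem_Icc.mpr ⟨by omega, hh2⟩⟩
      rw [hsplit _ h2S, ww_two q ω hq hfrob h0]
      have : ww q ω h0 * (ww q ω h0 ^ (q ^ h0 - 1) + 1) * (∏ e' ∈ S.erase (2 * h0), ww q ω e') * y h0 =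
          (ww q ω h0 ^ (q ^ h0 - 1) + 1) * (∏ e' ∈ S.erase (2 * h0), ww q ω e') * P := by
        rw [← hPy]; ring
      rw [this]
      have h3 : de (q ^ h0 * (q ^ h0 - 1)) (ww q ω h0 ^ (q ^ h0 - 1) + 1) :=
        de_add (de_pow (de_ww q ω hq h0) _) (de_one _)
      refine de_mono ?_ (de_mul (de_mul h3 (hdesplit _ h2S)) hP)
      have h4 := hdL0 _ h2S
      have h5 : q ^ (2 * h0) = q ^ h0 * q ^ h0 := by rw [two_mul, pow_add]
      have h6 : q ^ h0 * (q ^ h0 - 1) + q ^ h0 = q ^ h0 * q ^ h0 := by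
        rw [Nat.mul_sub, mul_one]
        have : q ^ h0 ≤ q ^ h0 * q ^ h0 := Nat.le_mul_of_pos_left _ (by omega)
        omega
      omega
    · have hjS : j ∈ S := Finset.mem_erase.mpr ⟨hjh, Finset.mem_Icc.mpr ⟨hj1, hjM⟩⟩
      rw [hsplit _ hjS]
      have : ww q ω j * (∏ e' ∈ S.erase j, ww q ω e') * y j = (∏ e' ∈ S.erase j, ww q ω e') * P := by
        rw [← hPy]; ring
      rw [this]
      refine de_mono ?_ (de_mul (hdesplit _ hjS) hP)
      have := hdL0 _ hjS
      omega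
  -- high part
  choose α β hαβ hαde hβ hαc using fun i => high q ω hq d hd hω M D i0 hi1 hiD hi2 (by omega) i (y (M + 1 + i)) (hY2 i)
  obtain ⟨N0, hN0⟩ := hconv (2 * B)
  set n := N0 + i0 + 1 with hn
  have hdvd := hN0 (M + n) (by omega)
  rw [Finset.sum_range_add] at hdvd
  set low := ∑ j ∈ Finset.range M, PowerSeries.C (c (j + 1)) * y (j + 1) with hlow
  set hi := ∑ i ∈ Finset.range n, PowerSeries.C (c (M + i + 1)) * y (M + i + 1) with hhi
  set A := ∑ i ∈ Finset.range n, PowerSeries.C (c (M + i + 1)) * α i with hA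
  set Bt := ∑ i ∈ Finset.range n, PowerSeries.C (c (M + i + 1)) * β i with hBt
  have h1 : (UU q ω d) ^ 2 * hi = A + Bt := by
    rw [hhi, hA, hBt, Finset.mul_sum, ← Finset.sum_add_distrib]
    apply Finset.sum_congr rfl
    intro i _
    have := hαβ i
    rw [show M + i + 1 = M + 1 + i by ring]
    linear_combination PowerSeries.C (c (M + 1 + i)) * this
  have hAde : de (B + q ^ D + 2 * d) A := de_sum _ _ (fun i _ => by
    have := de_mul (de_C 0 (c (M + i + 1))) (hαde i)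
    rwa [zero_add] at this)
  have hBtdvd : (PowerSeries.X : E⟦X⟧) ^ (2 * B) ∣ Bt := Finset.dvd_sum (fun i _ => dvd_mul_of_dvd_right (hβ i) _)
  have hlowde : de (dL - 1) (L * low) := by
    rw [hlow, Finset.mul_sum]
    apply de_sum
    intro j hj
    rw [Finset.mem_range] at hj
    have := de_mul (de_C 0 (c (j + 1))) (hlowterm (j + 1) (by omega) (by omega))
    rw [zero_add] at this
    have e : L * (PowerSeries.C (c (j + 1)) * y (j + 1)) = PowerSeries.C (c (j + 1)) * (L * y (j + 1)) := by ring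
    rw [e]; exact this
  have hUde : de (2 * d) ((UU q ω d) ^ 2) := by
    have h2 := de_prod (Finset.range d) (fun _ => 1) (uu q ω) (fun i _ => de_uu q ω i)
    simp only [Finset.sum_const, smul_eq_mul, mul_one, Finset.card_range] at h2
    have := de_pow h2 2
    exact de_mono (by omega) this
  have hdLpos : 1 ≤ dL := by
    have h2S : 2 * h0 ∈ S := Finset.mem_erase.mpr ⟨by omega, Finset.mem_Icc.mpr ⟨by omega, hh2⟩⟩
    have := hdL0 _ h2S
    have : 1 ≤ q ^ (2 * h0) := Nat.one_le_pow _ _ (by omega)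
    omega
  -- the polynomial which vanishes
  have hzero : (UU q ω d) ^ 2 * (L * low) + L * A = 0 := by
    apply eq_zero_of_de_dvd (n := 2 * B) (m := dL + (B + q ^ D + 2 * d)) (by omega)
    · have h2 : (UU q ω d) ^ 2 * (L * low) + L * A = L * (UU q ω d) ^ 2 * (low + hi) - L * Bt := by
        linear_combination (-L) * h1
      rw [h2]
      apply dvd_sub
      · exact dvd_mul_of_dvd_right hdvd _
      · exact dvd_mul_of_dvd_right hBtdvd _
    · apply de_add
      · exact de_mono (by omega) (de_mul hUde hlowde)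
      · exact de_mul hLde hAde
  have hLA : de (2 * d + (dL - 1)) (L * A) := by
    have : L * A = - ((UU q ω d) ^ 2 * (L * low)) := by linear_combination hzero
    rw [this]
    exact de_neg (de_mul hUde hlowde)
  -- hence A has degree at most 2 d - 1
  have hAsmall : ∀ a, de a A → 2 * d - 1 ≤ a → de (2 * d - 1) A := by
    intro a
    induction a with
    | zero => intro ha h; exact de_mono (by omega) ha
    | succ a ih =>
      intro ha h
      by_cases h2 : 2 * d - 1 = a + 1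
      · rw [h2]; exact ha
      · apply ih _ (by omega)
        intro m hm
        by_cases hm2 : m = a + 1
        · subst hm2
          have h3 := coeff_mul_top hLde ha
          rw [hLtop, one_mul] at h3
          rw [← h3]
          apply hLA
          omega
        · exact ha m (by omega)
  have hAfin := hAsmall _ hAde (by omega)
  have hcoef : coeff (q ^ i0 + (2 * d - 1)) A = c (M + 1 + i0) := by
    rw [hA, map_sum]
    rw [Finset.sum_eq_single i0]
    · rw [PowerSeries.coeff_C_mul, hαc i0, if_pos rfl, mul_one]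
      congr 1; omega
    · intro i _ hne
      rw [PowerSeries.coeff_C_mul, hαc i, if_neg hne, mul_zero]
    · intro hnot
      exfalso; apply hnot
      rw [Finset.mem_range]; omega
  rw [← hcoef]
  apply hAfin
  have : 1 ≤ q ^ i0 := Nat.one_le_pow _ _ (by omega)
  omega

end Pool.Agent.H509R3.Yao
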