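import Mathlib
import Pool.Agent.H509R3.Yao.AlgRel
import Pool.Agent.H509R3.Yao.Gap

set_option autoImplicit false
open PowerSeries

namespace Pool.Agent.H509R3.Yao

variable {E : Type*} [Field E] [Finite E] (p k : ℕ) [Fact p.Prime] [CharP E p]

omit [Finite E] in
lemma frob_add (n : ℕ) (x y : E⟦X⟧) :
    (x + y) ^ ((p ^ k) ^ n) = x ^ ((p ^ k) ^ n) + y ^ ((p ^ k) ^ n) := by
  have : CharP E⟦X⟧ p := charP_of_injective_ringHom (PowerSeries.C_injective (R := E)) p
  rw [← pow_mul p]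
  exact add_pow_char_pow x y p (k * n)

omit [Finite E] in
lemma frob_sub (x y : E⟦X⟧) : (x - y) ^ (p ^ k) = x ^ (p ^ k) - y ^ (p ^ k) := by
  have : CharP E⟦X⟧ p := charP_of_injective_ringHom (PowerSeries.C_injective (R := E)) p
  exact sub_pow_char_pow x y k

lemma cart_C_mul (i : ℕ) (hi : i < p ^ k) (c : E) (x : E⟦X⟧) :
    cart p k i (PowerSeries.C c * x) = PowerSeries.C (rt p k c) * cart p k i x := by
  have : (PowerSeries.C c : E⟦X⟧) = (PowerSeries.C (rt p k c)) ^ (p ^ k) := by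
    rw [← map_pow, pow_rt]
  rw [this, cart_pow_mul p k i hi]

lemma cart_C_mul' (i : ℕ) (hi : i < p ^ k) (c : E) (hc : c ^ (p ^ k) = c) (x : E⟦X⟧) :
    cart p k i (PowerSeries.C c * x) = PowerSeries.C c * cart p k i x := by
  rw [cart_C_mul p k i hi]
  congr 2
  conv_lhs => rw [← hc]
  exact rt_pow p k c

lemma cart_dvd (i : ℕ) (hi : i < p ^ k) (e : ℕ) (x : E⟦X⟧) (h : (PowerSeries.X : E⟦X⟧) ^ (e * p ^ k) ∣ x) :
    (PowerSeries.X : E⟦X⟧) ^ e ∣ cart p k i x := by
  rw [PowerSeries.X_pow_dvd_iff] at h ⊢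
  intro m hm
  rw [coeff_cart, h, map_zero]
  have : (m + 1) * p ^ k ≤ e * p ^ k := Nat.mul_le_mul_right _ hm
  nlinarith

lemma cart_X_pow (i m : ℕ) (hi : i < p ^ k) (hm : m < p ^ k) :
    cart p k i (PowerSeries.X ^ m : E⟦X⟧) = if m = i then 1 else 0 := by
  ext n
  rw [coeff_cart, PowerSeries.coeff_X_pow]
  by_cases h : p ^ k * n + i = m
  · have hn : n = 0 := by
      by_contra hn
      have : p ^ k * 1 ≤ p ^ k * n := Nat.mul_le_mul_left _ (by omega)
      omega
    subst hn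
    rw [if_pos h, map_one, if_pos (by omega)]
    simp
  · rw [if_neg h, map_zero]
    split_ifs with h2
    · have hn : n ≠ 0 := by
        rintro rfl
        apply h; omega
      rw [PowerSeries.coeff_one, if_neg hn]
    · simp

lemma cart_top (hk : 0 < k) (i : ℕ) (hi : i < p ^ k) (β : E⟦X⟧) :
    cart p k i ((β ^ (p ^ k) - PowerSeries.X) ^ (p ^ k - 1)) = β ^ (p ^ k - 1 - i) := by
  set q := p ^ k with hqdef
  have hq : 2 ≤ q := by
    calc 2 ≤ p := (Fact.out : p.Prime).two_le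
      _ = p ^ 1 := (pow_one p).symm
      _ ≤ p ^ k := Nat.pow_le_pow_right (Fact.out : p.Prime).pos hk
  have hne : β ^ q - PowerSeries.X ≠ 0 := by
    intro h
    have h1 : coeff 1 (β ^ q - PowerSeries.X) = -1 := by
      rw [map_sub, hqdef, coeff_pow_q p k, if_neg, PowerSeries.coeff_one_X]
      · simp
      · intro hd
        have := Nat.le_of_dvd (by norm_num) hd
        omega
    rw [h] at h1
    simp at h1
  have hgeom : (β ^ q - PowerSeries.X) ^ (q - 1) = ∑ j ∈ Finset.range q, (β ^ q) ^ j * PowerSeries.X ^ (q - 1 - j) := by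
    apply mul_right_cancel₀ hne
    rw [← pow_succ, show q - 1 + 1 = q by omega, hqdef, frob_sub, ← hqdef]
    exact (geom_sum₂_mul (β ^ q) PowerSeries.X q).symm
  rw [hgeom, cart_sum]
  rw [Finset.sum_eq_single (q - 1 - i)]
  · rw [← pow_mul β, mul_comm q, pow_mul β, hqdef, cart_pow_mul p k i hi, cart_X_pow p k i _ hi (by omega), if_pos (by omega), mul_one]
  · intro j hj hne2
    rw [Finset.mem_range] at hj
    rw [← pow_mul β, mul_comm q j, pow_mul β, hqdef, cart_pow_mul p k i hi, cart_X_pow p k i _ hi (by omega), if_neg (by omega), mul_zero]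
  · intro hnot
    exfalso; apply hnot; rw [Finset.mem_range]; omega

/-- representation predicate: `x = N / w - c / u` -/
def Rp (ω : E) (j : ℕ) (N : E⟦X⟧) (c : E) (x : E⟦X⟧) : Prop :=
  uu (p ^ k) ω j * ww (p ^ k) ω j * x = N * uu (p ^ k) ω j - PowerSeries.C c * ww (p ^ k) ω j

lemma Rp_step (ω : E) (j i : ℕ) (hi : i < p ^ k) (N : E⟦X⟧) (c c' : E) (x : E⟦X⟧) (h : Rp p k ω j N c x)
    (hc' : cart p k i (PowerSeries.C c * uu (p ^ k) ω j ^ (p ^ k - 1)) = PowerSeries.C c') :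
    Rp p k ω j (cart p k i (N * ww (p ^ k) ω j ^ (p ^ k - 1))) c' (cart p k i x) := by
  have hq : 1 ≤ p ^ k := Nat.pow_pos (Fact.out : p.Prime).pos
  unfold Rp at h ⊢
  set u := uu (p ^ k) ω j
  set w := ww (p ^ k) ω j
  have e1 : (u * w) ^ (p ^ k) * x = u ^ (p ^ k) * (N * w ^ (p ^ k - 1)) - w ^ (p ^ k) * (PowerSeries.C c * u ^ (p ^ k - 1)) := by
    have e2 : (u * w) ^ (p ^ k) = u ^ (p ^ k - 1) * w ^ (p ^ k - 1) * (u * w) := by
      rw [← mul_pow, ← pow_succ]; congr 1; omega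
    have e3 : u ^ (p ^ k) = u ^ (p ^ k - 1) * u := by rw [← pow_succ]; congr 1; omega
    have e4 : w ^ (p ^ k) = w ^ (p ^ k - 1) * w := by rw [← pow_succ]; congr 1; omega
    rw [e2, mul_assoc, h, e3, e4]
    ring
  have e5 := congrArg (cart p k i) e1
  rw [cart_pow_mul p k i hi, cart_sub, cart_pow_mul p k i hi, cart_pow_mul p k i hi, hc'] at e5
  rw [e5]; ring

noncomputable def Om (m : ℕ) (x : E⟦X⟧) : E⟦X⟧ := (cart p k (p ^ k - 1))^[m] (cart p k (p ^ k - 2) x)

lemma Om_succ (m : ℕ) (x : E⟦X⟧) : Om p k (m + 1) x = cart p k (p ^ k - 1) (Om p k m x) := by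
  unfold Om; rw [Function.iterate_succ', Function.comp_apply]

lemma uu_form (ω : E) (j : ℕ) : uu (p ^ k) ω j = (PowerSeries.C (rt p k (aa (p ^ k) ω j))) ^ (p ^ k) - PowerSeries.X := by
  unfold uu
  rw [← map_pow, pow_rt]

lemma ww_form (ω : E) (j : ℕ) (hj : 1 ≤ j) : ww (p ^ k) ω j =
    (PowerSeries.C (rt p k (aa (p ^ k) ω j)) + PowerSeries.X ^ ((p ^ k) ^ (j - 1))) ^ (p ^ k) - PowerSeries.X := by
  have h1 := frob_add p k 1 (PowerSeries.C (rt p k (aa (p ^ k) ω j))) (PowerSeries.X ^ ((p ^ k) ^ (j - 1)))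
  rw [pow_one] at h1
  unfold ww uu
  rw [h1, ← map_pow, pow_rt, ← pow_mul (PowerSeries.X : E⟦X⟧), ← pow_succ (p ^ k), show j - 1 + 1 = j by omega]
  ring

lemma rep (hk : 0 < k) (ω : E) (G : ℕ → E⟦X⟧)
    (hG : ∀ j, 1 ≤ j → uu (p ^ k) ω j * ww (p ^ k) ω j * G j = uu (p ^ k) ω j - ww (p ^ k) ω j) (m : ℕ) :
    ∀ j, 1 ≤ j → ∃ N : E⟦X⟧, Rp p k ω j N ((rt p k)^[m + 1] (aa (p ^ k) ω j)) (Om p k m (G j)) ∧
      de ((p ^ k) ^ j - 1) N ∧
      (m + 1 ≤ j → N = PowerSeries.C ((rt p k)^[m + 1] (aa (p ^ k) ω j)) + PowerSeries.X ^ ((p ^ k) ^ (j - 1 - m))) := by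
  have hq : 2 ≤ p ^ k := by
    calc 2 ≤ p := (Fact.out : p.Prime).two_le
      _ = p ^ 1 := (pow_one p).symm
      _ ≤ p ^ k := Nat.pow_le_pow_right (Fact.out : p.Prime).pos hk
  induction m with
  | zero =>
    intro j hj
    have h0 : Rp p k ω j 1 1 (G j) := by
      unfold Rp; rw [hG j hj, map_one]; ring
    have h1 := Rp_step p k ω j (p ^ k - 2) (by omega) 1 1 (rt p k (aa (p ^ k) ω j)) (G j) h0 (by
      rw [map_one, one_mul, uu_form, cart_top p k hk _ (by omega), show p ^ k - 1 - (p ^ k - 2) = 1 by omega, pow_one])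
    have h2 : cart p k (p ^ k - 2) (1 * ww (p ^ k) ω j ^ (p ^ k - 1)) =
        PowerSeries.C (rt p k (aa (p ^ k) ω j)) + PowerSeries.X ^ ((p ^ k) ^ (j - 1)) := by
      rw [one_mul, ww_form p k ω j hj, cart_top p k hk _ (by omega), show p ^ k - 1 - (p ^ k - 2) = 1 by omega, pow_one]
    rw [h2] at h1
    refine ⟨_, h1, ?_, fun _ => rfl⟩
    apply de_add (de_C _ _)
    apply de_mono _ (de_X_pow _)
    have h3 : (p ^ k) ^ j = (p ^ k) ^ (j - 1) * (p ^ k) := by rw [← pow_succ]; congr 1; omega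
    have h4 : 1 ≤ (p ^ k) ^ (j - 1) := Nat.one_le_pow _ _ (by omega)
    have h5 : (p ^ k) ^ (j - 1) * 2 ≤ (p ^ k) ^ (j - 1) * (p ^ k) := Nat.mul_le_mul_left _ hq
    omega
  | succ m ih =>
    intro j hj
    obtain ⟨N, hN1, hN2, hN3⟩ := ih j hj
    have h1 := Rp_step p k ω j (p ^ k - 1) (by omega) N _ (rt p k ((rt p k)^[m + 1] (aa (p ^ k) ω j))) _ hN1 (by
      rw [cart_C_mul p k _ (by omega), uu_form, cart_top p k hk _ (by omega), show p ^ k - 1 - (p ^ k - 1) = 0 by omega,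
        pow_zero, mul_one])
    rw [← Om_succ] at h1
    have e1 : rt p k ((rt p k)^[m + 1] (aa (p ^ k) ω j)) = (rt p k)^[m + 1 + 1] (aa (p ^ k) ω j) := by
      rw [Function.iterate_succ' _ (m + 1), Function.comp_apply]
    rw [e1] at h1
    refine ⟨_, h1, ?_, ?_⟩
    · apply de_cart p k (a := (p ^ k) ^ j - 1 + (p ^ k) ^ j * (p ^ k - 1)) _
      · exact de_mul hN2 (de_pow (de_ww (p ^ k) ω hq j) _)
      · have h2 : 1 ≤ (p ^ k) ^ j := Nat.one_le_pow _ _ (by omega)
        have h3 : (p ^ k) ^ j * (p ^ k - 1) + (p ^ k) ^ j = (p ^ k) * (p ^ k) ^ j := by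
          rw [Nat.mul_sub, mul_one]
          have : (p ^ k) ^ j ≤ (p ^ k) ^ j * (p ^ k) := Nat.le_mul_of_pos_right _ (by omega)
          rw [mul_comm (p ^ k) ((p ^ k) ^ j)]
          omega
        rw [show (p ^ k) ^ j - 1 + 1 = (p ^ k) ^ j by omega]
        omega
    · intro hmj
      have h2 := hN3 (by omega)
      have h3 : N = (PowerSeries.C (rt p k ((rt p k)^[m + 1] (aa (p ^ k) ω j))) + PowerSeries.X ^ ((p ^ k) ^ (j - 1 - (m + 1)))) ^ (p ^ k) := by
        have h4 := frob_add p k 1 (PowerSeries.C (rt p k ((rt p k)^[m + 1] (aa (p ^ k) ω j)))) (PowerSeries.X ^ ((p ^ k) ^ (j - 1 - (m + 1))))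
        rw [pow_one] at h4
        rw [h4, ← map_pow, pow_rt, ← pow_mul (PowerSeries.X : E⟦X⟧), ← pow_succ (p ^ k), h2]
        congr 3; omega
      rw [h3, cart_pow_mul p k _ (by omega), ww_form p k ω j hj, cart_top p k hk _ (by omega),
        show p ^ k - 1 - (p ^ k - 1) = 0 by omega, pow_zero, mul_one, e1]

lemma rt_iter_pow (n : ℕ) (x : E) : (rt p k)^[n] (x ^ ((p ^ k) ^ n)) = x := by
  induction n generalizing x with
  | zero => simp
  | succ n ih =>
    rw [Function.iterate_succ, Function.comp_apply, pow_succ (p ^ k) n, pow_mul x, rt_pow]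
    exact ih x

lemma rt_period (ω : E) (d : ℕ) (hω : ω ^ ((p ^ k) ^ d) = ω) (j l : ℕ) :
    (rt p k)^[d * l] (aa (p ^ k) ω j) = aa (p ^ k) ω j := by
  have h1 : (aa (p ^ k) ω j) ^ ((p ^ k) ^ d) = aa (p ^ k) ω j := by
    unfold aa
    have h2 : (ω ^ ((p ^ k) ^ j) - ω) ^ ((p ^ k) ^ d) = (ω ^ ((p ^ k) ^ j)) ^ ((p ^ k) ^ d) - ω ^ ((p ^ k) ^ d) := by
      rw [← pow_mul p k d]
      exact sub_pow_char_pow _ _ (k * d)
    rw [h2, hω, ← pow_mul ω, mul_comm ((p ^ k) ^ j), pow_mul ω, hω]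
  induction l with
  | zero => simp
  | succ l ih =>
    rw [Nat.mul_succ, Function.iterate_add_apply]
    have : (rt p k)^[d] (aa (p ^ k) ω j) = aa (p ^ k) ω j := by
      conv_lhs => rw [← h1]
      exact rt_iter_pow p k d _
    rw [this, ih]

lemma Om_sub (m : ℕ) (x y : E⟦X⟧) : Om p k m (x - y) = Om p k m x - Om p k m y := by
  induction m with
  | zero => simp [Om, cart_sub]
  | succ m ih => rw [Om_succ, Om_succ, Om_succ, ih, cart_sub]

lemma Om_sum (m : ℕ) (s : Finset ℕ) (f : ℕ → E⟦X⟧) : Om p k m (∑ j ∈ s, f j) = ∑ j ∈ s, Om p k m (f j) := by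
  induction m with
  | zero => simp [Om, cart_sum]
  | succ m ih =>
    rw [Om_succ, ih, cart_sum]
    exact Finset.sum_congr rfl (fun j _ => (Om_succ p k m (f j)).symm)

lemma Om_C_mul (hk : 0 < k) (m : ℕ) (c : E) (hc : c ^ (p ^ k) = c) (x : E⟦X⟧) :
    Om p k m (PowerSeries.C c * x) = PowerSeries.C c * Om p k m x := by
  have hq : 2 ≤ p ^ k := by
    calc 2 ≤ p := (Fact.out : p.Prime).two_le
      _ = p ^ 1 := (pow_one p).symm
      _ ≤ p ^ k := Nat.pow_le_pow_right (Fact.out : p.Prime).pos hk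
  induction m with
  | zero => simp only [Om, Function.iterate_zero, id_eq]; exact cart_C_mul' p k _ (by omega) c hc x
  | succ m ih => rw [Om_succ, Om_succ, ih, cart_C_mul' p k _ (by omega) c hc]

lemma Om_dvd (hk : 0 < k) (m e : ℕ) (x : E⟦X⟧) (h : (PowerSeries.X : E⟦X⟧) ^ (e * (p ^ k) ^ (m + 1)) ∣ x) :
    (PowerSeries.X : E⟦X⟧) ^ e ∣ Om p k m x := by
  have hq : 2 ≤ p ^ k := by
    calc 2 ≤ p := (Fact.out : p.Prime).two_le
      _ = p ^ 1 := (pow_one p).symm
      _ ≤ p ^ k := Nat.pow_le_pow_right (Fact.out : p.Prime).pos hk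
  induction m generalizing e with
  | zero =>
    simp only [Om, Function.iterate_zero, id_eq]
    apply cart_dvd p k _ (by omega)
    simpa using h
  | succ m ih =>
    rw [Om_succ]
    apply cart_dvd p k _ (by omega)
    apply ih
    have : e * p ^ k * (p ^ k) ^ (m + 1) = e * (p ^ k) ^ (m + 1 + 1) := by ring
    rw [this]; exact h

/-- Core theorem -/
theorem core (hk : 0 < k) (ω : E) (d : ℕ) (hd : 0 < d) (hω : ω ^ ((p ^ k) ^ d) = ω) (G : ℕ → E⟦X⟧)
    (hG : ∀ j, 1 ≤ j → uu (p ^ k) ω j * ww (p ^ k) ω j * G j = uu (p ^ k) ω j - ww (p ^ k) ω j)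
    (h : E⟦X⟧) (halg : IsAlgebraic (Polynomial E) h) (c : ℕ → E) (hc : ∀ j, c j ^ (p ^ k) = c j)
    (hconv : ∀ e : ℕ, ∃ N0 : ℕ, ∀ N ≥ N0, (PowerSeries.X : E⟦X⟧) ^ e ∣
      h - ∑ j ∈ Finset.range N, PowerSeries.C (c (j + 1)) * G (j + 1)) :
    ∃ J, ∀ j ≥ J, c j = 0 := by
  have hq : 2 ≤ p ^ k := by
    calc 2 ≤ p := (Fact.out : p.Prime).two_le
      _ = p ^ 1 := (pow_one p).symm
      _ ≤ p ^ k := Nat.pow_le_pow_right (Fact.out : p.Prime).pos hk
  obtain ⟨S, hSfin, hhS, hSc⟩ := kernel_finite p k hk h halg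
  have hOmS : ∀ m, Om p k m h ∈ S := by
    intro m
    induction m with
    | zero => simp only [Om, Function.iterate_zero, id_eq]; exact hSc h hhS _ (by omega)
    | succ m ih => rw [Om_succ]; exact hSc _ ih _ (by omega)
  -- pigeonhole
  obtain ⟨m1, m2, hlt, heq⟩ : ∃ m1 m2 : ℕ, m1 < m2 ∧ Om p k m1 h = Om p k m2 h := by
    by_contra hcon
    push Not at hcon
    have hinj : Function.Injective (fun m => Om p k m h) := by
      intro a b hab
      rcases lt_trichotomy a b with h1 | h1 | h1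
      · exact absurd hab (hcon a b h1)
      · exact h1
      · exact absurd hab.symm (hcon b a h1)
    have hsub : Set.range (fun m => Om p k m h) ⊆ S := by
      rintro _ ⟨m, rfl⟩; exact hOmS m
    exact Set.infinite_range_of_injective hinj (hSfin.subset hsub)
  set D0 := m2 - m1 with hD0
  have hper1 : ∀ m, m1 ≤ m → Om p k (m + D0) h = Om p k m h := by
    intro m hm
    induction m, hm using Nat.le_induction with
    | base => rw [hD0, show m1 + (m2 - m1) = m2 by omega, heq]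
    | succ m hm ih =>
      rw [show m + 1 + D0 = (m + D0) + 1 by ring, Om_succ, Om_succ, ih]
  have hper2 : ∀ l m, m1 ≤ m → Om p k (m + D0 * l) h = Om p k m h := by
    intro l
    induction l with
    | zero => intro m _; simp
    | succ l ih =>
      intro m hm
      rw [show m + D0 * (l + 1) = (m + D0 * l) + D0 by ring, hper1 _ (by omega), ih m hm]
  set D := D0 * (d * (2 * d + 1)) with hD
  have hD0pos : 1 ≤ D0 := by omega
  have hDbig : 2 * d < D := by
    have : 1 * (1 * (2 * d + 1)) ≤ D0 * (d * (2 * d + 1)) := Nat.mul_le_mul hD0pos (Nat.mul_le_mul_right _ hd)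
    omega
  set i0 := 2 * d with hi0
  have hi2 : 2 * d ≤ (p ^ k) ^ i0 := by
    have h1 : i0 < 2 ^ i0 := Nat.lt_two_pow_self
    have h2 : 2 ^ i0 ≤ (p ^ k) ^ i0 := Nat.pow_le_pow_left hq _
    omega
  have hmain : ∀ m, m1 ≤ m → D + 4 * d ≤ m → c (m + D + 1 + i0) = 0 := by
    intro m hm1 hm2
    have hrtD : ∀ j, (rt p k)^[m + D + 1] (aa (p ^ k) ω j) = (rt p k)^[m + 1] (aa (p ^ k) ω j) := by
      intro j
      have e1 : m + D + 1 = (m + 1) + d * (D0 * (2 * d + 1)) := by rw [hD]; ring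
      rw [e1, Function.iterate_add_apply, rt_period p k ω d hω]
    apply gap (p ^ k) ω hq (fun n x y => frob_add p k n x y) d hd hω (m + D) D i0 (by omega) (by omega) hi2 (by omega) c
      (fun j => Om p k m (G j) - Om p k (m + D) (G j))
    · intro j hj _
      obtain ⟨N, h1, h2, _⟩ := rep p k hk ω G hG m j hj
      obtain ⟨N', h1', h2', _⟩ := rep p k hk ω G hG (m + D) j hj
      refine ⟨N - N', de_sub h2 h2', ?_⟩
      unfold Rp at h1 h1'
      rw [hrtD] at h1'
      apply mul_left_cancel₀ (uu_ne (p ^ k) ω j)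
      linear_combination h1 - h1'
    · intro i
      have hj : 1 ≤ m + D + 1 + i := by omega
      obtain ⟨N, h1, _, h3⟩ := rep p k hk ω G hG m (m + D + 1 + i) hj
      obtain ⟨N', h1', _, h3'⟩ := rep p k hk ω G hG (m + D) (m + D + 1 + i) hj
      have hN := h3 (by omega)
      have hN' := h3' (by omega)
      rw [hrtD] at hN' h1'
      unfold Rp at h1 h1'
      apply mul_left_cancel₀ (uu_ne (p ^ k) ω (m + D + 1 + i))
      have e1 : m + D + 1 + i - 1 - m = i + D := by omega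
      have e2 : m + D + 1 + i - 1 - (m + D) = i := by omega
      rw [e1] at hN
      rw [e2] at hN'
      have hNN : N - N' = PowerSeries.X ^ ((p ^ k) ^ (i + D)) - PowerSeries.X ^ ((p ^ k) ^ i) := by
        rw [hN, hN']; ring
      rw [← hNN]
      linear_combination h1 - h1'
    · intro e
      obtain ⟨N0, hN0⟩ := hconv (e * (p ^ k) ^ (m + D + 1))
      refine ⟨N0, fun N hN => ?_⟩
      have h1 := hN0 N hN
      have h2 := Om_dvd p k hk (m + D) e _ h1
      have h3 := Om_dvd p k hk m e _ (dvd_trans (pow_dvd_pow _ (Nat.mul_le_mul_left _ (Nat.pow_le_pow_right (by omega) (by omega)))) h1)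
      rw [Om_sub p k, Om_sum] at h2 h3
      have h4 : Om p k (m + D) h = Om p k m h := by
        rw [hD]; exact hper2 _ m hm1
      rw [h4] at h2
      have h5 := dvd_sub h2 h3
      have h6 : Om p k m h - ∑ j ∈ Finset.range N, Om p k (m + D) (PowerSeries.C (c (j + 1)) * G (j + 1)) -
          (Om p k m h - ∑ j ∈ Finset.range N, Om p k m (PowerSeries.C (c (j + 1)) * G (j + 1))) =
          ∑ j ∈ Finset.range N, PowerSeries.C (c (j + 1)) * (Om p k m (G (j + 1)) - Om p k (m + D) (G (j + 1))) := by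
        rw [sub_sub_sub_cancel_left, ← Finset.sum_sub_distrib]
        apply Finset.sum_congr rfl
        intro j _
        rw [Om_C_mul p k hk _ _ (hc _), Om_C_mul p k hk _ _ (hc _)]
        ring
      rw [h6] at h5
      exact h5
  refine ⟨m1 + (D + 4 * d) + (D + 1 + i0), fun j hj => ?_⟩
  have := hmain (j - (D + 1 + i0)) (by omega) (by omega)
  rwa [show j - (D + 1 + i0) + D + 1 + i0 = j by omega] at this

end Pool.Agent.H509R3.Yao
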