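import Mathlib
import Pool.Agent.H509R3.Yao.Core

set_option autoImplicit false
open PowerSeries

namespace Pool.Agent.H509R3.Yao

variable {E : Type*} [Field E]

lemma algMap_eq (P : Polynomial E) : algebraMap (Polynomial E) E⟦X⟧ P = (P : E⟦X⟧) := rfl

/-- chain rule, existential form -/
lemma chain_rule (f : E⟦X⟧) (P : Polynomial (Polynomial E)) :
    ∃ Q : Polynomial (Polynomial E), d⁄dX E (Polynomial.aeval f P) =
      Polynomial.aeval f Q + Polynomial.aeval f (Polynomial.derivative P) * d⁄dX E f := by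
  induction P using Polynomial.induction_on' with
  | add P1 P2 h1 h2 =>
    obtain ⟨Q1, hQ1⟩ := h1
    obtain ⟨Q2, hQ2⟩ := h2
    refine ⟨Q1 + Q2, ?_⟩
    rw [map_add, map_add, hQ1, hQ2, map_add, Polynomial.derivative_add, map_add]
    ring
  | monomial n a =>
    refine ⟨Polynomial.monomial n (Polynomial.derivative a), ?_⟩
    rw [Polynomial.aeval_monomial, Polynomial.aeval_monomial, Polynomial.derivative_monomial, Polynomial.aeval_monomial,
      Derivation.leibniz, Derivation.leibniz_pow]
    simp only [algMap_eq, PowerSeries.derivative_coe, smul_eq_mul, nsmul_eq_mul]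
    rw [Polynomial.coe_mul]
    have : (((n : Polynomial E)) : E⟦X⟧) = (n : E⟦X⟧) := by
      exact map_natCast (Polynomial.coeToPowerSeries.ringHom (R := E)) n
    rw [this]
    ring

variable [Finite E] (p : ℕ) [Fact p.Prime] [CharP E p]

include p in
/-- a separable annihilating polynomial exists -/
lemma exists_sep (f : E⟦X⟧) (halg : IsAlgebraic (Polynomial E) f) :
    ∃ P : Polynomial (Polynomial E), Polynomial.aeval f P = 0 ∧ Polynomial.aeval f (Polynomial.derivative P) ≠ 0 := by
  classical
  by_contra hcon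
  push Not at hcon
  have hex : ∃ n, ∃ P : Polynomial (Polynomial E), P ≠ 0 ∧ P.natDegree = n ∧ Polynomial.aeval f P = 0 := by
    obtain ⟨P, hP, hPf⟩ := halg
    exact ⟨P.natDegree, P, hP, rfl, hPf⟩
  obtain ⟨P, hP0, hPn, hPf⟩ := Nat.find_spec hex
  have hmin : ∀ Q : Polynomial (Polynomial E), Q.natDegree < P.natDegree → Polynomial.aeval f Q = 0 → Q = 0 := by
    intro Q hQ hQf
    by_contra hQ0
    exact Nat.find_min hex (m := Q.natDegree) (by omega) ⟨Q, hQ0, rfl, hQf⟩
  have hdeg : 0 < P.natDegree := by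
    by_contra h
    have h0 : P.natDegree = 0 := by omega
    rw [Polynomial.eq_C_of_natDegree_eq_zero h0, Polynomial.aeval_C] at hPf
    have h1 : P.coeff 0 = 0 := Polynomial.coe_injective E (by
      change algebraMap (Polynomial E) E⟦X⟧ (P.coeff 0) = _
      rw [hPf]; simp)
    exact hP0 (by rw [Polynomial.eq_C_of_natDegree_eq_zero h0, h1, Polynomial.C_0])
  have hder : Polynomial.derivative P = 0 := by
    apply hmin _ _ (hcon P hPf)
    exact Polynomial.natDegree_derivative_lt (by omega)
  have : CharP (Polynomial E) p := inferInstance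
  have : ExpChar (Polynomial E) p := ExpChar.prime (Fact.out : p.Prime)
  -- `P` is an expansion
  set Q := Polynomial.contract p P with hQ
  have hPQ : Polynomial.expand (Polynomial E) p Q = P := Polynomial.expand_contract p hder (Fact.out : p.Prime).ne_zero
  have hQdeg : Q.natDegree * p = P.natDegree := by rw [← hPQ, Polynomial.natDegree_expand]
  have hp2 : 2 ≤ p := (Fact.out : p.Prime).two_le
  have hQ0 : Q ≠ 0 := by
    intro h; rw [h, map_zero] at hPQ; exact hP0 hPQ.symm
  have heval : ∑ i ∈ Finset.range (Q.natDegree + 1), (Q.coeff i : E⟦X⟧) * (f ^ i) ^ (p ^ 1) = 0 := by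
    rw [← hPf, ← hPQ, Polynomial.expand_aeval, Polynomial.aeval_eq_sum_range]
    apply Finset.sum_congr rfl
    intro i _
    rw [Algebra.smul_def, algMap_eq, pow_one, ← pow_mul, ← pow_mul, mul_comm i p]
  -- choose a nonzero coefficient
  obtain ⟨i0, hi0, hQi0⟩ : ∃ i, i ≤ Q.natDegree ∧ Q.coeff i ≠ 0 :=
    ⟨Q.natDegree, le_refl _, by rw [Polynomial.coeff_natDegree]; exact Polynomial.leadingCoeff_ne_zero.mpr hQ0⟩
  have hne : (Q.coeff i0 : E⟦X⟧) ≠ 0 := by
    intro h; exact hQi0 (Polynomial.coe_injective E (by rw [h]; simp))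
  obtain ⟨c, hc, hcne⟩ := exists_cart_ne_zero p 1 (Q.coeff i0 : E⟦X⟧) hne
  -- the polynomial obtained by the Cartier operator
  let T : ℕ → Polynomial E := fun i => PowerSeries.trunc ((Q.coeff i).natDegree + 1) (cart p 1 c (Q.coeff i : E⟦X⟧))
  have hT : ∀ i, (T i : E⟦X⟧) = cart p 1 c (Q.coeff i : E⟦X⟧) := by
    intro i
    ext m
    rw [Polynomial.coeff_coe, PowerSeries.coeff_trunc]
    split_ifs with h
    · rfl
    · symm
      apply de_cart p 1 (a := (Q.coeff i).natDegree) (b := (Q.coeff i).natDegree) _ (de_coe _) m (by omega)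
      rw [pow_one]; nlinarith
  set R : Polynomial (Polynomial E) := ∑ i ∈ Finset.range (Q.natDegree + 1), Polynomial.monomial i (T i) with hR
  have hRdeg : R.natDegree ≤ Q.natDegree := by
    rw [hR]
    apply Polynomial.natDegree_sum_le_of_forall_le
    intro i hi
    rw [Finset.mem_range] at hi
    exact (Polynomial.natDegree_monomial_le _).trans (by omega)
  have hRf : Polynomial.aeval f R = 0 := by
    rw [hR, map_sum]
    have h1 := congrArg (cart p 1 c) heval
    rw [cart_sum, cart_zero] at h1
    rw [← h1]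
    apply Finset.sum_congr rfl
    intro i _
    rw [Polynomial.aeval_monomial, algMap_eq, hT, mul_comm ((Q.coeff i : E⟦X⟧)), cart_pow_mul p 1 c hc, mul_comm]
  have hR0 : R = 0 := by
    apply hmin _ _ hRf
    have : Q.natDegree < P.natDegree := by
      rw [← hQdeg]
      have : 0 < Q.natDegree := by
        by_contra h
        have h0 : Q.natDegree = 0 := by omega
        rw [h0, zero_mul] at hQdeg
        omega
      nlinarith
    omega
  have hcoef : R.coeff i0 = T i0 := by
    rw [hR, Polynomial.finsetSum_coeff, Finset.sum_eq_single i0]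
    · rw [Polynomial.coeff_monomial, if_pos rfl]
    · intro b _ hb
      rw [Polynomial.coeff_monomial, if_neg hb]
    · intro h; exfalso; apply h; rw [Finset.mem_range]; omega
  rw [hR0, Polynomial.coeff_zero] at hcoef
  apply hcne
  rw [← hT, ← hcoef]; simp

omit [Finite E] in
lemma alg_sum {ι : Type*} (s : Finset ι) (g : ι → E⟦X⟧) (h : ∀ i ∈ s, IsAlgebraic (Polynomial E) (g i)) :
    IsAlgebraic (Polynomial E) (∑ i ∈ s, g i) :=
  (Subalgebra.algebraicClosure (Polynomial E) E⟦X⟧).sum_mem h

omit [Finite E] in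
lemma alg_prod {ι : Type*} (s : Finset ι) (g : ι → E⟦X⟧) (h : ∀ i ∈ s, IsAlgebraic (Polynomial E) (g i)) :
    IsAlgebraic (Polynomial E) (∏ i ∈ s, g i) :=
  (Subalgebra.algebraicClosure (Polynomial E) E⟦X⟧).prod_mem h

omit [Finite E] in
lemma alg_aeval (f : E⟦X⟧) (halg : IsAlgebraic (Polynomial E) f) (P : Polynomial (Polynomial E)) :
    IsAlgebraic (Polynomial E) (Polynomial.aeval f P) := by
  rw [Polynomial.aeval_eq_sum_range]
  apply alg_sum
  intro i _
  rw [Algebra.smul_def]
  exact (isAlgebraic_algebraMap _).mul (halg.pow i)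

include p in
lemma alg_derivative (f : E⟦X⟧) (halg : IsAlgebraic (Polynomial E) f) : IsAlgebraic (Polynomial E) (d⁄dX E f) := by
  obtain ⟨P, h1, h2⟩ := exists_sep p f halg
  obtain ⟨Q, hQ⟩ := chain_rule f P
  rw [h1, map_zero] at hQ
  have h3 : Polynomial.aeval f (Polynomial.derivative P) * d⁄dX E f = - Polynomial.aeval f Q := by
    linear_combination -hQ
  apply IsAlgebraic.of_mul (mem_nonZeroDivisors_of_ne_zero h2) (alg_aeval f halg _)
  rw [h3]
  exact (alg_aeval f halg Q).neg

end Pool.Agent.H509R3.Yao
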