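import Mathlib
import Pool.Agent.H509R3.Yao.Sep
import Pool.Agent.H509R3.Yao.Carlitz

set_option autoImplicit false
set_option linter.unusedSectionVars false
open PowerSeries

namespace Pool.Agent.H509R3.Yao

variable {F E : Type*} [Field F] [Fintype F] [Field E] [Finite E] [Algebra F E]
variable (p k : ℕ) [Fact p.Prime] [CharP F p] [CharP E p] (ω : E)

/-- expansion of a polynomial in `t` at `t = ω + X` -/
noncomputable def phi : Polynomial F →+* E⟦X⟧ :=
  (Polynomial.coeToPowerSeries.ringHom (R := E)).comp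
    ((Polynomial.taylorAlgHom ω).toRingHom.comp (Polynomial.mapRingHom (algebraMap F E)))

omit [Fintype F] [Finite E] in
lemma phi_apply (P : Polynomial F) : phi ω P = ((Polynomial.taylor ω (P.map (algebraMap F E)) : Polynomial E) : E⟦X⟧) := rfl

omit [Fintype F] [Finite E] in
lemma phi_inj : Function.Injective (phi (F := F) ω) := by
  intro P Q h
  rw [phi_apply, phi_apply] at h
  have h1 := Polynomial.coe_injective E h
  have h2 := Polynomial.taylor_injective ω h1
  exact Polynomial.map_injective _ (algebraMap F E).injective h2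

omit [Fintype F] [Finite E] in
lemma phi_ne (P : Polynomial F) (hP : P ≠ 0) : phi ω P ≠ 0 := by
  intro h; exact hP (phi_inj ω (by rw [h, map_zero]))

omit [Fintype F] [Finite E] in
lemma phi_const (P : Polynomial F) : PowerSeries.constantCoeff (phi ω P) = Polynomial.aeval ω P := by
  rw [phi_apply, ← PowerSeries.coeff_zero_eq_constantCoeff_apply, Polynomial.coeff_coe, Polynomial.taylor_coeff_zero,
    Polynomial.eval_map_algebraMap]

omit [Fintype F] [Finite E] in
lemma phi_alg (P : Polynomial F) : IsAlgebraic (Polynomial E) (phi ω P) := by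
  rw [phi_apply, ← algMap_eq]
  exact isAlgebraic_algebraMap _

omit [Fintype F] [Finite E] in
lemma phi_X : phi (F := F) ω Polynomial.X = PowerSeries.X + PowerSeries.C ω := by
  rw [phi_apply, Polynomial.map_X, Polynomial.taylor_X]
  simp

omit [Finite E] in
lemma phi_br (hcard : Fintype.card F = p ^ k) (j : ℕ) : phi ω (br j : Polynomial F) = ww (p ^ k) ω j := by
  unfold br
  rw [map_sub, map_pow, phi_X, hcard, frob_add p k, ← map_pow]
  unfold ww uu aa
  rw [map_sub]
  ring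

omit [Finite E] in
lemma cast_pow_zero (hk : 0 < k) (j : ℕ) (hj : 1 ≤ j) : (((p ^ k) ^ j : ℕ) : E⟦X⟧) = 0 := by
  have : CharP E⟦X⟧ p := charP_of_injective_ringHom (PowerSeries.C_injective (R := E)) p
  rw [CharP.cast_eq_zero_iff E⟦X⟧ p]
  exact dvd_pow (dvd_pow_self p (by omega)) (by omega)

omit [Finite E] in
lemma der_pow_zero (hk : 0 < k) (x : E⟦X⟧) (j : ℕ) (hj : 1 ≤ j) : d⁄dX E (x ^ ((p ^ k) ^ j)) = 0 := by
  rw [PowerSeries.derivative_pow, cast_pow_zero p k hk j hj]
  simp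

omit [Finite E] in
lemma der_ww (hk : 0 < k) (j : ℕ) (hj : 1 ≤ j) : d⁄dX E (ww (p ^ k) ω j) = -1 := by
  unfold ww uu
  rw [map_add, map_sub, der_pow_zero p k hk _ j hj, PowerSeries.derivative_C, PowerSeries.derivative_X]
  ring

section setup

variable (v : Polynomial F)

omit [Finite E] in
lemma R1 (hcard : Fintype.card F = p ^ k) (hv : v.Monic) (j : ℕ) :
    phi ω (Dv v (j + v.natDegree)) * (phi ω v) ^ ((p ^ k) ^ j) * phi ω (DD (F := F) j) = phi ω (DD (F := F) (j + v.natDegree)) := by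
  rw [← Dv_mul v hv j, map_mul, map_mul, map_pow, hcard]

omit [Finite E] in
lemma R2 (hcard : Fintype.card F = p ^ k) (j : ℕ) :
    phi ω (DD (F := F) (j + 1)) = ww (p ^ k) ω (j + 1) * (phi ω (DD (F := F) j)) ^ (p ^ k) := by
  rw [(carlitz (F := F) p j).2, map_mul, map_pow, phi_br p k ω hcard, hcard]

lemma DD_ne (j : ℕ) : (DD j : Polynomial F) ≠ 0 := by
  rw [← prod_Mon, Finset.prod_ne_zero_iff]
  intro P hP
  rw [mem_Mon] at hP
  exact hP.1.ne_zero

omit [Finite E] in
lemma der_DD (hk : 0 < k) (hcard : Fintype.card F = p ^ k) (j : ℕ) (hj : 1 ≤ j) :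
    ww (p ^ k) ω j * d⁄dX E (phi ω (DD (F := F) j)) = - phi ω (DD (F := F) j) := by
  obtain ⟨i, rfl⟩ : ∃ i, j = i + 1 := ⟨j - 1, by omega⟩
  rw [R2 p k ω hcard i, Derivation.leibniz, der_ww p k ω hk _ hj]
  have := der_pow_zero p k hk (phi ω (DD (F := F) i)) 1 (le_refl 1)
  rw [pow_one] at this
  rw [this]
  simp only [smul_eq_mul]
  ring

omit [Finite E] in
lemma ww_ne (hk : 0 < k) (j : ℕ) (hj : 1 ≤ j) : ww (p ^ k) ω j ≠ 0 := by
  intro h
  have := der_ww p k ω hk j hj
  rw [h, map_zero] at this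
  have h2 : (1 : E⟦X⟧) = 0 := by linear_combination this
  exact one_ne_zero h2

omit [Finite E] in
/-- logarithmic derivative of the factors -/
lemma logder (hk : 0 < k) (hcard : Fintype.card F = p ^ k) (hv : v.Monic) (d : ℕ) (hd : v.natDegree = d)
    (hω : ω ^ ((p ^ k) ^ d) = ω) (G : ℕ → E⟦X⟧)
    (hG : ∀ j, 1 ≤ j → uu (p ^ k) ω j * ww (p ^ k) ω j * G j = uu (p ^ k) ω j - ww (p ^ k) ω j) (j : ℕ) (hj : 1 ≤ j) :
    d⁄dX E (phi ω (Dv v (j + d))) = (G j - G (j + d)) * phi ω (Dv v (j + d)) := by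
  subst hd
  have r1 := R1 p k ω v hcard hv j
  have hVne : (phi ω v) ^ ((p ^ k) ^ j) ≠ 0 := pow_ne_zero _ (phi_ne ω v hv.ne_zero)
  have hΘne : phi ω (DD (F := F) j) ≠ 0 := phi_ne ω _ (DD_ne (F := F) j)
  have hV0 : d⁄dX E ((phi ω v) ^ ((p ^ k) ^ j)) = 0 := der_pow_zero p k hk _ j hj
  have hder := congrArg (d⁄dX E) r1
  have e1 := der_DD (F := F) p k ω hk hcard j hj
  have e2 := der_DD (F := F) p k ω hk hcard (j + v.natDegree) (by omega)
  generalize (phi ω v) ^ ((p ^ k) ^ j) = V at *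
  generalize phi ω (DD (F := F) j) = Θ at *
  generalize phi ω (DD (F := F) (j + v.natDegree)) = Θ2 at *
  generalize phi ω (Dv v (j + v.natDegree)) = Δ at *
  rw [Derivation.leibniz, Derivation.leibniz, hV0] at hder
  simp only [smul_eq_mul, mul_zero, zero_add] at hder
  have huw : uu (p ^ k) ω (j + v.natDegree) = uu (p ^ k) ω j := by
    unfold uu; rw [aa_add _ _ _ hω]
  have g1 := hG j hj
  have g2 := hG (j + v.natDegree) (by omega)
  rw [huw] at g2
  have hu : uu (p ^ k) ω j ≠ 0 := uu_ne _ _ _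
  have hw1 : ww (p ^ k) ω j ≠ 0 := ww_ne p k ω hk j hj
  have hw2 : ww (p ^ k) ω (j + v.natDegree) ≠ 0 := ww_ne p k ω hk _ (by omega)
  generalize ww (p ^ k) ω j = w1 at *
  generalize ww (p ^ k) ω (j + v.natDegree) = w2 at *
  generalize uu (p ^ k) ω j = u at *
  -- w1 w2 Δ' = (w2 - w1) Δ
  have hA : w1 * w2 * d⁄dX E Δ = (w2 - w1) * Δ := by
    apply mul_left_cancel₀ (mul_ne_zero hVne hΘne)
    linear_combination (w1 * w2) * hder - (w2 * Δ * V) * e1 + w1 * e2 + w1 * r1
  apply mul_left_cancel₀ (mul_ne_zero hu (mul_ne_zero hw1 hw2))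
  linear_combination u * hA - (w2 * Δ) * g1 + (w1 * Δ) * g2

end setup

end Pool.Agent.H509R3.Yao
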