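import Mathlib
import Pool.Agent.H509R3.Yao.LogDer

set_option autoImplicit false
set_option linter.unusedSectionVars false
open PowerSeries

namespace Pool.Agent.H509R3.Yao

section G
variable {E : Type*} [Field E]

lemma exists_G1 (q : ℕ) (hq : 2 ≤ q) (ω : E) (j : ℕ) (hj : 1 ≤ j) : ∃ g : E⟦X⟧, uu q ω j * ww q ω j * g = uu q ω j - ww q ω j ∧
    (PowerSeries.X : E⟦X⟧) ^ (q ^ j - 2) ∣ g := by
  have hqj : 2 ≤ q ^ j := le_trans hq (Nat.le_self_pow (by omega) q)
  by_cases ha : aa q ω j = 0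
  · have hu : uu q ω j = -PowerSeries.X := by unfold uu; rw [ha, map_zero, zero_sub]
    have hw : ww q ω j = -PowerSeries.X + PowerSeries.X ^ (q ^ j) := by unfold ww; rw [hu]
    have hinv : (1 - (PowerSeries.X : E⟦X⟧) ^ (q ^ j - 1)) * (1 - (PowerSeries.X : E⟦X⟧) ^ (q ^ j - 1))⁻¹ = 1 := by
      apply PowerSeries.mul_inv_cancel
      rw [map_sub, map_one, map_pow, PowerSeries.constantCoeff_X, zero_pow (by omega), sub_zero]
      exact one_ne_zero
    refine ⟨-PowerSeries.X ^ (q ^ j - 2) * (1 - (PowerSeries.X : E⟦X⟧) ^ (q ^ j - 1))⁻¹, ?_, ?_⟩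
    · rw [hu, hw]
      have e1 : (PowerSeries.X : E⟦X⟧) ^ (q ^ j) = PowerSeries.X ^ 2 * PowerSeries.X ^ (q ^ j - 2) := by
        rw [← pow_add]; congr 1; omega
      have e2 : (PowerSeries.X : E⟦X⟧) ^ (q ^ j - 1) = PowerSeries.X * PowerSeries.X ^ (q ^ j - 2) := by
        rw [← pow_succ']; congr 1; omega
      rw [e2] at hinv ⊢
      rw [e1]
      linear_combination (-(PowerSeries.X : E⟦X⟧) ^ 2 * PowerSeries.X ^ (q ^ j - 2)) * hinv
    · rw [neg_mul, dvd_neg]
      exact dvd_mul_right _ _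
  · have hcu : PowerSeries.constantCoeff (uu q ω j) ≠ 0 := by
      unfold uu
      rw [map_sub, PowerSeries.constantCoeff_X, sub_zero, PowerSeries.constantCoeff_C]
      exact ha
    have hcw : PowerSeries.constantCoeff (ww q ω j) ≠ 0 := by
      unfold ww
      rw [map_add, map_pow, PowerSeries.constantCoeff_X, zero_pow (by omega), add_zero]
      exact hcu
    have h1 := PowerSeries.mul_inv_cancel (uu q ω j) hcu
    have h2 := PowerSeries.mul_inv_cancel (ww q ω j) hcw
    refine ⟨-PowerSeries.X ^ (q ^ j) * ((uu q ω j)⁻¹ * (ww q ω j)⁻¹), ?_, ?_⟩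
    · have h3 : uu q ω j - ww q ω j = -PowerSeries.X ^ (q ^ j) := by unfold ww; ring
      rw [h3]
      linear_combination (-(PowerSeries.X : E⟦X⟧) ^ (q ^ j) * (ww q ω j * (ww q ω j)⁻¹)) * h1 - (PowerSeries.X : E⟦X⟧) ^ (q ^ j) * h2
    · rw [neg_mul, dvd_neg]
      exact Dvd.dvd.mul_right (pow_dvd_pow _ (by omega)) _

lemma exists_G (q : ℕ) (hq : 2 ≤ q) (ω : E) : ∃ G : ℕ → E⟦X⟧, (∀ j, 1 ≤ j → uu q ω j * ww q ω j * G j = uu q ω j - ww q ω j) ∧
    (∀ j, 1 ≤ j → (PowerSeries.X : E⟦X⟧) ^ (q ^ j - 2) ∣ G j) := by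
  choose g hg using exists_G1 q hq ω
  refine ⟨fun j => if h : 1 ≤ j then g j h else 0, ?_, ?_⟩
  · intro j hj
    simp only [hj, dif_pos]
    exact (hg j hj).1
  · intro j hj
    simp only [hj, dif_pos]
    exact (hg j hj).2

end G

variable {F E : Type*} [Field F] [Fintype F] [Field E] [Finite E] [Algebra F E]
variable (p k : ℕ) [Fact p.Prime] [CharP F p] [CharP E p] (ω : E)

/-- Abel summation -/
lemma abel_sum (d : ℕ) (n : ℕ → E⟦X⟧) (g G : ℕ → E⟦X⟧) (hg : ∀ j, 1 ≤ j → g (j + d) = G j - G (j + d)) (N : ℕ) :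
    ∑ j ∈ Finset.range (N + d + 1), n j * g j =
      (∑ j ∈ Finset.range (d + 1), n j * g j + ∑ i ∈ Finset.range d, n (i + 1) * G (i + 1)) +
      ∑ j ∈ Finset.range N, (n (j + 1 + d) - n (j + 1)) * G (j + 1) - ∑ i ∈ Finset.range d, n (N + 1 + i) * G (N + 1 + i) := by
  induction N with
  | zero =>
    simp only [zero_add, Finset.range_zero, Finset.sum_empty, add_zero]
    have : ∀ i : ℕ, n (1 + i) * G (1 + i) = n (i + 1) * G (i + 1) := by intro i; rw [add_comm 1 i]
    simp only [this]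
    ring
  | succ N ih =>
    rw [show N + 1 + d + 1 = (N + d + 1) + 1 by ring, Finset.sum_range_succ, ih, Finset.sum_range_succ _ N]
    have h1 : g (N + d + 1) = G (N + 1) - G (N + 1 + d) := by
      rw [← hg (N + 1) (by omega)]; congr 1; ring
    rw [h1]
    have h2 : ∑ i ∈ Finset.range d, n (N + 1 + 1 + i) * G (N + 1 + 1 + i) =
        ∑ i ∈ Finset.range d, n (N + 1 + i) * G (N + 1 + i) + n (N + 1 + d) * G (N + 1 + d) - n (N + 1) * G (N + 1) := by
      have h3 : ∑ i ∈ Finset.range (d + 1), n (N + 1 + i) * G (N + 1 + i) =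
        ∑ i ∈ Finset.range d, n (N + 1 + i) * G (N + 1 + i) + n (N + 1 + d) * G (N + 1 + d) := Finset.sum_range_succ _ _
      have h4 := Finset.sum_range_succ' (fun i => n (N + 1 + i) * G (N + 1 + i)) d
      rw [h3] at h4
      rw [h4, add_zero]
      have : ∀ i : ℕ, n (N + 1 + (i + 1)) * G (N + 1 + (i + 1)) = n (N + 1 + 1 + i) * G (N + 1 + 1 + i) := by
        intro i; rw [show N + 1 + (i + 1) = N + 1 + 1 + i by ring]
      simp only [this]
      ring
    rw [h2]
    have h5 : n (N + d + 1) = n (N + 1 + d) := by congr 1; ring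
    rw [h5]
    ring

/-- logarithmic derivative of a product of powers -/
lemma logder_prod (a : ℕ → E⟦X⟧) (g : ℕ → E⟦X⟧) (hg : ∀ j, d⁄dX E (a j) = g j * a j) (n : ℕ → ℕ) (N : ℕ) :
    d⁄dX E (∏ j ∈ Finset.range N, a j ^ n j) = (∑ j ∈ Finset.range N, (n j : E⟦X⟧) * g j) * ∏ j ∈ Finset.range N, a j ^ n j := by
  induction N with
  | zero => simp
  | succ N ih =>
    rw [Finset.prod_range_succ, Derivation.leibniz, ih, Finset.sum_range_succ, Derivation.leibniz_pow, hg]
    simp only [smul_eq_mul, nsmul_eq_mul]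
    by_cases hn : n N = 0
    · rw [hn]; simp
    · have : a N ^ n N = a N ^ (n N - 1) * a N := by rw [← pow_succ]; congr 1; omega
      rw [this]
      ring

/-- the derivative lowers divisibility by at most one -/
lemma X_dvd_der (e : ℕ) (x : E⟦X⟧) (h : (PowerSeries.X : E⟦X⟧) ^ (e + 1) ∣ x) : (PowerSeries.X : E⟦X⟧) ^ e ∣ d⁄dX E x := by
  obtain ⟨y, rfl⟩ := h
  rw [Derivation.leibniz, Derivation.leibniz_pow]
  simp only [smul_eq_mul, nsmul_eq_mul, Nat.add_sub_cancel]
  apply dvd_add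
  · exact Dvd.dvd.mul_right (pow_dvd_pow _ (by omega)) _
  · apply Dvd.dvd.mul_left
    apply Dvd.dvd.mul_left
    exact dvd_mul_right _ _

theorem main_E (hk : 0 < k) (hcard : Fintype.card F = p ^ k) (v : Polynomial F) (hv : v.Monic) (d : ℕ) (hd0 : 0 < d)
    (hd : v.natDegree = d) (hω : ω ^ ((p ^ k) ^ d) = ω) (hunit : ∀ j, PowerSeries.constantCoeff (phi ω (Dv v j)) ≠ 0)
    (n : ℕ → ℕ) (f : E⟦X⟧) (halg : IsAlgebraic (Polynomial E) f)
    (hconv : ∀ e : ℕ, ∃ N0 : ℕ, ∀ N ≥ N0, (PowerSeries.X : E⟦X⟧) ^ e ∣ f - ∏ j ∈ Finset.range N, (-(phi ω (Dv v j))) ^ n j) :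
    ∃ J, ∀ j ≥ J, (n (j + d) : E) = (n j : E) := by
  have hq2 : 2 ≤ p ^ k := by rw [← hcard]; exact Fintype.one_lt_card
  obtain ⟨G, hG, hGd⟩ := exists_G (p ^ k) hq2 ω
  -- units
  set a : ℕ → E⟦X⟧ := fun j => -(phi ω (Dv v j)) with ha
  have haunit : ∀ j, PowerSeries.constantCoeff (a j) ≠ 0 := by
    intro j; rw [ha]; simp only [map_neg, ne_eq, neg_eq_zero]; exact hunit j
  have hainv : ∀ j, a j * (a j)⁻¹ = 1 := fun j => PowerSeries.mul_inv_cancel _ (haunit j)
  set g : ℕ → E⟦X⟧ := fun j => d⁄dX E (a j) * (a j)⁻¹ with hgdef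
  have hga : ∀ j, d⁄dX E (a j) = g j * a j := by
    intro j; rw [hgdef]; simp only; linear_combination (-d⁄dX E (a j)) * hainv j
  have hgG : ∀ j, 1 ≤ j → g (j + d) = G j - G (j + d) := by
    intro j hj
    have h1 := logder p k ω v hk hcard hv d hd hω G hG j hj
    rw [hgdef]; simp only
    have h2 : d⁄dX E (a (j + d)) = (G j - G (j + d)) * a (j + d) := by
      rw [ha]; simp only [map_neg]; rw [h1]; ring
    rw [h2]
    linear_combination (G j - G (j + d)) * hainv (j + d)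
  -- f is a unit
  have hxunit : ∀ N, PowerSeries.constantCoeff (∏ j ∈ Finset.range N, a j ^ n j) ≠ 0 := by
    intro N
    rw [map_prod, Finset.prod_ne_zero_iff]
    intro j _
    rw [map_pow]
    exact pow_ne_zero _ (haunit j)
  have hfc : PowerSeries.constantCoeff f ≠ 0 := by
    obtain ⟨N0, hN0⟩ := hconv 1
    have h1 := hN0 N0 le_rfl
    rw [pow_one, PowerSeries.X_dvd_iff, map_sub, sub_eq_zero] at h1
    rw [h1]; exact hxunit N0
  have hfinv := PowerSeries.mul_inv_cancel f hfc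
  have hfne : f ≠ 0 := by intro h; rw [h, map_zero] at hfc; exact hfc rfl
  set nn : ℕ → E⟦X⟧ := fun j => (n j : E⟦X⟧) with hnn
  set R : E⟦X⟧ := ∑ j ∈ Finset.range (d + 1), nn j * g j + ∑ i ∈ Finset.range d, nn (i + 1) * G (i + 1) with hR
  set h : E⟦X⟧ := d⁄dX E f * f⁻¹ - R with hh
  -- algebraicity
  have halgcast : ∀ m : ℕ, IsAlgebraic (Polynomial E) ((m : E⟦X⟧)) := fun m => isAlgebraic_natCast (R := Polynomial E) (A := E⟦X⟧) m
  have halg_inv : ∀ x : E⟦X⟧, PowerSeries.constantCoeff x ≠ 0 → IsAlgebraic (Polynomial E) x → IsAlgebraic (Polynomial E) (x⁻¹) := by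
    intro x hx hax
    have hx0 : x ≠ 0 := by intro h0; rw [h0, map_zero] at hx; exact hx rfl
    apply IsAlgebraic.of_mul (mem_nonZeroDivisors_of_ne_zero hx0) hax
    rw [PowerSeries.mul_inv_cancel x hx]
    exact isAlgebraic_one
  have halg_a : ∀ j, IsAlgebraic (Polynomial E) (a j) := fun j => (phi_alg ω _).neg
  have halg_g : ∀ j, IsAlgebraic (Polynomial E) (g j) := by
    intro j
    exact (alg_derivative p (a j) (halg_a j)).mul (halg_inv _ (haunit j) (halg_a j))
  have halg_u : ∀ j, IsAlgebraic (Polynomial E) (uu (p ^ k) ω j) := by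
    intro j
    have : uu (p ^ k) ω j = algebraMap (Polynomial E) E⟦X⟧ (Polynomial.C (aa (p ^ k) ω j) - Polynomial.X) := by
      rw [algMap_eq]; unfold uu; simp
    rw [this]; exact isAlgebraic_algebraMap _
  have halg_w : ∀ j, IsAlgebraic (Polynomial E) (ww (p ^ k) ω j) := by
    intro j
    have : ww (p ^ k) ω j = algebraMap (Polynomial E) E⟦X⟧ (Polynomial.C (aa (p ^ k) ω j) - Polynomial.X + Polynomial.X ^ ((p ^ k) ^ j)) := by
      rw [algMap_eq]; unfold ww uu; simp
    rw [this]; exact isAlgebraic_algebraMap _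
  have halg_G : ∀ j, 1 ≤ j → IsAlgebraic (Polynomial E) (G j) := by
    intro j hj
    apply IsAlgebraic.of_mul (mem_nonZeroDivisors_of_ne_zero (mul_ne_zero (uu_ne (p ^ k) ω j) (ww_ne p k ω hk j hj)))
      ((halg_u j).mul (halg_w j))
    rw [hG j hj]
    exact (halg_u j).sub (halg_w j)
  have halg_h : IsAlgebraic (Polynomial E) h := by
    rw [hh, hR]
    apply IsAlgebraic.sub
    · exact (alg_derivative p f halg).mul (halg_inv f hfc halg)
    · apply IsAlgebraic.add
      · apply alg_sum; intro j _; exact (halgcast _).mul (halg_g j)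
      · apply alg_sum; intro j _; exact (halgcast _).mul (halg_G _ (by omega))
  -- apply core
  have hcore := core p k hk ω d hd0 hω G hG h halg_h (fun j => (n (j + d) : E) - (n j : E)) (by
    intro j
    have hfrob : ∀ m : ℕ, ((m : E)) ^ (p ^ k) = (m : E) := by
      intro m
      have h1 : ((m : F)) ^ (p ^ k) = (m : F) := by rw [← hcard]; exact FiniteField.pow_card _
      have h2 := congrArg (algebraMap F E) h1
      simpa using h2
    have h3 := sub_pow_char_pow (R := E) (p := p) (n (j + d) : E) (n j : E) k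
    rw [h3, hfrob, hfrob]) (by
    intro e
    obtain ⟨N0, hN0⟩ := hconv (e + 1)
    -- G_{N+1+i} divisible by X^e for N large
    refine ⟨max N0 (e + 2), fun N hN => ?_⟩
    have hN1 : N ≥ N0 := le_trans (le_max_left _ _) hN
    have hN2 : N ≥ e + 2 := le_trans (le_max_right _ _) hN
    set x := ∏ j ∈ Finset.range (N + d + 1), a j ^ n j with hx
    have h1 : (PowerSeries.X : E⟦X⟧) ^ (e + 1) ∣ f - x := hN0 (N + d + 1) (by omega)
    have hxinv := PowerSeries.mul_inv_cancel x (hxunit _)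
    have hdx : d⁄dX E x = (∑ j ∈ Finset.range (N + d + 1), nn j * g j) * x := logder_prod a g hga n (N + d + 1)
    have h2 := X_dvd_der e _ h1
    rw [map_sub] at h2
    -- f⁻¹ f' - x⁻¹ x'
    have h3 : (PowerSeries.X : E⟦X⟧) ^ e ∣ d⁄dX E f * f⁻¹ - (∑ j ∈ Finset.range (N + d + 1), nn j * g j) := by
      have h4 : d⁄dX E f * f⁻¹ - (∑ j ∈ Finset.range (N + d + 1), nn j * g j) =
          (d⁄dX E f - d⁄dX E x) * f⁻¹ - (∑ j ∈ Finset.range (N + d + 1), nn j * g j) * f⁻¹ * (f - x) := by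
        rw [hdx]
        linear_combination (∑ j ∈ Finset.range (N + d + 1), nn j * g j) * hfinv
      rw [h4]
      apply dvd_sub
      · exact Dvd.dvd.mul_right h2 _
      · exact Dvd.dvd.mul_left (dvd_trans (pow_dvd_pow _ (by omega)) h1) _
    have h5 := abel_sum d nn g G hgG N
    rw [h5] at h3
    have h6 : h - ∑ j ∈ Finset.range N, PowerSeries.C ((n (j + 1 + d) : E) - (n (j + 1) : E)) * G (j + 1) =
        (d⁄dX E f * f⁻¹ - (∑ j ∈ Finset.range (d + 1), nn j * g j + ∑ i ∈ Finset.range d, nn (i + 1) * G (i + 1) +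
        ∑ j ∈ Finset.range N, (nn (j + 1 + d) - nn (j + 1)) * G (j + 1) - ∑ i ∈ Finset.range d, nn (N + 1 + i) * G (N + 1 + i))) -
        ∑ i ∈ Finset.range d, nn (N + 1 + i) * G (N + 1 + i) := by
      have h7 : ∀ j, PowerSeries.C ((n (j + 1 + d) : E) - (n (j + 1) : E)) = nn (j + 1 + d) - nn (j + 1) := by
        intro j; rw [map_sub, map_natCast, map_natCast]
      simp only [h7]
      rw [hh, hR]
      ring
    rw [h6]
    apply dvd_sub h3
    apply Finset.dvd_sum
    intro i _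
    apply Dvd.dvd.mul_left
    refine dvd_trans (pow_dvd_pow _ ?_) (hGd (N + 1 + i) (by omega))
    have h8 : N + 1 + i < (p ^ k) ^ (N + 1 + i) := Nat.lt_pow_self (by omega)
    omega)
  obtain ⟨J, hJ⟩ := hcore
  refine ⟨J, fun j hj => ?_⟩
  have := hJ j hj
  exact sub_eq_zero.mp this

end Pool.Agent.H509R3.Yao
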