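import Mathlib

set_option autoImplicit false
set_option linter.unusedSectionVars false
open PowerSeries

namespace Pool.Agent.H509R3.Yao

variable {E : Type*} [Field E]

/-- `X`-adic limits -/
def Lim (x : ℕ → E⟦X⟧) (f : E⟦X⟧) : Prop := ∀ e : ℕ, ∃ N0 : ℕ, ∀ N ≥ N0, (PowerSeries.X : E⟦X⟧) ^ e ∣ f - x N

lemma Lim.unique {x : ℕ → E⟦X⟧} {f g : E⟦X⟧} (hf : Lim x f) (hg : Lim x g) : f = g := by
  rw [← sub_eq_zero]
  ext n
  obtain ⟨N1, h1⟩ := hf (n + 1)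
  obtain ⟨N2, h2⟩ := hg (n + 1)
  have h3 := h1 (max N1 N2) (le_max_left _ _)
  have h4 := h2 (max N1 N2) (le_max_right _ _)
  have h5 : (PowerSeries.X : E⟦X⟧) ^ (n + 1) ∣ f - g := by
    have := dvd_sub h3 h4
    rwa [sub_sub_sub_cancel_right] at this
  rw [PowerSeries.X_pow_dvd_iff] at h5
  rw [h5 n (by omega), map_zero]

lemma Lim.const (f : E⟦X⟧) : Lim (fun _ => f) f := fun e => ⟨0, fun N _ => by simp⟩

lemma Lim.mul {x y : ℕ → E⟦X⟧} {f g : E⟦X⟧} (hf : Lim x f) (hg : Lim y g) : Lim (fun N => x N * y N) (f * g) := by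
  intro e
  obtain ⟨N1, h1⟩ := hf e
  obtain ⟨N2, h2⟩ := hg e
  refine ⟨max N1 N2, fun N hN => ?_⟩
  have h3 := h1 N (le_trans (le_max_left _ _) hN)
  have h4 := h2 N (le_trans (le_max_right _ _) hN)
  have : f * g - x N * y N = (f - x N) * g + x N * (g - y N) := by ring
  rw [this]
  exact dvd_add (Dvd.dvd.mul_right h3 _) (Dvd.dvd.mul_left h4 _)

lemma Lim.add {x y : ℕ → E⟦X⟧} {f g : E⟦X⟧} (hf : Lim x f) (hg : Lim y g) : Lim (fun N => x N + y N) (f + g) := by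
  intro e
  obtain ⟨N1, h1⟩ := hf e
  obtain ⟨N2, h2⟩ := hg e
  refine ⟨max N1 N2, fun N hN => ?_⟩
  have h3 := h1 N (le_trans (le_max_left _ _) hN)
  have h4 := h2 N (le_trans (le_max_right _ _) hN)
  have : f + g - (x N + y N) = (f - x N) + (g - y N) := by ring
  rw [this]
  exact dvd_add h3 h4

lemma Lim.pow {x : ℕ → E⟦X⟧} {f : E⟦X⟧} (hf : Lim x f) (m : ℕ) : Lim (fun N => x N ^ m) (f ^ m) := by
  intro e
  obtain ⟨N1, h1⟩ := hf e
  exact ⟨N1, fun N hN => dvd_trans (h1 N hN) (sub_dvd_pow_sub_pow _ _ _)⟩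

lemma Lim.prod {ι : Type*} (s : Finset ι) {x : ι → ℕ → E⟦X⟧} {f : ι → E⟦X⟧} (h : ∀ i ∈ s, Lim (x i) (f i)) :
    Lim (fun N => ∏ i ∈ s, x i N) (∏ i ∈ s, f i) := by
  classical
  induction s using Finset.induction_on with
  | empty => simp only [Finset.prod_empty]; exact Lim.const 1
  | insert a s ha ih =>
    simp only [Finset.prod_insert ha]
    exact (h a (Finset.mem_insert_self a s)).mul (ih (fun i hi => h i (Finset.mem_insert_of_mem hi)))

lemma Lim.subseq {x : ℕ → E⟦X⟧} {f : E⟦X⟧} (hf : Lim x f) (s : ℕ → ℕ) (hs : ∀ N, N ≤ s N) : Lim (fun N => x (s N)) f := by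
  intro e
  obtain ⟨N1, h1⟩ := hf e
  exact ⟨N1, fun N hN => h1 (s N) (le_trans hN (hs N))⟩

lemma exists_lim (x : ℕ → E⟦X⟧) (h : ∀ e : ℕ, ∃ N0 : ℕ, ∀ N ≥ N0, (PowerSeries.X : E⟦X⟧) ^ e ∣ x (N + 1) - x N) : ∃ f, Lim x f := by
  -- Cauchy
  have hC : ∀ e N0, (∀ N ≥ N0, (PowerSeries.X : E⟦X⟧) ^ e ∣ x (N + 1) - x N) → ∀ N ≥ N0, ∀ M, (PowerSeries.X : E⟦X⟧) ^ e ∣ x (N + M) - x N := by
    intro e N0 h0 N hN M
    induction M with
    | zero => simp
    | succ M ih =>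
      have h1 := h0 (N + M) (by omega)
      have : x (N + (M + 1)) - x N = (x (N + M + 1) - x (N + M)) + (x (N + M) - x N) := by
        rw [show N + (M + 1) = N + M + 1 by ring]; ring
      rw [this]
      exact dvd_add h1 ih
  choose N0 hN0 using h
  refine ⟨PowerSeries.mk (fun n => PowerSeries.coeff n (x (N0 (n + 1)))), fun e => ?_⟩
  refine ⟨(Finset.range (e + 1)).sup N0, fun N hN => ?_⟩
  rw [PowerSeries.X_pow_dvd_iff]
  intro m hm
  rw [map_sub, PowerSeries.coeff_mk, sub_eq_zero]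
  have h1 : N0 (m + 1) ≤ N := le_trans (Finset.le_sup (f := N0) (Finset.mem_range.mpr (by omega))) hN
  obtain ⟨M, rfl⟩ := Nat.exists_eq_add_of_le h1
  have h2 := hC (m + 1) (N0 (m + 1)) (hN0 (m + 1)) (N0 (m + 1)) le_rfl M
  rw [PowerSeries.X_pow_dvd_iff] at h2
  have h3 := h2 m (by omega)
  rw [map_sub, sub_eq_zero] at h3
  exact h3.symm

/-- products of powers of a sequence tending to `1` converge -/
lemma exists_lim_prod (a : ℕ → E⟦X⟧) (ha : Lim a 1) (n : ℕ → ℕ) : ∃ f, Lim (fun N => ∏ j ∈ Finset.range N, a j ^ n j) f := by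
  apply exists_lim
  intro e
  obtain ⟨N0, h0⟩ := ha e
  refine ⟨N0, fun N hN => ?_⟩
  rw [Finset.prod_range_succ]
  have h1 := h0 N hN
  have h2 : (1 : E⟦X⟧) - a N ∣ 1 ^ n N - a N ^ n N := sub_dvd_pow_sub_pow _ _ _
  rw [one_pow] at h2
  have h3 : (∏ x ∈ Finset.range N, a x ^ n x) * a N ^ n N - ∏ x ∈ Finset.range N, a x ^ n x =
    (-∏ x ∈ Finset.range N, a x ^ n x) * (1 - a N ^ n N) := by ring
  rw [h3]
  exact Dvd.dvd.mul_left (dvd_trans h1 h2) _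

/-- the limit of a product of units tending to 1 is a unit -/
lemma lim_const_ne {x : ℕ → E⟦X⟧} {f : E⟦X⟧} (hf : Lim x f) (hx : ∀ N, PowerSeries.constantCoeff (x N) ≠ 0) :
    PowerSeries.constantCoeff f ≠ 0 := by
  obtain ⟨N0, hN0⟩ := hf 1
  have h1 := hN0 N0 le_rfl
  rw [pow_one, PowerSeries.X_dvd_iff, map_sub, sub_eq_zero] at h1
  rw [h1]; exact hx N0

end Pool.Agent.H509R3.Yao
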