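import Mathlib
import Pool.Agent.H509R3.Yao.LogDer
import Pool.Agent.H509R3.Yao.Lim

set_option autoImplicit false
set_option linter.unusedSectionVars false
open PowerSeries

namespace Pool.Agent.H509R3.Yao

section Wil

open Polynomial

variable {F E : Type*} [Field F] [Fintype F] [Field E] [Finite E] [Algebra F E]

lemma prod_nonzero_eq_neg_one [Fintype E] [DecidableEq E] : ∏ x : E, (if x = 0 then (1 : E) else x) = -1 := by
  classical
  have h1 : ∏ x : E, (if x = 0 then (1 : E) else x) = ∏ x ∈ Finset.univ.filter (fun x : E => x ≠ 0), x := by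
    rw [Finset.prod_filter]
    apply Finset.prod_congr rfl
    intro x _
    by_cases hx : x = 0 <;> simp [hx]
  rw [h1]
  have h2 : ∏ x ∈ Finset.univ.filter (fun x : E => x ≠ 0), x = ∏ x : {x : E // x ≠ 0}, (x : E) :=
    Finset.prod_subtype _ (fun x => by simp) _
  rw [h2]
  have h3 : ∏ x : Eˣ, (x : E) = ∏ x : {x : E // x ≠ 0}, (x : E) := by
    apply Fintype.prod_equiv unitsEquivNeZero
    intro x; rfl
  rw [← h3]
  have h4 := FiniteField.prod_univ_units_id_eq_neg_one (K := E)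
  have h5 := congrArg (fun u : Eˣ => (u : E)) h4
  simpa using h5

lemma wilson (ω : E) (v : F[X]) (hv : v.Monic) (hω0 : aeval ω v = 0) (hker : ∀ P : F[X], aeval ω P = 0 → v ∣ P)
    (hE : Nat.card E = Fintype.card F ^ v.natDegree) (j : ℕ) :
    aeval ω (Dv v (j + v.natDegree)) = -1 := by
  classical
  have : Fintype E := Fintype.ofFinite E
  set d := v.natDegree with hd
  have himg : (Mon (j + d) : Finset F[X]) = ((Mon j) ×ˢ (Finset.univ : Finset (Fin d → F))).image (fun x => v * x.1 + vecPoly d x.2) := by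
    ext P
    rw [Finset.mem_image, mem_Mon]
    constructor
    · rintro ⟨h1, h2⟩
      have hdiv := modByMonic_add_div P v
      have hdeg : (P %ₘ v).degree < v.degree := degree_modByMonic_lt P hv
      rw [degree_eq_natDegree hv.ne_zero] at hdeg
      refine ⟨(P /ₘ v, fun i => (P %ₘ v).coeff i), ?_, ?_⟩
      · rw [Finset.mem_product]
        refine ⟨?_, Finset.mem_univ _⟩
        rw [mem_Mon]
        refine ⟨?_, ?_⟩
        · rw [Monic, leadingCoeff_divByMonic_of_monic hv]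
          · exact h1
          · rw [degree_eq_natDegree hv.ne_zero, degree_eq_natDegree h1.ne_zero, h2]
            exact_mod_cast Nat.le_add_left _ _
        · rw [natDegree_divByMonic P hv, h2]; omega
      · simp only
        rw [add_comm, ← hdiv]
        congr 1
        · ext i
          rw [vecPoly_coeff, hdiv]
          split_ifs with h
          · rfl
          · exact (coeff_eq_zero_of_degree_lt (lt_of_lt_of_le hdeg (by exact_mod_cast (not_lt.mp h)))).symm
        · rw [hdiv]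
    · rintro ⟨⟨Q, a⟩, h1, rfl⟩
      rw [Finset.mem_product] at h1
      have hQ := (mem_Mon j Q).mp h1.1
      have hm : (v * Q).Monic := hv.mul hQ.1
      have hdeg : (v * Q).natDegree = j + d := by rw [hv.natDegree_mul hQ.1, hQ.2]; ring
      have hlt : (vecPoly d a).degree < (v * Q).degree := by
        rw [degree_eq_natDegree hm.ne_zero, hdeg]
        refine lt_of_lt_of_le (vecPoly_degree d a) ?_
        exact_mod_cast Nat.le_add_left _ _
      refine ⟨hm.add_of_left hlt, ?_⟩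
      apply natDegree_eq_of_degree_eq_some
      rw [degree_add_eq_left_of_degree_lt hlt, degree_eq_natDegree hm.ne_zero, hdeg]
  have hinj : ∀ x ∈ ((Mon j) ×ˢ (Finset.univ : Finset (Fin d → F))), ∀ y ∈ ((Mon j) ×ˢ (Finset.univ : Finset (Fin d → F))),
      v * x.1 + vecPoly d x.2 = v * y.1 + vecPoly d y.2 → x = y := by
    rintro ⟨Q, a⟩ _ ⟨Q', a'⟩ _ h
    simp only at h
    have hdv : (v.degree) = (d : WithBot ℕ) := degree_eq_natDegree hv.ne_zero
    have h1 : (v * Q + vecPoly d a) /ₘ v = Q ∧ (v * Q + vecPoly d a) %ₘ v = vecPoly d a :=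
      div_modByMonic_unique Q (vecPoly d a) hv ⟨add_comm _ _, by rw [hdv]; exact vecPoly_degree d a⟩
    have h2 : (v * Q' + vecPoly d a') /ₘ v = Q' ∧ (v * Q' + vecPoly d a') %ₘ v = vecPoly d a' :=
      div_modByMonic_unique Q' (vecPoly d a') hv ⟨add_comm _ _, by rw [hdv]; exact vecPoly_degree d a'⟩
    rw [h] at h1
    have e1 : Q = Q' := by rw [← h1.1, h2.1]
    have e2 : vecPoly d a = vecPoly d a' := by rw [← h1.2, h2.2]
    have e3 : a = a' := vecPoly_inj d (by simp only [e2])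
    rw [e1, e3]
  have hvan : ∀ x : F[X] × (Fin d → F), (aeval ω) (v * x.1 + vecPoly d x.2) = aeval ω (vecPoly d x.2) := by
    intro x; rw [map_add, map_mul, hω0, zero_mul, zero_add]
  have hfac : ∀ x : F[X] × (Fin d → F), (v ∣ v * x.1 + vecPoly d x.2) ↔ aeval ω (vecPoly d x.2) = 0 := by
    intro x
    constructor
    · rintro ⟨y, hy⟩
      rw [← hvan x, hy, map_mul, hω0, zero_mul]
    · intro h
      exact dvd_add (dvd_mul_right _ _) (hker _ h)
  unfold Dv
  rw [map_prod, Finset.prod_filter, himg, Finset.prod_image hinj]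
  have hstep : ∀ x ∈ ((Mon j) ×ˢ (Finset.univ : Finset (Fin d → F))),
      (if ¬ v ∣ v * x.1 + vecPoly d x.2 then (aeval ω) (v * x.1 + vecPoly d x.2) else (1 : E)) =
      (if aeval ω (vecPoly d x.2) = 0 then (1 : E) else aeval ω (vecPoly d x.2)) := by
    intro x _
    rw [hfac x, hvan x]
    by_cases h : aeval ω (vecPoly d x.2) = 0 <;> simp [h]
  rw [Finset.prod_congr rfl hstep, Finset.prod_product]
  simp only [Finset.prod_const, card_Mon]
  have hbij : Function.Bijective (fun a : Fin d → F => aeval ω (vecPoly d a)) := by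
    rw [Fintype.bijective_iff_injective_and_card]
    constructor
    · intro a b hab
      simp only at hab
      have h1 : aeval ω (vecPoly d a - vecPoly d b) = 0 := by rw [map_sub, hab, sub_self]
      have h2 := hker _ h1
      have h3 : vecPoly d a - vecPoly d b = 0 := by
        apply eq_zero_of_dvd_of_degree_lt h2
        rw [degree_eq_natDegree hv.ne_zero]
        exact lt_of_le_of_lt (degree_sub_le _ _) (max_lt (vecPoly_degree d a) (vecPoly_degree d b))
      exact vecPoly_inj d (by simp only [sub_eq_zero.mp h3])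
    · rw [Nat.card_eq_fintype_card] at hE
      rw [hE]; simp
  have hprod : ∏ x : Fin d → F, (if aeval ω (vecPoly d x) = 0 then (1 : E) else aeval ω (vecPoly d x)) = -1 := by
    rw [← prod_nonzero_eq_neg_one (E := E)]
    exact Function.Bijective.prod_comp hbij (fun x => if x = 0 then (1 : E) else x)
  rw [hprod]
  have h1 : (-1 : F) ^ (Fintype.card F ^ j) = -1 := FiniteField.pow_card_pow j (-1 : F)
  have h2 := congrArg (algebraMap F E) h1
  simpa using h2

end Wil

variable {F E : Type*} [Field F] [Fintype F] [Field E] [Finite E] [Algebra F E]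
variable (p k : ℕ) [Fact p.Prime] [CharP F p] [CharP E p] (ω : E)

/-- `B_m = ∏_{i<d} w_{m-i}^{q^i}` -/
noncomputable def BB (q : ℕ) (ω : E) (d m : ℕ) : E⟦X⟧ := ∏ i ∈ Finset.range d, (ww q ω (m - i)) ^ (q ^ i)

lemma DD_rec (hcard : Fintype.card F = p ^ k) (j d : ℕ) :
    phi ω (DD (F := F) (j + d)) = (phi ω (DD (F := F) j)) ^ ((p ^ k) ^ d) * BB (p ^ k) ω d (j + d) := by
  induction d with
  | zero => simp [BB]
  | succ d ih =>
    rw [← add_assoc, R2 p k ω hcard, ih]
    unfold BB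
    rw [Finset.prod_range_succ', mul_pow, ← pow_mul, ← pow_succ, ← Finset.prod_pow, pow_zero, pow_one, Nat.sub_zero]
    have : ∀ i ∈ Finset.range d, (ww (p ^ k) ω (j + d - i) ^ ((p ^ k) ^ i)) ^ (p ^ k) =
        ww (p ^ k) ω (j + d + 1 - (i + 1)) ^ ((p ^ k) ^ (i + 1)) := by
      intro i _
      rw [← pow_mul, ← pow_succ]
      congr 2; omega
    rw [Finset.prod_congr rfl this]
    ring

lemma del_rec (hk : 0 < k) (hcard : Fintype.card F = p ^ k) (v : Polynomial F) (hv : v.Monic) (i : ℕ) (hd0 : 0 < v.natDegree) :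
    phi ω (Dv v (i + v.natDegree + v.natDegree)) * BB (p ^ k) ω v.natDegree (i + v.natDegree) =
      (phi ω (Dv v (i + v.natDegree))) ^ ((p ^ k) ^ v.natDegree) * BB (p ^ k) ω v.natDegree (i + v.natDegree + v.natDegree) := by
  set d := v.natDegree with hd
  have r1 := R1 p k ω v hcard hv (i + d)
  have r2 := R1 p k ω v hcard hv i
  rw [← hd] at r1 r2
  have e1 := DD_rec (F := F) p k ω hcard (i + d) d
  have e2 := DD_rec (F := F) p k ω hcard i d
  have hVne : (phi ω v) ^ ((p ^ k) ^ (i + d)) ≠ 0 := pow_ne_zero _ (phi_ne ω v hv.ne_zero)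
  have hΘne : (phi ω (DD (F := F) i)) ^ ((p ^ k) ^ d) ≠ 0 := pow_ne_zero _ (phi_ne ω _ (DD_ne (F := F) i))
  have r3 : (phi ω (Dv v (i + d))) ^ ((p ^ k) ^ d) * (phi ω v) ^ ((p ^ k) ^ (i + d)) * (phi ω (DD (F := F) i)) ^ ((p ^ k) ^ d) =
      (phi ω (DD (F := F) (i + d))) ^ ((p ^ k) ^ d) := by
    rw [← r2, mul_pow, mul_pow, ← pow_mul (phi ω v), ← pow_add]
  apply mul_left_cancel₀ hVne
  apply mul_left_cancel₀ hΘne
  rw [e2] at r1 r3
  rw [e1, e2] at r1
  generalize (phi ω (Dv v (i + d))) ^ ((p ^ k) ^ d) = δ1 at *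
  generalize phi ω (Dv v (i + d + d)) = δ2 at *
  generalize (phi ω v) ^ ((p ^ k) ^ (i + d)) = V at *
  generalize (phi ω (DD (F := F) i)) ^ ((p ^ k) ^ d) = Θ at *
  generalize BB (p ^ k) ω d (i + d) = B1 at *
  generalize BB (p ^ k) ω d (i + d + d) = B2 at *
  linear_combination r1 - B2 * r3

/-- `a_j = - phi(D_{j,v})` -/
noncomputable def aj (v : Polynomial F) (ω : E) (j : ℕ) : E⟦X⟧ := -(phi ω (Dv v j))

lemma neg_pow_q (hk : 0 < k) (x : E⟦X⟧) (d : ℕ) : (-x) ^ ((p ^ k) ^ d) = -(x ^ ((p ^ k) ^ d)) := by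
  have h := frob_add p k d x (-x)
  rw [add_neg_cancel, zero_pow (by have := (Fact.out : p.Prime).pos; positivity)] at h
  linear_combination -h

lemma aj_rec (hk : 0 < k) (hcard : Fintype.card F = p ^ k) (v : Polynomial F) (hv : v.Monic) (j : ℕ) (hd0 : 0 < v.natDegree)
    (hj : v.natDegree ≤ j) :
    aj v ω (j + v.natDegree) * BB (p ^ k) ω v.natDegree j =
      (aj v ω j) ^ ((p ^ k) ^ v.natDegree) * BB (p ^ k) ω v.natDegree (j + v.natDegree) := by
  obtain ⟨i, rfl⟩ : ∃ i, j = i + v.natDegree := ⟨j - v.natDegree, by omega⟩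
  have := del_rec p k ω hk hcard v hv i hd0
  unfold aj
  rw [neg_pow_q p k hk]
  linear_combination -this

/-- `U_m = ∏_{i<d} u_{m-i}^{q^i}` -/
noncomputable def UUm (q : ℕ) (ω : E) (d m : ℕ) : E⟦X⟧ := ∏ i ∈ Finset.range d, (uu q ω (m - i)) ^ (q ^ i)

lemma ww_pow_sub (d m i : ℕ) (hi : i ≤ m) :
    (ww (p ^ k) ω (m - i)) ^ ((p ^ k) ^ i) = (uu (p ^ k) ω (m - i)) ^ ((p ^ k) ^ i) + PowerSeries.X ^ ((p ^ k) ^ m) := by
  unfold ww
  rw [frob_add p k i]
  have : ((PowerSeries.X : E⟦X⟧) ^ ((p ^ k) ^ (m - i))) ^ ((p ^ k) ^ i) = PowerSeries.X ^ ((p ^ k) ^ m) := by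
    rw [← pow_mul PowerSeries.X, ← pow_add, Nat.sub_add_cancel hi]
  rw [this]

lemma prod_cong (e : ℕ) (s : Finset ℕ) (x y : ℕ → E⟦X⟧) (h : ∀ i ∈ s, (PowerSeries.X : E⟦X⟧) ^ e ∣ x i - y i) :
    (PowerSeries.X : E⟦X⟧) ^ e ∣ ∏ i ∈ s, x i - ∏ i ∈ s, y i := by
  classical
  induction s using Finset.induction_on with
  | empty => simp
  | insert a s ha ih =>
    rw [Finset.prod_insert ha, Finset.prod_insert ha]
    have h1 := h a (Finset.mem_insert_self a s)
    have h2 := ih (fun i hi => h i (Finset.mem_insert_of_mem hi))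
    have : x a * ∏ i ∈ s, x i - y a * ∏ i ∈ s, y i = (x a - y a) * ∏ i ∈ s, x i + y a * (∏ i ∈ s, x i - ∏ i ∈ s, y i) := by ring
    rw [this]
    exact dvd_add (Dvd.dvd.mul_right h1 _) (Dvd.dvd.mul_left h2 _)

lemma BB_UU (d m : ℕ) (hm : d ≤ m) : (PowerSeries.X : E⟦X⟧) ^ ((p ^ k) ^ m) ∣ BB (p ^ k) ω d m - UUm (p ^ k) ω d m := by
  unfold BB UUm
  apply prod_cong
  intro i hi
  rw [Finset.mem_range] at hi
  rw [ww_pow_sub p k ω d m i (by omega), add_sub_cancel_left]

lemma UU_per (d m : ℕ) (hm : d ≤ m) (hω : ω ^ ((p ^ k) ^ d) = ω) : UUm (p ^ k) ω d (m + d) = UUm (p ^ k) ω d m := by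
  unfold UUm
  apply Finset.prod_congr rfl
  intro i hi
  rw [Finset.mem_range] at hi
  have : uu (p ^ k) ω (m + d - i) = uu (p ^ k) ω (m - i) := by
    rw [show m + d - i = (m - i) + d by omega]
    unfold uu; rw [aa_add _ _ _ hω]
  rw [this]

lemma BB_BB (d m : ℕ) (hm : d ≤ m) (hω : ω ^ ((p ^ k) ^ d) = ω) :
    (PowerSeries.X : E⟦X⟧) ^ ((p ^ k) ^ m) ∣ BB (p ^ k) ω d (m + d) - BB (p ^ k) ω d m := by
  have h1 := BB_UU p k ω d m hm
  have h2 := BB_UU p k ω d (m + d) (by omega)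
  rw [UU_per p k ω d m hm hω] at h2
  have h3 : (PowerSeries.X : E⟦X⟧) ^ ((p ^ k) ^ m) ∣ BB (p ^ k) ω d (m + d) - UUm (p ^ k) ω d m :=
    dvd_trans (pow_dvd_pow _ (Nat.pow_le_pow_right (by have := (Fact.out : p.Prime).pos; positivity) (by omega))) h2
  have := dvd_sub h3 h1
  rwa [sub_sub_sub_cancel_right] at this

/-- `w_j ∣ X` -/
lemma ww_dvd_X (hk : 0 < k) (j : ℕ) (hj : 1 ≤ j) : ww (p ^ k) ω j ∣ (PowerSeries.X : E⟦X⟧) := by
  have hq2 : 2 ≤ p ^ k := by
    calc 2 ≤ p := (Fact.out : p.Prime).two_le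
      _ = p ^ 1 := (pow_one p).symm
      _ ≤ p ^ k := Nat.pow_le_pow_right (Fact.out : p.Prime).pos hk
  have hqj : 2 ≤ (p ^ k) ^ j := le_trans hq2 (Nat.le_self_pow (by omega) _)
  by_cases ha : aa (p ^ k) ω j = 0
  · have hw : ww (p ^ k) ω j = PowerSeries.X * (-(1 - PowerSeries.X ^ ((p ^ k) ^ j - 1))) := by
      unfold ww uu
      rw [ha, map_zero, zero_sub]
      have e2 : (PowerSeries.X : E⟦X⟧) ^ ((p ^ k) ^ j) = PowerSeries.X * PowerSeries.X ^ ((p ^ k) ^ j - 1) := by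
        rw [← pow_succ']; congr 1; omega
      rw [e2]; ring
    have hu : IsUnit (-(1 - (PowerSeries.X : E⟦X⟧) ^ ((p ^ k) ^ j - 1))) := by
      rw [IsUnit.neg_iff, PowerSeries.isUnit_iff_constantCoeff]
      rw [map_sub, map_one, map_pow, PowerSeries.constantCoeff_X, zero_pow (by omega), sub_zero]
      exact isUnit_one
    rw [hw, hu.mul_right_dvd]
  · have hu : IsUnit (ww (p ^ k) ω j) := by
      rw [PowerSeries.isUnit_iff_constantCoeff]
      unfold ww uu
      rw [map_add, map_pow, PowerSeries.constantCoeff_X, zero_pow (by omega), add_zero, map_sub, PowerSeries.constantCoeff_C,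
        PowerSeries.constantCoeff_X, sub_zero]
      exact isUnit_iff_ne_zero.mpr ha
    exact hu.dvd

lemma sum_q_lt (q : ℕ) (hq : 2 ≤ q) (d : ℕ) : ∑ i ∈ Finset.range d, q ^ i < q ^ d := by
  induction d with
  | zero => simp
  | succ d ih =>
    rw [Finset.sum_range_succ, pow_succ]
    nlinarith [Nat.pow_pos (n := d) (show 0 < q by omega)]

lemma BB_dvd (hk : 0 < k) (d m : ℕ) (hm : d ≤ m) :
    BB (p ^ k) ω d m ∣ (PowerSeries.X : E⟦X⟧) ^ (∑ i ∈ Finset.range d, (p ^ k) ^ i) := by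
  unfold BB
  rw [← Finset.prod_pow_eq_pow_sum]
  apply Finset.prod_dvd_prod_of_dvd
  intro i hi
  rw [Finset.mem_range] at hi
  exact pow_dvd_pow_of_dvd (ww_dvd_X p k ω hk (m - i) (by omega)) _

lemma aj_step (hk : 0 < k) (hcard : Fintype.card F = p ^ k) (v : Polynomial F) (hv : v.Monic) (j d : ℕ) (hd : v.natDegree = d)
    (hd0 : 0 < d) (hj : d ≤ j) (hω : ω ^ ((p ^ k) ^ d) = ω) (e : ℕ) (he : e + (p ^ k) ^ d ≤ (p ^ k) ^ j) :
    (PowerSeries.X : E⟦X⟧) ^ e ∣ aj v ω (j + d) - (aj v ω j) ^ ((p ^ k) ^ d) := by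
  subst hd
  have hq2 : 2 ≤ p ^ k := by
    calc 2 ≤ p := (Fact.out : p.Prime).two_le
      _ = p ^ 1 := (pow_one p).symm
      _ ≤ p ^ k := Nat.pow_le_pow_right (Fact.out : p.Prime).pos hk
  have h1 := aj_rec p k ω hk hcard v hv j hd0 hj
  have h2 := BB_BB p k ω v.natDegree j hj hω
  obtain ⟨c, hc⟩ := BB_dvd p k ω hk v.natDegree j hj
  set s := ∑ i ∈ Finset.range v.natDegree, (p ^ k) ^ i with hs
  have hslt : s < (p ^ k) ^ v.natDegree := sum_q_lt _ hq2 _
  have h3 : (PowerSeries.X : E⟦X⟧) ^ (s + e) ∣ PowerSeries.X ^ s * (aj v ω (j + v.natDegree) - (aj v ω j) ^ ((p ^ k) ^ v.natDegree)) := by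
    have h4 : PowerSeries.X ^ s * (aj v ω (j + v.natDegree) - (aj v ω j) ^ ((p ^ k) ^ v.natDegree)) =
        c * (aj v ω j) ^ ((p ^ k) ^ v.natDegree) * (BB (p ^ k) ω v.natDegree (j + v.natDegree) - BB (p ^ k) ω v.natDegree j) := by
      rw [hc]
      linear_combination c * h1
    rw [h4]
    apply Dvd.dvd.mul_left
    exact dvd_trans (pow_dvd_pow _ (by omega)) h2
  rw [pow_add] at h3
  exact (mul_dvd_mul_iff_left (pow_ne_zero _ PowerSeries.X_ne_zero)).mp h3

lemma aj_lim (hk : 0 < k) (hcard : Fintype.card F = p ^ k) (v : Polynomial F) (hv : v.Monic) (d : ℕ) (hd : v.natDegree = d)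
    (hd0 : 0 < d) (hω : ω ^ ((p ^ k) ^ d) = ω) (hc : ∀ j, d ≤ j → PowerSeries.constantCoeff (aj v ω j) = 1) :
    Lim (aj v ω) 1 := by
  have hq2 : 2 ≤ p ^ k := by
    calc 2 ≤ p := (Fact.out : p.Prime).two_le
      _ = p ^ 1 := (pow_one p).symm
      _ ≤ p ^ k := Nat.pow_le_pow_right (Fact.out : p.Prime).pos hk
  have key : ∀ e : ℕ, ∃ N0 : ℕ, ∀ N ≥ N0, (PowerSeries.X : E⟦X⟧) ^ (e + 1) ∣ 1 - aj v ω N := by
    intro e
    induction e with
    | zero =>
      refine ⟨d, fun N hN => ?_⟩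
      rw [zero_add, pow_one, PowerSeries.X_dvd_iff, map_sub, hc N hN, map_one, sub_self]
    | succ e ih =>
      obtain ⟨N0, hN0⟩ := ih
      refine ⟨max N0 (d + e + 2) + d, fun N hN => ?_⟩
      obtain ⟨j, rfl⟩ : ∃ j, N = j + d := ⟨N - d, by omega⟩
      have hj1 : j ≥ N0 := by have := le_max_left N0 (d + e + 2); omega
      have hj2 : j ≥ d + e + 2 := by have := le_max_right N0 (d + e + 2); omega
      have h1 := hN0 j hj1
      have h2 : (PowerSeries.X : E⟦X⟧) ^ (e + 1 + 1) ∣ 1 - (aj v ω j) ^ ((p ^ k) ^ d) := by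
        have h3 : 1 - (aj v ω j) ^ ((p ^ k) ^ d) = (1 - aj v ω j) ^ ((p ^ k) ^ d) := by
          rw [sub_eq_add_neg 1 (aj v ω j), frob_add p k d, neg_pow_q p k hk, one_pow]; ring
        rw [h3]
        have h4 := pow_dvd_pow_of_dvd h1 ((p ^ k) ^ d)
        rw [← pow_mul] at h4
        refine dvd_trans (pow_dvd_pow _ ?_) h4
        have : 2 ≤ (p ^ k) ^ d := le_trans hq2 (Nat.le_self_pow (by omega) _)
        nlinarith
      have h5 := aj_step p k ω hk hcard v hv j d hd hd0 (by omega) hω (e + 1 + 1) (by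
        have h6 : (p ^ k) ^ (d + e + 2) ≤ (p ^ k) ^ j := Nat.pow_le_pow_right (by omega) hj2
        have h7 : (p ^ k) ^ (d + e + 2) = (p ^ k) ^ d * (p ^ k) ^ (e + 2) := by rw [← pow_add, add_assoc]
        have h8 : e + 2 < (p ^ k) ^ (e + 2) := Nat.lt_pow_self (by omega)
        have h9 : 1 ≤ (p ^ k) ^ d := Nat.pow_pos (by omega)
        nlinarith)
      have := dvd_sub h2 h5
      have h10 : 1 - aj v ω (j + d) = 1 - (aj v ω j) ^ ((p ^ k) ^ d) - (aj v ω (j + d) - (aj v ω j) ^ ((p ^ k) ^ d)) := by ring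
      rw [h10]; exact this
  intro e
  obtain ⟨N0, h⟩ := key e
  exact ⟨N0, fun N hN => dvd_trans (pow_dvd_pow _ (by omega)) (h N hN)⟩

end Pool.Agent.H509R3.Yao
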