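import Mathlib
import Pool.Agent.H509R3.Yao.Main
import Pool.Agent.H509R3.Yao.Wilson

set_option autoImplicit false
set_option linter.unusedSectionVars false
open PowerSeries

namespace Pool.Agent.H509R3.Yao

variable {F E : Type*} [Field F] [Fintype F] [Field E] [Finite E] [Algebra F E]
variable (p k : ℕ) [Fact p.Prime] [CharP F p] [CharP E p] (ω : E)

lemma two_le_q (hk : 0 < k) : 2 ≤ p ^ k := by
  calc 2 ≤ p := (Fact.out : p.Prime).two_le
    _ = p ^ 1 := (pow_one p).symm
    _ ≤ p ^ k := Nat.pow_le_pow_right (Fact.out : p.Prime).pos hk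

lemma BB_lim (hk : 0 < k) (d s : ℕ) (hd0 : 0 < d) (hs : d ≤ s) (hω : ω ^ ((p ^ k) ^ d) = ω) :
    Lim (fun N => BB (p ^ k) ω d (s + N * d)) (UUm (p ^ k) ω d s) := by
  have hU : ∀ N, UUm (p ^ k) ω d (s + N * d) = UUm (p ^ k) ω d s := by
    intro N
    induction N with
    | zero => simp
    | succ N ih =>
      rw [← ih, show s + (N + 1) * d = s + N * d + d by ring]
      exact UU_per p k ω d (s + N * d) (by nlinarith) hω
  intro e
  refine ⟨e, fun N hN => ?_⟩
  have h1 := BB_UU p k ω d (s + N * d) (by nlinarith)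
  rw [hU N] at h1
  rw [dvd_sub_comm]
  refine dvd_trans (pow_dvd_pow _ ?_) h1
  have h2 : s + N * d < (p ^ k) ^ (s + N * d) := Nat.lt_pow_self (by have := two_le_q p k hk; omega)
  nlinarith

lemma UU_ne (q d m : ℕ) (ω : E) : UUm q ω d m ≠ 0 := by
  unfold UUm
  rw [Finset.prod_ne_zero_iff]
  intro i _
  exact pow_ne_zero _ (uu_ne q ω _)

lemma alg_uu (q : ℕ) (ω : E) (j : ℕ) : IsAlgebraic (Polynomial E) (uu q ω j) := by
  have : uu q ω j = algebraMap (Polynomial E) E⟦X⟧ (Polynomial.C (aa q ω j) - Polynomial.X) := by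
    rw [algMap_eq]; unfold uu; simp
  rw [this]; exact isAlgebraic_algebraMap _

lemma alg_ww (q : ℕ) (ω : E) (j : ℕ) : IsAlgebraic (Polynomial E) (ww q ω j) := by
  have : ww q ω j = algebraMap (Polynomial E) E⟦X⟧ (Polynomial.C (aa q ω j) - Polynomial.X + Polynomial.X ^ (q ^ j)) := by
    rw [algMap_eq]; unfold ww uu; simp
  rw [this]; exact isAlgebraic_algebraMap _

/-- the Gross-Koblitz type recursion: `∏_{l} a_{s+ld}` is algebraic -/
lemma alg_P (hk : 0 < k) (hcard : Fintype.card F = p ^ k) (v : Polynomial F) (hv : v.Monic) (d : ℕ) (hd : v.natDegree = d)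
    (hd0 : 0 < d) (hω : ω ^ ((p ^ k) ^ d) = ω) (hunit : ∀ j, PowerSeries.constantCoeff (aj v ω j) ≠ 0) (s : ℕ) (hs : d ≤ s)
    (P : E⟦X⟧) (hP : Lim (fun N => ∏ l ∈ Finset.range N, aj v ω (s + l * d)) P) : IsAlgebraic (Polynomial E) P := by
  have hq2 := two_le_q p k hk
  have hT : ∀ N, (∏ l ∈ Finset.range (N + 1), aj v ω (s + l * d)) * BB (p ^ k) ω d s =
      aj v ω s * (∏ l ∈ Finset.range N, aj v ω (s + l * d)) ^ ((p ^ k) ^ d) * BB (p ^ k) ω d (s + N * d) := by
    intro N
    induction N with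
    | zero => simp
    | succ N ih =>
      have h1 := aj_rec p k ω hk hcard v hv (s + N * d) (by omega) (by rw [hd]; nlinarith)
      rw [hd] at h1
      rw [Finset.prod_range_succ _ (N + 1)]
      have h2 : s + (N + 1) * d = s + N * d + d := by ring
      rw [h2]
      have h3 : (∏ l ∈ Finset.range (N + 1), aj v ω (s + l * d)) ^ ((p ^ k) ^ d) =
        (∏ l ∈ Finset.range N, aj v ω (s + l * d)) ^ ((p ^ k) ^ d) * (aj v ω (s + N * d)) ^ ((p ^ k) ^ d) := by
        rw [Finset.prod_range_succ, mul_pow]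
      rw [h3]
      linear_combination (aj v ω (s + N * d + d)) * ih + (aj v ω s * (∏ l ∈ Finset.range N, aj v ω (s + l * d)) ^ ((p ^ k) ^ d)) * h1
  have hlim1 : Lim (fun N => (∏ l ∈ Finset.range (N + 1), aj v ω (s + l * d)) * BB (p ^ k) ω d s) (P * BB (p ^ k) ω d s) :=
    (hP.subseq (fun N => N + 1) (fun N => by omega)).mul (Lim.const _)
  have hlim2 : Lim (fun N => aj v ω s * (∏ l ∈ Finset.range N, aj v ω (s + l * d)) ^ ((p ^ k) ^ d) * BB (p ^ k) ω d (s + N * d))
      (aj v ω s * P ^ ((p ^ k) ^ d) * UUm (p ^ k) ω d s) :=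
    ((Lim.const _).mul (hP.pow _)).mul (BB_lim p k ω hk d s hd0 hs hω)
  simp only [hT] at hlim1
  have hEq : P * BB (p ^ k) ω d s = aj v ω s * P ^ ((p ^ k) ^ d) * UUm (p ^ k) ω d s := hlim1.unique hlim2
  have hPc : PowerSeries.constantCoeff P ≠ 0 := lim_const_ne hP (by
    intro N
    rw [map_prod, Finset.prod_ne_zero_iff]
    intro l _; exact hunit _)
  have hPne : P ≠ 0 := by intro h; rw [h, map_zero] at hPc; exact hPc rfl
  have hqd : 2 ≤ (p ^ k) ^ d := le_trans hq2 (Nat.le_self_pow (by omega) _)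
  have hEq2 : (aj v ω s * UUm (p ^ k) ω d s) * P ^ ((p ^ k) ^ d - 1) = BB (p ^ k) ω d s := by
    apply mul_left_cancel₀ hPne
    rw [hEq]
    have : P ^ ((p ^ k) ^ d) = P ^ ((p ^ k) ^ d - 1) * P := by rw [← pow_succ]; congr 1; omega
    rw [this]; ring
  have hane : aj v ω s ≠ 0 := by intro h; have := hunit s; rw [h, map_zero] at this; exact this rfl
  have halg_a : IsAlgebraic (Polynomial E) (aj v ω s) := (phi_alg ω _).neg
  have halg_U : IsAlgebraic (Polynomial E) (UUm (p ^ k) ω d s) := by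
    unfold UUm; apply alg_prod; intro i _; exact (alg_uu _ _ _).pow _
  have halg_B : IsAlgebraic (Polynomial E) (BB (p ^ k) ω d s) := by
    unfold BB; apply alg_prod; intro i _; exact (alg_ww _ _ _).pow _
  have h1 : IsAlgebraic (Polynomial E) (P ^ ((p ^ k) ^ d - 1)) := by
    apply IsAlgebraic.of_mul (mem_nonZeroDivisors_of_ne_zero (mul_ne_zero hane (UU_ne _ _ _ _))) (halg_a.mul halg_U)
    rw [hEq2]; exact halg_B
  exact IsAlgebraic.of_pow (by omega) h1

lemma per_alg (hk : 0 < k) (hcard : Fintype.card F = p ^ k) (v : Polynomial F) (hv : v.Monic) (d : ℕ) (hd : v.natDegree = d)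
    (hd0 : 0 < d) (hω : ω ^ ((p ^ k) ^ d) = ω) (hunit : ∀ j, PowerSeries.constantCoeff (aj v ω j) ≠ 0)
    (hlim : Lim (aj v ω) 1) (r : ℕ → ℕ) (hr : ∃ J, ∀ j ≥ J, r (j + d) = r j)
    (f : E⟦X⟧) (hf : Lim (fun N => ∏ j ∈ Finset.range N, (aj v ω j) ^ r j) f) : IsAlgebraic (Polynomial E) f := by
  obtain ⟨J0, hJ0⟩ := hr
  set J := max J0 d with hJ
  have hJ1 : J0 ≤ J := le_max_left _ _
  have hJ2 : d ≤ J := le_max_right _ _
  have hex : ∀ s : ℕ, ∃ P : E⟦X⟧, Lim (fun N => ∏ l ∈ Finset.range N, aj v ω (s + l * d)) P := by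
    intro s
    have h1 : Lim (fun l => aj v ω (s + l * d)) 1 := hlim.subseq (fun l => s + l * d) (fun N => by nlinarith)
    obtain ⟨P, hP⟩ := exists_lim_prod (fun l => aj v ω (s + l * d)) h1 (fun _ => 1)
    refine ⟨P, ?_⟩
    simpa using hP
  choose P hP using hex
  have hper : ∀ M i, r (J + i + M * d) = r (J + i) := by
    intro M i
    induction M with
    | zero => simp
    | succ M ih =>
      rw [← ih, show J + i + (M + 1) * d = (J + i + M * d) + d by ring]
      exact hJ0 _ (by have : J0 ≤ J + i + M * d := by nlinarith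
                      exact this)
  have hprod : ∀ M, ∏ j ∈ Finset.range (J + M * d), (aj v ω j) ^ r j =
      (∏ j ∈ Finset.range J, (aj v ω j) ^ r j) * ∏ i ∈ Finset.range d, (∏ l ∈ Finset.range M, aj v ω (J + i + l * d)) ^ r (J + i) := by
    intro M
    induction M with
    | zero => simp
    | succ M ih =>
      rw [show J + (M + 1) * d = (J + M * d) + d by ring, Finset.prod_range_add, ih]
      have h1 : ∏ i ∈ Finset.range d, (∏ l ∈ Finset.range (M + 1), aj v ω (J + i + l * d)) ^ r (J + i) =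
          (∏ i ∈ Finset.range d, (∏ l ∈ Finset.range M, aj v ω (J + i + l * d)) ^ r (J + i)) *
          ∏ i ∈ Finset.range d, (aj v ω (J + i + M * d)) ^ r (J + i) := by
        rw [← Finset.prod_mul_distrib]
        apply Finset.prod_congr rfl
        intro i _
        rw [Finset.prod_range_succ, mul_pow]
      rw [h1]
      have h2 : ∏ x ∈ Finset.range d, (aj v ω (J + M * d + x)) ^ r (J + M * d + x) = ∏ i ∈ Finset.range d, (aj v ω (J + i + M * d)) ^ r (J + i) := by
        apply Finset.prod_congr rfl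
        intro i _
        rw [show J + M * d + i = J + i + M * d by ring, hper M i]
      rw [h2]
      ring
  have hl1 : Lim (fun M => ∏ j ∈ Finset.range (J + M * d), (aj v ω j) ^ r j) f :=
    hf.subseq (fun M => J + M * d) (fun N => by nlinarith)
  simp only [hprod] at hl1
  have hl2 : Lim (fun M => (∏ j ∈ Finset.range J, (aj v ω j) ^ r j) * ∏ i ∈ Finset.range d, (∏ l ∈ Finset.range M, aj v ω (J + i + l * d)) ^ r (J + i))
      ((∏ j ∈ Finset.range J, (aj v ω j) ^ r j) * ∏ i ∈ Finset.range d, (P (J + i)) ^ r (J + i)) := by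
    apply (Lim.const _).mul
    apply Lim.prod
    intro i _
    exact (hP (J + i)).pow _
  rw [hl1.unique hl2]
  apply IsAlgebraic.mul
  · apply alg_prod; intro j _; exact ((phi_alg ω _).neg).pow _
  · apply alg_prod; intro i _
    exact (alg_P p k ω hk hcard v hv d hd hd0 hω hunit (J + i) (by omega) (P (J + i)) (hP (J + i))).pow _

/-- the main theorem on the power series side -/
theorem final_E (hk : 0 < k) (hcard : Fintype.card F = p ^ k) (v : Polynomial F) (hv : v.Monic) (d : ℕ) (hd : v.natDegree = d)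
    (hd0 : 0 < d) (hω : ω ^ ((p ^ k) ^ d) = ω) (hunit : ∀ j, PowerSeries.constantCoeff (aj v ω j) ≠ 0)
    (hlim : Lim (aj v ω) 1) (e : ℕ) : ∀ (n : ℕ → ℕ) (_ : ∀ j, n j < p ^ e) (f : E⟦X⟧) (_ : IsAlgebraic (Polynomial E) f)
    (_ : Lim (fun N => ∏ j ∈ Finset.range N, (aj v ω j) ^ n j) f), ∃ J, ∀ j ≥ J, n (j + d) = n j := by
  induction e with
  | zero =>
    intro n hn f _ _
    refine ⟨0, fun j _ => ?_⟩
    have h1 := hn j
    have h2 := hn (j + d)
    rw [pow_zero] at h1 h2
    omega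
  | succ e ih =>
    intro n hn f halg hf
    have hunit' : ∀ j, PowerSeries.constantCoeff (phi ω (Dv v j)) ≠ 0 := by
      intro j
      have := hunit j
      unfold aj at this
      rwa [map_neg, neg_ne_zero] at this
    obtain ⟨J, hJ⟩ := main_E p k ω hk hcard v hv d hd0 hd hω hunit' n f halg hf
    have hp := (Fact.out : p.Prime)
    have hr : ∀ j ≥ J, (n (j + d)) % p = (n j) % p := by
      intro j hj
      have h1 := hJ j hj
      exact (CharP.natCast_eq_natCast E p).mp h1
    obtain ⟨f0, hf0⟩ := exists_lim_prod (aj v ω) hlim (fun j => n j % p)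
    obtain ⟨f1, hf1⟩ := exists_lim_prod (aj v ω) hlim (fun j => n j / p)
    have halg0 : IsAlgebraic (Polynomial E) f0 := per_alg p k ω hk hcard v hv d hd hd0 hω hunit hlim (fun j => n j % p) ⟨J, hr⟩ f0 hf0
    have hff : f = f0 * f1 ^ p := by
      refine hf.unique ?_
      have h1 := hf0.mul (hf1.pow p)
      have h2 : (fun N => ∏ j ∈ Finset.range N, (aj v ω j) ^ n j) =
          (fun N => (∏ j ∈ Finset.range N, (aj v ω j) ^ (n j % p)) * (∏ j ∈ Finset.range N, (aj v ω j) ^ (n j / p)) ^ p) := by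
        funext N
        rw [← Finset.prod_pow, ← Finset.prod_mul_distrib]
        apply Finset.prod_congr rfl
        intro j _
        rw [← pow_mul, ← pow_add]
        congr 1
        rw [mul_comm]; exact (Nat.mod_add_div (n j) p).symm
      rw [h2]; exact h1
    have hf0c : PowerSeries.constantCoeff f0 ≠ 0 := lim_const_ne hf0 (by
      intro N
      rw [map_prod, Finset.prod_ne_zero_iff]
      intro l _; rw [map_pow]; exact pow_ne_zero _ (hunit _))
    have hf0ne : f0 ≠ 0 := by intro h; rw [h, map_zero] at hf0c; exact hf0c rfl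
    have halg1 : IsAlgebraic (Polynomial E) f1 := by
      have h1 : IsAlgebraic (Polynomial E) (f1 ^ p) := by
        apply IsAlgebraic.of_mul (mem_nonZeroDivisors_of_ne_zero hf0ne) halg0
        rw [← hff]; exact halg
      exact IsAlgebraic.of_pow hp.pos h1
    obtain ⟨J1, hJ1⟩ := ih (fun j => n j / p) (by
      intro j
      have := hn j
      rw [pow_succ] at this
      exact Nat.div_lt_of_lt_mul (by rw [mul_comm]; exact this)) f1 halg1 hf1
    refine ⟨max J J1, fun j hj => ?_⟩
    have h1 := hr j (le_trans (le_max_left _ _) hj)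
    have h2 := hJ1 j (le_trans (le_max_right _ _) hj)
    rw [← Nat.mod_add_div (n (j + d)) p, h1, h2, Nat.mod_add_div]

end Pool.Agent.H509R3.Yao
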