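import Mathlib
import Pool.Agent.H509R3.Yao.PerAlg

set_option autoImplicit false
set_option linter.unusedSectionVars false
open PowerSeries Filter Topology IsDedekindDomain

namespace Pool.Agent.H509R3.Yao

variable {F E : Type*} [Field F] [Fintype F] [Field E] [Finite E] [Algebra F E]

lemma lim_eval (P : Polynomial (Polynomial F)) (ω : E) (x : ℕ → Polynomial F) (f : E⟦X⟧) (hf : Lim (fun N => phi ω (x N)) f) :
    Lim (fun N => phi ω (P.eval (x N))) ((P.map (phi ω)).eval f) := by
  intro e
  obtain ⟨N0, hN0⟩ := hf e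
  refine ⟨N0, fun N hN => ?_⟩
  have h1 : phi ω (P.eval (x N)) = (P.map (phi ω)).eval (phi ω (x N)) := by
    rw [Polynomial.eval_map, Polynomial.eval₂_at_apply]
  simp only
  rw [h1]
  exact dvd_trans (hN0 N hN) (Polynomial.sub_dvd_eval_sub _ _ _)

lemma phi_v_dvd (v : Polynomial F) (ω : E) (hω : Polynomial.aeval ω v = 0) : (PowerSeries.X : E⟦X⟧) ∣ phi ω v := by
  rw [PowerSeries.X_dvd_iff, phi_const, hω]

theorem transport (v : Polynomial F) (vv : HeightOneSpectrum (Polynomial F)) (hvv : vv.asIdeal = Ideal.span {v})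
    (x : ℕ → Polynomial F) (Pi : vv.adicCompletion (RatFunc F))
    (hPi : Tendsto (fun N => algebraMap (Polynomial F) (vv.adicCompletion (RatFunc F)) (x N)) atTop (𝓝 Pi))
    (halg : IsAlgebraic (RatFunc F) Pi) (ω : E) (hω : Polynomial.aeval ω v = 0) (f : E⟦X⟧) (hf : Lim (fun N => phi ω (x N)) f) :
    IsAlgebraic (Polynomial E) f := by
  have halg2 : IsAlgebraic (Polynomial F) Pi := (IsFractionRing.isAlgebraic_iff (Polynomial F) (RatFunc F) (vv.adicCompletion (RatFunc F))).mpr halg
  obtain ⟨P, hP0, hP⟩ := halg2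
  -- P(x_N) tends to 0
  have hcont : Continuous (fun y : vv.adicCompletion (RatFunc F) => Polynomial.aeval y P) := Polynomial.continuous_aeval P
  have ht : Tendsto (fun N => Polynomial.aeval (algebraMap (Polynomial F) (vv.adicCompletion (RatFunc F)) (x N)) P) atTop (𝓝 0) := by
    have := (hcont.tendsto Pi).comp hPi
    rw [hP] at this
    exact this
  have ht2 : Tendsto (fun N => algebraMap (Polynomial F) (vv.adicCompletion (RatFunc F)) (P.eval (x N))) atTop (𝓝 0) := by
    have h1 : ∀ N, Polynomial.aeval (algebraMap (Polynomial F) (vv.adicCompletion (RatFunc F)) (x N)) P =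
        algebraMap (Polynomial F) (vv.adicCompletion (RatFunc F)) (P.eval (x N)) := by
      intro N
      rw [Polynomial.aeval_algebraMap_apply]
      rfl
    simpa only [h1] using ht
  have hdiv : ∀ e : ℕ, ∃ N0, ∀ N ≥ N0, v ^ e ∣ P.eval (x N) := by
    intro e
    obtain ⟨y0, hy0⟩ := IsDedekindDomain.HeightOneSpectrum.valuedAdicCompletion_surjective (RatFunc F) vv (WithZero.exp (-(e : ℤ)))
    have hopen : IsOpen {y : vv.adicCompletion (RatFunc F) | Valued.v y < Valued.v y0} := by
      have h0 := Valued.isOpen_ball (vv.adicCompletion (RatFunc F)) (Valued.v.restrict y0)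
      simpa only [Valuation.restrict_lt_iff] using h0
    have hmem : (0 : vv.adicCompletion (RatFunc F)) ∈ {y : vv.adicCompletion (RatFunc F) | Valued.v y < Valued.v y0} := by
      rw [Set.mem_setOf_eq, hy0, map_zero]
      exact WithZero.exp_pos
    have hev := ht2.eventually (hopen.mem_nhds hmem)
    rw [Filter.eventually_atTop] at hev
    obtain ⟨N0, hN0⟩ := hev
    refine ⟨N0, fun N hN => ?_⟩
    have h1 := hN0 N hN
    rw [hy0] at h1
    have h2 : Valued.v (algebraMap (Polynomial F) (vv.adicCompletion (RatFunc F)) (P.eval (x N))) = vv.intValuation (P.eval (x N)) := by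
      rw [IsDedekindDomain.HeightOneSpectrum.algebraMap_adicCompletion]
      rw [Function.comp_apply, IsDedekindDomain.HeightOneSpectrum.adicCompletion.valued_coe,
        IsDedekindDomain.HeightOneSpectrum.valuation_of_algebraMap]
    rw [h2] at h1
    have h3 := (vv.intValuation_le_pow_iff_mem (P.eval (x N)) e).mp h1.le
    rw [hvv, Ideal.span_singleton_pow, Ideal.mem_span_singleton] at h3
    exact h3
  -- the value on the power series side is 0
  have hlim0 : Lim (fun N => phi ω (P.eval (x N))) 0 := by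
    intro e
    obtain ⟨N0, hN0⟩ := hdiv e
    refine ⟨N0, fun N hN => ?_⟩
    rw [zero_sub, dvd_neg]
    have h1 : phi ω (v ^ e) ∣ phi ω (P.eval (x N)) := map_dvd _ (hN0 N hN)
    rw [map_pow] at h1
    exact dvd_trans (pow_dvd_pow_of_dvd (phi_v_dvd v ω hω) e) h1
  have hz : (P.map (phi ω)).eval f = 0 := (lim_eval P ω x f hf).unique hlim0
  -- conclude
  set ψ : Polynomial F →+* Polynomial E := ((Polynomial.taylorAlgHom ω).toRingHom.comp (Polynomial.mapRingHom (algebraMap F E))) with hψ
  have hψinj : Function.Injective ψ := by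
    intro a b hab
    apply phi_inj (F := F) ω
    change ((ψ a : Polynomial E) : E⟦X⟧) = ((ψ b : Polynomial E) : E⟦X⟧)
    rw [hab]
  refine ⟨P.map ψ, ?_, ?_⟩
  · rw [Ne, Polynomial.map_eq_zero_iff hψinj]
    exact hP0
  · rw [Polynomial.aeval_def, Polynomial.eval₂_map]
    rw [Polynomial.eval_map] at hz
    exact hz

end Pool.Agent.H509R3.Yao
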