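import Mathlib
import Pool.Agent.H509R3.Yao.Transport

set_option autoImplicit false
set_option linter.unusedSectionVars false
open PowerSeries Filter Topology IsDedekindDomain

namespace Pool.Agent.H509R3.Yao

universe u

/-- data on the power series side attached to `v` -/
lemma setup_E {F : Type u} [Field F] [Fintype F] (p : ℕ) [Fact p.Prime] [CharP F p] (v : Polynomial F) (hv : v.Monic)
    (hirr : Irreducible v) : ∃ (E : Type u) (_ : Field E) (_ : Finite E) (_ : Algebra F E) (_ : CharP E p) (ω : E),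
      Polynomial.aeval ω v = 0 ∧ (∀ P : Polynomial F, Polynomial.aeval ω P = 0 → v ∣ P) ∧
      Nat.card E = Fintype.card F ^ v.natDegree := by
  have : Fact (Irreducible v) := ⟨hirr⟩
  have hfin : Module.Finite F (AdjoinRoot v) := (AdjoinRoot.powerBasis hv.ne_zero).finite
  have hfinite : Finite (AdjoinRoot v) := Module.finite_of_finite F
  have hchar : CharP (AdjoinRoot v) p := charP_of_injective_algebraMap (algebraMap F (AdjoinRoot v)).injective p
  refine ⟨AdjoinRoot v, inferInstance, hfinite, inferInstance, hchar, AdjoinRoot.root v, ?_, ?_, ?_⟩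
  · rw [AdjoinRoot.aeval_eq, AdjoinRoot.mk_self]
  · intro P hP
    rw [AdjoinRoot.aeval_eq, AdjoinRoot.mk_eq_zero] at hP
    exact hP
  · rw [Module.natCard_eq_pow_finrank (K := F), Nat.card_eq_fintype_card, (AdjoinRoot.powerBasis hv.ne_zero).finrank,
      AdjoinRoot.powerBasis_dim]

section
variable {F E : Type*} [Field F] [Fintype F] [Field E] [Finite E] [Algebra F E]

lemma not_dvd_Dv (v : Polynomial F) (hirr : Irreducible v) (j : ℕ) : ¬ v ∣ Dv v j := by
  classical
  unfold Dv
  intro h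
  obtain ⟨P, hP, hd⟩ := hirr.prime.exists_mem_finset_dvd h
  rw [Finset.mem_filter] at hP
  exact hP.2 hd

lemma facts_E (p : ℕ) [Fact p.Prime] [CharP F p] [CharP E p] (k : ℕ) (hk : 0 < k) (hcard : Fintype.card F = p ^ k)
    (v : Polynomial F) (hv : v.Monic) (hirr : Irreducible v) (ω : E) (h0 : Polynomial.aeval ω v = 0)
    (hker : ∀ P : Polynomial F, Polynomial.aeval ω P = 0 → v ∣ P) (hE : Nat.card E = Fintype.card F ^ v.natDegree) :
    ω ^ ((p ^ k) ^ v.natDegree) = ω ∧ (∀ j, PowerSeries.constantCoeff (aj v ω j) ≠ 0) ∧ Lim (aj v ω) 1 := by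
  have : Fintype E := Fintype.ofFinite E
  have hω : ω ^ ((p ^ k) ^ v.natDegree) = ω := by
    rw [← hcard, ← hE, Nat.card_eq_fintype_card]
    exact FiniteField.pow_card ω
  have hunit : ∀ j, PowerSeries.constantCoeff (aj v ω j) ≠ 0 := by
    intro j
    unfold aj
    rw [map_neg, neg_ne_zero, phi_const]
    intro h
    exact not_dvd_Dv v hirr j (hker _ h)
  refine ⟨hω, hunit, ?_⟩
  apply aj_lim p k ω hk hcard v hv v.natDegree rfl hirr.natDegree_pos hω
  intro j hj
  obtain ⟨i, rfl⟩ : ∃ i, j = i + v.natDegree := ⟨j - v.natDegree, by omega⟩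
  unfold aj
  rw [map_neg, phi_const, wilson ω v hv h0 hker hE i, neg_neg]

end

theorem main_Kv {F : Type u} [Field F] [Fintype F] (p : ℕ) [Fact p.Prime] [CharP F p] (v : Polynomial F) (hv : v.Monic)
    (hirr : Irreducible v) (vv : HeightOneSpectrum (Polynomial F)) (hvv : vv.asIdeal = Ideal.span {v})
    (a : ℕ → ℕ) (ha : ∀ j, a j < Fintype.card F) (Pi : vv.adicCompletion (RatFunc F))
    (hPi : Tendsto (fun N => ∏ j ∈ Finset.range N, (algebraMap (Polynomial F) (vv.adicCompletion (RatFunc F)) (-(Dv v j))) ^ a j)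
      atTop (𝓝 Pi)) (halg : IsAlgebraic (RatFunc F) Pi) : ∃ J, ∀ j ≥ J, a (j + v.natDegree) = a j := by
  obtain ⟨k, hk, hcard⟩ := card_eq_pow (F := F) p
  obtain ⟨E, iE, finE, algE, charE, ω, h0, hker, hE⟩ := setup_E p v hv hirr
  obtain ⟨hω, hunit, hlim⟩ := facts_E p k hk hcard v hv hirr ω h0 hker hE
  obtain ⟨f, hf⟩ := exists_lim_prod (aj v ω) hlim a
  have hfalg : IsAlgebraic (Polynomial E) f := by
    apply transport v vv hvv (fun N => ∏ j ∈ Finset.range N, (-(Dv v j)) ^ a j) Pi ?_ halg ω h0 f ?_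
    · simpa only [map_prod, map_pow] using hPi
    · have : (fun N => phi ω (∏ j ∈ Finset.range N, (-(Dv v j)) ^ a j)) = (fun N => ∏ j ∈ Finset.range N, (aj v ω j) ^ a j) := by
        funext N
        rw [map_prod]
        apply Finset.prod_congr rfl
        intro j _
        rw [map_pow, map_neg]; rfl
      rw [this]; exact hf
  exact final_E p k ω hk hcard v hv v.natDegree rfl hirr.natDegree_pos hω hunit hlim k a (by rw [← hcard]; exact ha) f hfalg hf

/-- `X`-adic divisibility of the expansion detects `v`-adic divisibility -/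
lemma v_dvd_of_phi {F E : Type*} [Field F] [Fintype F] [Field E] [Finite E] [Algebra F E] (v : Polynomial F)
    (hirr : Irreducible v) (ω : E) (h0 : Polynomial.aeval ω v = 0)
    (hker : ∀ P : Polynomial F, Polynomial.aeval ω P = 0 → v ∣ P) (e : ℕ) :
    ∀ P : Polynomial F, (PowerSeries.X : E⟦X⟧) ^ e ∣ phi ω P → v ^ e ∣ P := by
  induction e with
  | zero => intro P _; simp
  | succ e ih =>
    intro P hP
    have h1 : (PowerSeries.X : E⟦X⟧) ∣ phi ω P := dvd_trans (dvd_pow_self _ (by omega)) hP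
    rw [PowerSeries.X_dvd_iff, phi_const] at h1
    obtain ⟨Q, rfl⟩ := hker P h1
    -- phi v = X * unit
    obtain ⟨u, hu⟩ := phi_v_dvd v ω h0
    have hsep : v.Separable := PerfectField.separable_of_irreducible hirr
    have hder : Polynomial.aeval ω (Polynomial.derivative v) ≠ 0 := hsep.aeval_derivative_ne_zero h0
    have huc : PowerSeries.constantCoeff u ≠ 0 := by
      have h2 : PowerSeries.constantCoeff u = PowerSeries.coeff 1 (phi ω v) := by
        rw [hu, mul_comm, ← PowerSeries.coeff_zero_eq_constantCoeff_apply]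
        exact (PowerSeries.coeff_succ_mul_X 0 u).symm
      rw [h2, phi_apply, Polynomial.coeff_coe, Polynomial.taylor_coeff_one, Polynomial.derivative_map,
        Polynomial.eval_map_algebraMap]
      exact hder
    have hunit : IsUnit u := by
      rw [PowerSeries.isUnit_iff_constantCoeff]; exact isUnit_iff_ne_zero.mpr huc
    rw [map_mul, hu, pow_succ', mul_assoc] at hP
    have h3 := (mul_dvd_mul_iff_left PowerSeries.X_ne_zero).mp hP
    have h4 : (PowerSeries.X : E⟦X⟧) ^ e ∣ phi ω Q := (hunit.dvd_mul_left).mp h3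
    rw [pow_succ']
    exact mul_dvd_mul_left v (ih Q h4)

/-- `-D_{j,v}` tends to `1` in the `v`-adic topology -/
lemma Dv_tendsto {F : Type u} [Field F] [Fintype F] (v : Polynomial F) (hv : v.Monic)
    (hirr : Irreducible v) (e : ℕ) : ∃ N0, ∀ N ≥ N0, v ^ e ∣ 1 - (-(Dv v N)) := by
  obtain ⟨p, hp⟩ := CharP.exists F
  have hpp : Fact p.Prime := ⟨CharP.char_is_prime F p⟩
  obtain ⟨k, hk, hcard⟩ := card_eq_pow (F := F) p
  obtain ⟨E, iE, finE, algE, charE, ω, h0, hker, hE⟩ := setup_E p v hv hirr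
  obtain ⟨hω, hunit, hlim⟩ := facts_E p k hk hcard v hv hirr ω h0 hker hE
  obtain ⟨N0, hN0⟩ := hlim e
  refine ⟨N0, fun N hN => ?_⟩
  apply v_dvd_of_phi v hirr ω h0 hker e
  have h1 := hN0 N hN
  rw [map_sub, map_one, map_neg]
  exact h1

end Pool.Agent.H509R3.Yao
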