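import Mathlib
import Pool.Agent.H509R3.Yao.Assemble

set_option autoImplicit false
set_option linter.unusedSectionVars false
open Filter Topology IsDedekindDomain

namespace Pool.Agent.H509R3.Yao

universe u

lemma nonarch {F : Type u} [Field F] (vv : HeightOneSpectrum (Polynomial F)) :
    NonarchimedeanAddGroup (vv.adicCompletion (RatFunc F)) where
  is_nonarchimedean := by
    intro U hU
    rw [Valued.mem_nhds_zero] at hU
    obtain ⟨γ, hγ⟩ := hU
    exact ⟨⟨Valuation.ltAddSubgroup Valued.v.restrict γ, Valued.isOpen_ball _ _⟩, hγ⟩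

lemma tendsto_zero_of_dvd {F : Type u} [Field F] (v : Polynomial F) (vv : HeightOneSpectrum (Polynomial F))
    (hvv : vv.asIdeal = Ideal.span {v}) (z : ℕ → Polynomial F) (hz : ∀ e : ℕ, ∃ N0, ∀ N ≥ N0, v ^ e ∣ z N) :
    Tendsto (fun N => algebraMap (Polynomial F) (vv.adicCompletion (RatFunc F)) (z N)) atTop (𝓝 0) := by
  rw [tendsto_atTop']
  intro s hs
  rw [Valued.mem_nhds_zero] at hs
  obtain ⟨γ, hγ⟩ := hs
  set g := MonoidWithZeroHom.ValueGroup₀.embedding γ.1 with hg
  have hg0 : g ≠ 0 := by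
    rw [hg]
    intro h
    exact γ.ne_zero (MonoidWithZeroHom.ValueGroup₀.embedding_strictMono.injective (by rw [h, map_zero]))
  obtain ⟨m, hm⟩ : ∃ m : ℤ, g = WithZero.exp m := ⟨WithZero.log g, (WithZero.exp_log hg0).symm⟩
  obtain ⟨N0, hN0⟩ := hz (m.natAbs + 1)
  refine ⟨N0, fun N hN => hγ ?_⟩
  have h1 := hN0 N hN
  have h2 : Valued.v (algebraMap (Polynomial F) (vv.adicCompletion (RatFunc F)) (z N)) = vv.intValuation (z N) := by
    rw [IsDedekindDomain.HeightOneSpectrum.algebraMap_adicCompletion]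
    rw [Function.comp_apply, IsDedekindDomain.HeightOneSpectrum.adicCompletion.valued_coe,
      IsDedekindDomain.HeightOneSpectrum.valuation_of_algebraMap]
  have h3 : vv.intValuation (z N) ≤ WithZero.exp (-((m.natAbs + 1 : ℕ) : ℤ)) := by
    rw [vv.intValuation_le_pow_iff_mem, hvv, Ideal.span_singleton_pow, Ideal.mem_span_singleton]
    exact h1
  have h4 : (WithZero.exp (-((m.natAbs + 1 : ℕ) : ℤ)) : WithZero (Multiplicative ℤ)) < WithZero.exp m := by
    rw [WithZero.exp_lt_exp]; omega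
  change Valued.v.restrict _ < γ.1
  rw [Valuation.restrict_lt_iff_lt_embedding, h2]
  exact lt_of_le_of_lt h3 (by rw [← hg, hm]; exact h4)

theorem exists_Pi {F : Type u} [Field F] [Fintype F] (v : Polynomial F) (hv : v.Monic)
    (hirr : Irreducible v) (vv : HeightOneSpectrum (Polynomial F)) (hvv : vv.asIdeal = Ideal.span {v}) (a : ℕ → ℕ) :
    ∃ Pi : vv.adicCompletion (RatFunc F),
      Tendsto (fun N => ∏ j ∈ Finset.range N, (algebraMap (Polynomial F) (vv.adicCompletion (RatFunc F)) (-(Dv v j))) ^ a j)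
      atTop (𝓝 Pi) := by
  have hna := nonarch vv
  set x : ℕ → Polynomial F := fun N => ∏ j ∈ Finset.range N, (-(Dv v j)) ^ a j with hx
  have hmap : (fun N => ∏ j ∈ Finset.range N, (algebraMap (Polynomial F) (vv.adicCompletion (RatFunc F)) (-(Dv v j))) ^ a j) =
      (fun N => algebraMap (Polynomial F) (vv.adicCompletion (RatFunc F)) (x N)) := by
    funext N; rw [hx]; simp only [map_prod, map_pow]
  rw [hmap]
  apply cauchySeq_tendsto_of_complete
  apply NonarchimedeanAddGroup.cauchySeq_of_tendsto_sub_nhds_zero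
  have h1 : (fun n => algebraMap (Polynomial F) (vv.adicCompletion (RatFunc F)) (x (n + 1)) - algebraMap (Polynomial F) (vv.adicCompletion (RatFunc F)) (x n)) =
      (fun n => algebraMap (Polynomial F) (vv.adicCompletion (RatFunc F)) (x (n + 1) - x n)) := by
    funext n; rw [map_sub]
  rw [h1]
  apply tendsto_zero_of_dvd v vv hvv
  intro e
  obtain ⟨N0, hN0⟩ := Dv_tendsto v hv hirr e
  refine ⟨N0, fun N hN => ?_⟩
  have h2 := hN0 N hN
  have h3 : x (N + 1) - x N = -(x N) * (1 ^ a N - (-(Dv v N)) ^ a N) := by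
    rw [hx]; simp only [Finset.prod_range_succ, one_pow]; ring
  rw [h3]
  exact Dvd.dvd.mul_left (dvd_trans h2 (sub_dvd_pow_sub_pow _ _ _)) _

end Pool.Agent.H509R3.Yao
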